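import Mathlib

open MeasureTheory Set Filter Topology
open scoped ContDiff

namespace Pool.Agent.H52R3

/-- Euclidean three-space. -/
abbrev E3 : Type := EuclideanSpace ℝ (Fin 3)

/-- The `i`-th partial derivative. -/
noncomputable def pd (i : Fin 3) (f : E3 → ℝ) (x : E3) : ℝ :=
  fderiv ℝ f x (EuclideanSpace.single i 1)

/-- `f` is smooth on the punctured space. -/
def SX (f : E3 → ℝ) : Prop := ContDiffOn ℝ ∞ f {0}ᶜ

lemma isOpen_X : IsOpen ({0}ᶜ : Set E3) := isOpen_compl_singleton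

namespace SX

variable {f g : E3 → ℝ}

lemma contDiffAt (hf : SX f) {x : E3} (hx : x ≠ 0) : ContDiffAt ℝ ∞ f x :=
  (hf x hx).contDiffAt (isOpen_X.mem_nhds hx)

lemma differentiableAt (hf : SX f) {x : E3} (hx : x ≠ 0) : DifferentiableAt ℝ f x :=
  (hf.contDiffAt hx).differentiableAt (by simp)

lemma continuousAt (hf : SX f) {x : E3} (hx : x ≠ 0) : ContinuousAt f x :=
  (hf.contDiffAt hx).continuousAt

lemma continuousOn (hf : SX f) : ContinuousOn f {0}ᶜ := ContDiffOn.continuousOn hf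

lemma of_contDiff (hf : ContDiff ℝ ∞ f) : SX f := hf.contDiffOn

lemma const (c : ℝ) : SX (fun _ => c) := contDiffOn_const

lemma add (hf : SX f) (hg : SX g) : SX (fun x => f x + g x) := ContDiffOn.add hf hg

lemma sub (hf : SX f) (hg : SX g) : SX (fun x => f x - g x) := ContDiffOn.sub hf hg

lemma mul (hf : SX f) (hg : SX g) : SX (fun x => f x * g x) := ContDiffOn.mul hf hg

lemma neg (hf : SX f) : SX (fun x => - f x) := ContDiffOn.neg hf

lemma pow (hf : SX f) (n : ℕ) : SX (fun x => f x ^ n) := ContDiffOn.pow hf n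

lemma exp (hf : SX f) : SX (fun x => Real.exp (f x)) := ContDiffOn.exp hf

lemma sin (hf : SX f) : SX (fun x => Real.sin (f x)) := ContDiffOn.sin hf

lemma cos (hf : SX f) : SX (fun x => Real.cos (f x)) := ContDiffOn.cos hf

lemma comp_contDiff {h : ℝ → ℝ} (hh : ContDiff ℝ ∞ h) (hf : SX f) : SX (fun x => h (f x)) :=
  hh.comp_contDiffOn hf

lemma sum {ι : Type*} {s : Finset ι} {F : ι → E3 → ℝ} (h : ∀ i ∈ s, SX (F i)) :
    SX (fun x => ∑ i ∈ s, F i x) := ContDiffOn.sum h

lemma pd (hf : SX f) (i : Fin 3) : SX (pd i f) := by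
  have h : ContDiffOn ℝ ∞ (fderiv ℝ f) {0}ᶜ :=
    ContDiffOn.fderiv_of_isOpen hf isOpen_X (by simp)
  exact h.clm_apply contDiffOn_const

end SX

/-- `f'` is the derivative of `f` at `x` in the `i`-th coordinate direction. -/
def HasPd (i : Fin 3) (f : E3 → ℝ) (f' : ℝ) (x : E3) : Prop :=
  HasDerivAt (fun t : ℝ => f (x + t • EuclideanSpace.single i (1 : ℝ))) f' 0

lemma hasPd_of_diff {f : E3 → ℝ} {x : E3} (hf : DifferentiableAt ℝ f x) (i : Fin 3) :
    HasPd i f (pd i f x) x := by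
  have h1 : HasFDerivAt f (fderiv ℝ f x) (x + (0 : ℝ) • EuclideanSpace.single i (1 : ℝ)) := by
    simpa using hf.hasFDerivAt
  have h2 : HasDerivAt (fun t : ℝ => x + t • EuclideanSpace.single i (1 : ℝ))
      (EuclideanSpace.single i (1 : ℝ)) 0 := by
    have := ((hasDerivAt_id (0 : ℝ)).smul_const (EuclideanSpace.single i (1 : ℝ))).const_add x
    simpa using this
  exact h1.comp_hasDerivAt (0 : ℝ) h2

lemma HasPd.unique {i : Fin 3} {f : E3 → ℝ} {a b : ℝ} {x : E3} (h1 : HasPd i f a x)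
    (h2 : HasPd i f b x) : a = b := HasDerivAt.unique h1 h2

lemma HasPd.pd_eq {i : Fin 3} {f : E3 → ℝ} {a : ℝ} {x : E3} (h : HasPd i f a x)
    (hf : DifferentiableAt ℝ f x) : pd i f x = a := (hasPd_of_diff hf i).unique h

lemma SX.hasPd {f : E3 → ℝ} (hf : SX f) {x : E3} (hx : x ≠ 0) (i : Fin 3) :
    HasPd i f (H52R3.pd i f x) x := hasPd_of_diff (hf.differentiableAt hx) i

namespace HasPd
variable {i : Fin 3} {f g : E3 → ℝ} {f' g' : ℝ} {x : E3}

lemma add (hf : HasPd i f f' x) (hg : HasPd i g g' x) :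
    HasPd i (fun y => f y + g y) (f' + g') x := HasDerivAt.add hf hg

lemma sub (hf : HasPd i f f' x) (hg : HasPd i g g' x) :
    HasPd i (fun y => f y - g y) (f' - g') x := HasDerivAt.sub hf hg

lemma mul (hf : HasPd i f f' x) (hg : HasPd i g g' x) :
    HasPd i (fun y => f y * g y) (f' * g x + f x * g') x := by
  have := HasDerivAt.fun_mul hf hg
  unfold HasPd
  simpa using this

lemma neg (hf : HasPd i f f' x) : HasPd i (fun y => - f y) (-f') x := HasDerivAt.neg hf

lemma const (c : ℝ) : HasPd i (fun _ => c) 0 x := hasDerivAt_const _ _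

lemma exp (hf : HasPd i f f' x) : HasPd i (fun y => Real.exp (f y)) (Real.exp (f x) * f') x := by
  have := HasDerivAt.exp hf
  unfold HasPd
  simpa using this

lemma comp {h : ℝ → ℝ} {h' : ℝ} (hh : HasDerivAt h h' (f x)) (hf : HasPd i f f' x) :
    HasPd i (fun y => h (f y)) (h' * f') x := by
  unfold HasPd at *
  have h0 : f (x + (0:ℝ) • EuclideanSpace.single i (1 : ℝ)) = f x := by simp
  have hh' : HasDerivAt h h' (f (x + (0:ℝ) • EuclideanSpace.single i (1 : ℝ))) := by rwa [h0]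
  exact HasDerivAt.comp (0:ℝ) hh' hf

end HasPd

lemma pd_congr {f g : E3 → ℝ} {x : E3} (i : Fin 3) (h : f =ᶠ[𝓝 x] g) : pd i f x = pd i g x := by
  unfold pd; rw [h.fderiv_eq]

/-- two functions which agree on the punctured space have the same derivatives there. -/
lemma pd_congr_X {f g : E3 → ℝ} {x : E3} (i : Fin 3) (hx : x ≠ 0) (h : ∀ y ≠ 0, f y = g y) :
    pd i f x = pd i g x :=
  pd_congr i (by filter_upwards [isOpen_X.mem_nhds hx] with y hy using h y hy)

/-- Symmetry of second derivatives. -/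
lemma pd_comm {f : E3 → ℝ} (hf : SX f) {x : E3} (hx : x ≠ 0) (i j : Fin 3) :
    pd i (pd j f) x = pd j (pd i f) x := by
  have h2 : ContDiffAt ℝ 2 f x := (hf.contDiffAt hx).of_le (by norm_cast)
  have hs : IsSymmSndFDerivAt ℝ f x := by
    apply ContDiffAt.isSymmSndFDerivAt h2
    simp
  have hd : DifferentiableAt ℝ (fderiv ℝ f) x := by
    have h1 : ContDiffOn ℝ ∞ (fderiv ℝ f) {0}ᶜ :=
      ContDiffOn.fderiv_of_isOpen hf isOpen_X (by simp)
    exact ((h1 x hx).contDiffAt (isOpen_X.mem_nhds hx)).differentiableAt (by simp)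
  have e : ∀ a b : Fin 3, pd a (pd b f) x
      = fderiv ℝ (fderiv ℝ f) x (EuclideanSpace.single a 1) (EuclideanSpace.single b 1) := by
    intro a b
    unfold pd
    rw [fderiv_clm_apply hd (differentiableAt_const _)]
    simp
  rw [e, e]
  exact hs _ _

lemma pd_comm3 {f : E3 → ℝ} (hf : SX f) {x : E3} (hx : x ≠ 0) (i j k : Fin 3) :
    pd i (pd j (pd k f)) x = pd i (pd k (pd j f)) x :=
  pd_congr_X i hx (fun _ hy => pd_comm hf hy j k)

/-- scaling of the partial derivatives -/
lemma pd_scale {f : E3 → ℝ} {lam c d : ℝ} (hl : lam ≠ 0)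
    (h : ∀ y ≠ 0, f (lam • y) = c * f y + d) {x : E3} (hx : x ≠ 0) (hf : SX f) (i : Fin 3) :
    pd i f (lam • x) = lam⁻¹ * c * pd i f x := by
  have hlx : lam • x ≠ 0 := smul_ne_zero hl hx
  have h1 : HasFDerivAt (fun y => f (lam • y))
      ((fderiv ℝ f (lam • x)).comp (lam • ContinuousLinearMap.id ℝ E3)) x := by
    have := (hf.differentiableAt hlx).hasFDerivAt
    exact HasFDerivAt.comp x this ((hasFDerivAt_id x).const_smul lam)
  have h2 : HasFDerivAt (fun y => c * f y + d) (c • fderiv ℝ f x) x :=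
    ((hf.differentiableAt hx).hasFDerivAt.const_mul c).add_const d
  have h3 : (fun y => f (lam • y)) =ᶠ[𝓝 x] (fun y => c * f y + d) := by
    filter_upwards [isOpen_X.mem_nhds hx] with y hy using h y hy
  have h4 := h1.unique (h2.congr_of_eventuallyEq h3)
  have h5 := congrArg (fun L : E3 →L[ℝ] ℝ => L (EuclideanSpace.single i 1)) h4
  simp only [ContinuousLinearMap.comp_apply, smul_apply,
    ContinuousLinearMap.id_apply, map_smul, smul_eq_mul] at h5
  unfold pd
  field_simp
  linarith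

end Pool.Agent.H52R3
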