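import Mathlib

set_option autoImplicit false

/-!
# Cones over cylinders in the unit ball: the basic estimate
-/

namespace Pool.Agent.H52R3.Cyl

open MeasureTheory Set Metric Module
open scoped ENNReal Pointwise

section polar

variable {E : Type*} [NormedAddCommGroup E] [InnerProductSpace ℝ E] [FiniteDimensional ℝ E]
  [MeasurableSpace E] [BorelSpace E] [Nontrivial E]

theorem lintegral_norm (f : ℝ → ℝ≥0∞) (hf : Measurable f) :
    ∫⁻ x : E, f ‖x‖ = (finrank ℝ E * volume (ball (0 : E) 1)) *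
      ∫⁻ y in Ioi (0 : ℝ), ENNReal.ofReal (y ^ (finrank ℝ E - 1)) * f y := by
  have h1 : ∫⁻ x : E, f ‖x‖ = ∫⁻ x : ({(0)}ᶜ : Set E), f ‖x.1‖ ∂((volume : Measure E).comap (Subtype.val : ({(0)}ᶜ : Set E) → E)) := by
    rw [lintegral_subtype_comap (measurableSet_singleton _).compl (fun x : E => f ‖x‖),
      restrict_compl_singleton]
  have h2 : ∫⁻ x : ({(0)}ᶜ : Set E), f ‖x.1‖ ∂((volume : Measure E).comap (Subtype.val : ({(0)}ᶜ : Set E) → E)) =
      ∫⁻ x, f x.2 ∂((volume : Measure E).toSphere.prod (.volumeIoiPow (finrank ℝ E - 1))) := by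
    simpa using (volume : Measure E).measurePreserving_homeomorphUnitSphereProd.lintegral_comp_emb
        (Homeomorph.measurableEmbedding _) (f ∘ Subtype.val ∘ Prod.snd)
  have hfs : Measurable (fun y : Ioi (0 : ℝ) => f y) := hf.comp measurable_subtype_coe
  have h3 : ∫⁻ x, f x.2 ∂((volume : Measure E).toSphere.prod (.volumeIoiPow (finrank ℝ E - 1))) =
      (volume : Measure E).toSphere univ *
        ∫⁻ y : Ioi (0 : ℝ), f y ∂(.volumeIoiPow (finrank ℝ E - 1)) := by
    rw [lintegral_prod (fun x : (sphere (0 : E) 1) × (Ioi (0 : ℝ)) => f x.2)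
      (hfs.comp measurable_snd).aemeasurable]
    simp only
    rw [lintegral_const, mul_comm]
  rw [h1, h2, h3, Measure.toSphere_apply_univ]
  congr 1
  rw [Measure.volumeIoiPow, lintegral_withDensity_eq_lintegral_mul _ (by fun_prop) hfs]
  simp only [Pi.mul_apply]
  rw [lintegral_subtype_comap measurableSet_Ioi
    (fun y : ℝ => ENNReal.ofReal (y ^ (finrank ℝ E - 1)) * f y)]

end polar

theorem subst_le {a : ℝ} {k : ℕ} (hk : 2 ≤ k) (ha : 0 ≤ a) (F : ℝ → ℝ≥0∞) :
    ∫⁻ ρ in Ioi (0 : ℝ), ENNReal.ofReal (ρ ^ (k - 1)) * F (√(a ^ 2 + ρ ^ 2)) ≤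
      ∫⁻ r in Ioi a, ENNReal.ofReal (r ^ (k - 1)) * F r := by
  have hpos : ∀ ρ ∈ Ioi (0 : ℝ), 0 < √(a ^ 2 + ρ ^ 2) := by
    intro ρ hρ
    have : (0 : ℝ) < ρ := hρ
    positivity
  have hder : ∀ ρ ∈ Ioi (0 : ℝ), HasDerivWithinAt (fun ρ : ℝ => √(a ^ 2 + ρ ^ 2))
      (ρ / √(a ^ 2 + ρ ^ 2)) (Ioi 0) ρ := by
    intro ρ hρ
    have h0 : (0 : ℝ) < ρ := hρ
    have h1 : HasDerivAt (fun ρ : ℝ => a ^ 2 + ρ ^ 2) (2 * ρ) ρ := by
      simpa using ((hasDerivAt_pow 2 ρ).const_add (a ^ 2))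
    have h2 := h1.sqrt (by positivity)
    have h3 : 2 * ρ / (2 * √(a ^ 2 + ρ ^ 2)) = ρ / √(a ^ 2 + ρ ^ 2) := by
      have := hpos ρ hρ
      field_simp
    rw [h3] at h2
    exact h2.hasDerivWithinAt
  have hinj : InjOn (fun ρ : ℝ => √(a ^ 2 + ρ ^ 2)) (Ioi 0) := by
    intro x hx y hy hxy
    have hx0 : (0 : ℝ) < x := hx
    have hy0 : (0 : ℝ) < y := hy
    have h1 : a ^ 2 + x ^ 2 = a ^ 2 + y ^ 2 := by
      have := congrArg (fun t : ℝ => t ^ 2) hxy
      simp only at this
      rwa [Real.sq_sqrt (by positivity), Real.sq_sqrt (by positivity)] at this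
    nlinarith
  have himg : (fun ρ : ℝ => √(a ^ 2 + ρ ^ 2)) '' (Ioi 0) ⊆ Ioi a := by
    rintro _ ⟨ρ, hρ, rfl⟩
    have h0 : (0 : ℝ) < ρ := hρ
    have : a < √(a ^ 2 + ρ ^ 2) := by
      apply Real.lt_sqrt_of_sq_lt
      nlinarith
    exact this
  have key := lintegral_image_eq_lintegral_abs_deriv_mul measurableSet_Ioi hder hinj
    (fun r => ENNReal.ofReal (r ^ (k - 1)) * F r)
  refine le_trans ?_ (le_trans key.symm.le (lintegral_mono_set himg))
  refine setLIntegral_mono' measurableSet_Ioi ?_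
  intro ρ hρ
  have h0 : (0 : ℝ) < ρ := hρ
  have hr := hpos ρ hρ
  have hρr : ρ ≤ √(a ^ 2 + ρ ^ 2) := by
    apply Real.le_sqrt_of_sq_le
    nlinarith [sq_nonneg a]
  rw [← mul_assoc, ← ENNReal.ofReal_mul (abs_nonneg _)]
  gcongr
  set r := √(a ^ 2 + ρ ^ 2) with hrdef
  obtain ⟨j, rfl⟩ : ∃ j, k = j + 2 := ⟨k - 2, by omega⟩
  rw [abs_of_nonneg (by positivity)]
  have e1 : j + 2 - 1 = j + 1 := by omega
  rw [e1]
  have e2 : ρ / r * r ^ (j + 1) = ρ * r ^ j := by
    rw [pow_succ]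
    field_simp
  rw [e2, pow_succ, mul_comm]
  gcongr

section fubini

variable {U W : Type*} [NormedAddCommGroup U] [InnerProductSpace ℝ U] [FiniteDimensional ℝ U]
  [MeasurableSpace U] [BorelSpace U] [NormedAddCommGroup W] [InnerProductSpace ℝ W]
  [FiniteDimensional ℝ W] [MeasurableSpace W] [BorelSpace W]

open Classical in
/-- the indicator of `r ≤ 1`, `u / r ∈ B` -/
noncomputable def Phi (B : Set U) (u : U) (r : ℝ) : ℝ≥0∞ :=
  if r ≤ 1 ∧ r⁻¹ • u ∈ B then 1 else 0

theorem measurable_Phi {B : Set U} (hB : MeasurableSet B) :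
    Measurable (fun p : U × ℝ => Phi B p.1 p.2) := by
  have h1 : Measurable (fun p : U × ℝ => p.2⁻¹ • p.1) :=
    (measurable_snd.inv).smul measurable_fst
  have h2 : MeasurableSet {p : U × ℝ | p.2 ≤ 1 ∧ p.2⁻¹ • p.1 ∈ B} :=
    (measurableSet_le measurable_snd measurable_const).inter (h1 hB)
  exact Measurable.ite h2 measurable_const measurable_const

theorem cone_le {B : Set U} (hB : MeasurableSet B) (hk : 2 ≤ finrank ℝ W) :
    volume {p : U × W | 0 < ‖p.1‖ ^ 2 + ‖p.2‖ ^ 2 ∧ ‖p.1‖ ^ 2 + ‖p.2‖ ^ 2 ≤ 1 ∧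
        (√(‖p.1‖ ^ 2 + ‖p.2‖ ^ 2))⁻¹ • p.1 ∈ B} ≤
      (finrank ℝ W * volume (ball (0 : W) 1)) *
        (ENNReal.ofReal (1 / ((finrank ℝ U : ℝ) + finrank ℝ W)) * volume (B ∩ ball 0 1)) := by
  have : Nontrivial W := Module.nontrivial_of_finrank_pos (R := ℝ) (by omega)
  set k := finrank ℝ W with hkdef
  set m := finrank ℝ U with hmdef
  set S : Set (U × W) := {p : U × W | 0 < ‖p.1‖ ^ 2 + ‖p.2‖ ^ 2 ∧ ‖p.1‖ ^ 2 + ‖p.2‖ ^ 2 ≤ 1 ∧
        (√(‖p.1‖ ^ 2 + ‖p.2‖ ^ 2))⁻¹ • p.1 ∈ B} with hS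
  have hg : Measurable (fun p : U × W => (√(‖p.1‖ ^ 2 + ‖p.2‖ ^ 2))) := by fun_prop
  have hSm : MeasurableSet S := by
    have h1 : Measurable (fun p : U × W => (√(‖p.1‖ ^ 2 + ‖p.2‖ ^ 2))⁻¹ • p.1) :=
      hg.inv.smul measurable_fst
    have h2 : Measurable (fun p : U × W => ‖p.1‖ ^ 2 + ‖p.2‖ ^ 2) := by fun_prop
    exact (measurableSet_lt measurable_const h2).inter
      ((measurableSet_le h2 measurable_const).inter (h1 hB))
  have hPm := measurable_Phi hB
  have step1 : volume S ≤ ∫⁻ u : U, ∫⁻ w : W, Phi B u (√(‖u‖ ^ 2 + ‖w‖ ^ 2)) := by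
    rw [← lintegral_indicator_one hSm, Measure.volume_eq_prod,
      lintegral_prod _ (by exact (measurable_one.indicator hSm).aemeasurable)]
    refine lintegral_mono fun u => lintegral_mono fun w => ?_
    by_cases h : (u, w) ∈ S
    · rw [indicator_of_mem h]
      obtain ⟨-, h2, h3⟩ := h
      unfold Phi
      rw [if_pos ⟨by rw [Real.sqrt_le_one]; exact h2, h3⟩]
      exact le_rfl
    · rw [indicator_of_notMem h]
      exact zero_le
  have step2 : ∀ u : U, ∫⁻ w : W, Phi B u (√(‖u‖ ^ 2 + ‖w‖ ^ 2)) ≤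
      (k * volume (ball (0 : W) 1)) *
        ∫⁻ r in Ioi ‖u‖, ENNReal.ofReal (r ^ (k - 1)) * Phi B u r := by
    intro u
    have hmeas : Measurable (fun ρ : ℝ => Phi B u (√(‖u‖ ^ 2 + ρ ^ 2))) := by
      have : Measurable (fun ρ : ℝ => ((u, √(‖u‖ ^ 2 + ρ ^ 2)) : U × ℝ)) := by fun_prop
      exact hPm.comp this
    have h1 := lintegral_norm (E := W) (fun ρ : ℝ => Phi B u (√(‖u‖ ^ 2 + ρ ^ 2))) hmeas
    rw [h1]
    exact mul_le_mul' le_rfl (subst_le hk (norm_nonneg u) (fun r => Phi B u r))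
  have step3 : ∫⁻ u : U, ∫⁻ r in Ioi ‖u‖, ENNReal.ofReal (r ^ (k - 1)) * Phi B u r =
      ∫⁻ r in Ioi (0 : ℝ), ENNReal.ofReal (r ^ (k - 1)) *
        ∫⁻ u : U, (ball (0 : U) r).indicator (fun u => Phi B u r) u := by
    have h1 : ∀ u : U, ∫⁻ r in Ioi ‖u‖, ENNReal.ofReal (r ^ (k - 1)) * Phi B u r =
        ∫⁻ r in Ioi (0 : ℝ), ENNReal.ofReal (r ^ (k - 1)) *
          (ball (0 : U) r).indicator (fun u => Phi B u r) u := by
      intro u
      rw [← lintegral_indicator measurableSet_Ioi, ← lintegral_indicator measurableSet_Ioi]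
      refine lintegral_congr fun r => ?_
      by_cases h : ‖u‖ < r
      · have h0 : (0 : ℝ) < r := lt_of_le_of_lt (norm_nonneg u) h
        have hb : u ∈ ball (0 : U) r := by simpa using h
        rw [indicator_of_mem (show r ∈ Ioi ‖u‖ from h),
          indicator_of_mem (show r ∈ Ioi (0 : ℝ) from h0), indicator_of_mem hb]
      · have hb : u ∉ ball (0 : U) r := by simpa using h
        rw [indicator_of_notMem (show r ∉ Ioi ‖u‖ from h)]
        by_cases h0 : r ∈ Ioi (0 : ℝ)
        · rw [indicator_of_mem h0, indicator_of_notMem hb, mul_zero]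
        · rw [indicator_of_notMem h0]
    simp_rw [h1]
    rw [lintegral_lintegral_swap]
    · refine lintegral_congr fun r => ?_
      rw [lintegral_const_mul']
      exact ENNReal.ofReal_ne_top
    · have hs : MeasurableSet {p : U × ℝ | ‖p.1‖ < p.2} :=
        measurableSet_lt (by fun_prop) measurable_snd
      have h2 : Measurable (fun p : U × ℝ => ENNReal.ofReal (p.2 ^ (k - 1)) *
          ({p : U × ℝ | ‖p.1‖ < p.2}.indicator (fun p => Phi B p.1 p.2) p)) := by
        apply Measurable.mul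
        · fun_prop
        · exact hPm.indicator hs
      refine Measurable.aemeasurable ?_
      have h5 : (Function.uncurry fun (u : U) (r : ℝ) => ENNReal.ofReal (r ^ (k - 1)) *
          (ball (0 : U) r).indicator (fun u => Phi B u r) u) =
          (fun p : U × ℝ => ENNReal.ofReal (p.2 ^ (k - 1)) *
          ({p : U × ℝ | ‖p.1‖ < p.2}.indicator (fun p => Phi B p.1 p.2) p)) := ?_
      · rw [h5]
        exact h2
      funext p
      obtain ⟨u, r⟩ := p
      simp only [Function.uncurry_apply_pair]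
      congr 1
      by_cases h : ‖u‖ < r
      · rw [indicator_of_mem (show (u, r) ∈ {p : U × ℝ | ‖p.1‖ < p.2} from h),
          indicator_of_mem (show u ∈ ball (0 : U) r by simpa using h)]
      · rw [indicator_of_notMem (show (u, r) ∉ {p : U × ℝ | ‖p.1‖ < p.2} from h),
          indicator_of_notMem (show u ∉ ball (0 : U) r by simpa using h)]
  have step4 : ∀ r ∈ Ioi (0 : ℝ), ∫⁻ u : U, (ball (0 : U) r).indicator (fun u => Phi B u r) u ≤
      (Iic (1 : ℝ)).indicator (fun r => ENNReal.ofReal (r ^ m) * volume (B ∩ ball 0 1)) r := by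
    intro r hr
    have h0 : (0 : ℝ) < r := hr
    by_cases h1 : r ≤ 1
    · rw [indicator_of_mem (show r ∈ Iic (1 : ℝ) from h1)]
      have h2 : volume (r • (B ∩ ball (0 : U) 1)) =
          ENNReal.ofReal (r ^ m) * volume (B ∩ ball 0 1) := by
        rw [Measure.addHaar_smul, abs_of_nonneg (by positivity)]
      rw [← h2]
      have h3 : MeasurableSet (r • (B ∩ ball (0 : U) 1)) :=
        (hB.inter measurableSet_ball).const_smul₀ r
      rw [← lintegral_indicator_one h3]
      refine lintegral_mono fun u => ?_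
      by_cases hb : u ∈ ball (0 : U) r
      · rw [indicator_of_mem hb]
        unfold Phi
        split_ifs with h4
        · have h5 : u ∈ r • (B ∩ ball (0 : U) 1) := by
            refine ⟨r⁻¹ • u, ⟨h4.2, ?_⟩, ?_⟩
            · rw [mem_ball_zero_iff, norm_smul, norm_inv, Real.norm_of_nonneg h0.le]
              rw [mem_ball_zero_iff] at hb
              rw [inv_mul_lt_iff₀ h0]
              linarith
            · simp only
              rw [smul_inv_smul₀ h0.ne']
          rw [indicator_of_mem h5]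
          exact le_rfl
        · exact zero_le
      · rw [indicator_of_notMem hb]
        exact zero_le
    · rw [indicator_of_notMem (show r ∉ Iic (1 : ℝ) from h1)]
      have : ∀ u : U, (ball (0 : U) r).indicator (fun u => Phi B u r) u = 0 := by
        intro u
        have h2 : Phi B u r = 0 := by
          unfold Phi
          rw [if_neg (fun h => h1 h.1)]
        by_cases hb : u ∈ ball (0 : U) r
        · rw [indicator_of_mem hb, h2]
        · rw [indicator_of_notMem hb]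
      simp [this]
  have step5 : ∫⁻ r in Ioi (0 : ℝ), ENNReal.ofReal (r ^ (k - 1)) *
        ∫⁻ u : U, (ball (0 : U) r).indicator (fun u => Phi B u r) u ≤
      ENNReal.ofReal (1 / ((m : ℝ) + k)) * volume (B ∩ ball 0 1) := by
    have h1 : ∫⁻ r in Ioi (0 : ℝ), ENNReal.ofReal (r ^ (k - 1)) *
        ∫⁻ u : U, (ball (0 : U) r).indicator (fun u => Phi B u r) u ≤
        ∫⁻ r in Ioi (0 : ℝ), (Iic (1 : ℝ)).indicator (fun r => ENNReal.ofReal (r ^ (m + k - 1)) *
          volume (B ∩ ball 0 1)) r := by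
      refine setLIntegral_mono' measurableSet_Ioi fun r hr => ?_
      have h0 : (0 : ℝ) < r := hr
      refine (mul_le_mul' le_rfl (step4 r hr)).trans ?_
      by_cases h1 : r ≤ 1
      · rw [indicator_of_mem (show r ∈ Iic (1 : ℝ) from h1),
          indicator_of_mem (show r ∈ Iic (1 : ℝ) from h1), ← mul_assoc,
          ← ENNReal.ofReal_mul (by positivity), ← pow_add]
        have : k - 1 + m = m + k - 1 := by omega
        rw [this]
      · rw [indicator_of_notMem (show r ∉ Iic (1 : ℝ) from h1), mul_zero]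
        exact zero_le
    refine h1.trans ?_
    rw [setLIntegral_indicator measurableSet_Iic, lintegral_mul_const'' _ (by fun_prop)]
    refine mul_le_mul' ?_ le_rfl
    have h2 : Iic (1 : ℝ) ∩ Ioi 0 = Ioc 0 1 := by
      ext x
      simp only [mem_inter_iff, mem_Iic, mem_Ioi, mem_Ioc]
      tauto
    rw [h2, ← ofReal_integral_eq_lintegral_ofReal]
    · rw [← intervalIntegral.integral_of_le zero_le_one, integral_pow]
      apply ENNReal.ofReal_le_ofReal
      have h3 : ((m + k - 1 : ℕ) : ℝ) + 1 = (m : ℝ) + k := by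
        have : m + k - 1 + 1 = m + k := by omega
        exact_mod_cast this
      rw [h3, one_pow, zero_pow (by omega), sub_zero]
    · exact (continuous_pow _).integrableOn_Ioc
    · filter_upwards [ae_restrict_mem measurableSet_Ioc] with x hx
      exact pow_nonneg hx.1.le _
  calc volume S ≤ ∫⁻ u : U, ∫⁻ w : W, Phi B u (√(‖u‖ ^ 2 + ‖w‖ ^ 2)) := step1
    _ ≤ ∫⁻ u : U, (k * volume (ball (0 : W) 1)) *
        ∫⁻ r in Ioi ‖u‖, ENNReal.ofReal (r ^ (k - 1)) * Phi B u r := lintegral_mono step2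
    _ = (k * volume (ball (0 : W) 1)) *
        ∫⁻ u : U, ∫⁻ r in Ioi ‖u‖, ENNReal.ofReal (r ^ (k - 1)) * Phi B u r := by
        rw [lintegral_const_mul']
        exact ENNReal.mul_ne_top (ENNReal.natCast_ne_top k) measure_ball_lt_top.ne
    _ ≤ _ := by
        rw [step3]
        exact mul_le_mul' le_rfl step5

end fubini

end Pool.Agent.H52R3.Cyl
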