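import Pool.Agent.H52R3.Cyl9

set_option autoImplicit false
set_option linter.unusedSectionVars false

/-!
# The quaternionic spread
-/

namespace Pool.Agent.H52R3.Cyl

open MeasureTheory Set Metric Module
open scoped ENNReal Real InnerProductSpace

/-- a quaternionic structure by skew linear maps -/
structure Quat (V : Type*) [NormedAddCommGroup V] [InnerProductSpace ℝ V] where
  /-- the operator `I` -/
  I : V →ₗ[ℝ] V
  /-- the operator `J` -/
  J : V →ₗ[ℝ] V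
  II : ∀ x, I (I x) = -x
  JJ : ∀ x, J (J x) = -x
  JI : ∀ x, J (I x) = -I (J x)
  skewI : ∀ x y, ⟪I x, y⟫_ℝ = -⟪x, I y⟫_ℝ
  skewJ : ∀ x y, ⟪J x, y⟫_ℝ = -⟪x, J y⟫_ℝ

namespace Quat

variable {V : Type*} [NormedAddCommGroup V] [InnerProductSpace ℝ V]
    [FiniteDimensional ℝ V] (Q : Quat V)

/-- the product `I J` -/
def K : V →ₗ[ℝ] V := Q.I ∘ₗ Q.J

theorem K_apply (x : V) : Q.K x = Q.I (Q.J x) := rfl

theorem skewK (x y : V) : ⟪Q.K x, y⟫_ℝ = -⟪x, Q.K y⟫_ℝ := by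
  rw [K_apply, K_apply, Q.skewI, Q.skewJ, Q.JI, inner_neg_right, neg_neg]

theorem inner_self_I (x : V) : ⟪x, Q.I x⟫_ℝ = 0 := by
  have h := Q.skewI x x
  rw [real_inner_comm] at h
  linarith

theorem inner_self_J (x : V) : ⟪x, Q.J x⟫_ℝ = 0 := by
  have h := Q.skewJ x x
  rw [real_inner_comm] at h
  linarith

theorem inner_self_K (x : V) : ⟪x, Q.K x⟫_ℝ = 0 := by
  have h := Q.skewK x x
  rw [real_inner_comm] at h
  linarith

theorem inner_I_I (x : V) : ⟪Q.I x, Q.I x⟫_ℝ = ⟪x, x⟫_ℝ := by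
  rw [Q.skewI, Q.II, inner_neg_right, neg_neg]

theorem inner_J_J (x : V) : ⟪Q.J x, Q.J x⟫_ℝ = ⟪x, x⟫_ℝ := by
  rw [Q.skewJ, Q.JJ, inner_neg_right, neg_neg]

theorem inner_K_K (x : V) : ⟪Q.K x, Q.K x⟫_ℝ = ⟪x, x⟫_ℝ := by
  rw [K_apply, inner_I_I, inner_J_J]

theorem inner_I_J (x : V) : ⟪Q.I x, Q.J x⟫_ℝ = 0 := by
  rw [Q.skewI, ← K_apply, inner_self_K, neg_zero]

theorem inner_I_K (x : V) : ⟪Q.I x, Q.K x⟫_ℝ = 0 := by
  rw [Q.skewI, K_apply, Q.II, inner_neg_right, neg_neg, inner_self_J]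

theorem inner_J_K (x : V) : ⟪Q.J x, Q.K x⟫_ℝ = 0 := by
  rw [Q.skewJ, K_apply, Q.JI, Q.JJ, map_neg, neg_neg, inner_self_I, neg_zero]

theorem norm_I (x : V) : ‖Q.I x‖ = ‖x‖ := by
  have h := Q.inner_I_I x
  rw [real_inner_self_eq_norm_sq, real_inner_self_eq_norm_sq] at h
  exact (pow_left_inj₀ (norm_nonneg _) (norm_nonneg _) two_ne_zero).mp h

theorem norm_J (x : V) : ‖Q.J x‖ = ‖x‖ := by
  have h := Q.inner_J_J x
  rw [real_inner_self_eq_norm_sq, real_inner_self_eq_norm_sq] at h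
  exact (pow_left_inj₀ (norm_nonneg _) (norm_nonneg _) two_ne_zero).mp h

theorem norm_K (x : V) : ‖Q.K x‖ = ‖x‖ := by
  rw [K_apply, norm_I, norm_J]

/-- the four vectors `x, Ix, Jx, Kx` -/
def v (x : V) : Fin 4 → V := ![x, Q.I x, Q.J x, Q.K x]

theorem inner_v (x : V) (i j : Fin 4) : ⟪Q.v x i, Q.v x j⟫_ℝ = if i = j then ⟪x, x⟫_ℝ else 0 := by
  fin_cases i <;> fin_cases j <;>
    simp [v, inner_self_I, inner_self_J, inner_self_K, norm_I, norm_J, norm_K,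
      inner_I_J, inner_I_K, inner_J_K, real_inner_comm]

/-- the quaternionic line of `x` -/
def L (x : V) : Submodule ℝ V := Submodule.span ℝ (Set.range (Q.v x))

theorem finrank_L (x : V) (hx : x ≠ 0) : finrank ℝ (Q.L x) = 4 := by
  have h1 : LinearIndependent ℝ (Q.v x) := by
    refine linearIndependent_of_ne_zero_of_inner_eq_zero (𝕜 := ℝ) ?_ ?_
    · intro i h
      have h2 := Q.inner_v x i i
      rw [h, inner_zero_left, if_pos rfl] at h2
      exact hx (inner_self_eq_zero.mp h2.symm)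
    · intro i j hij
      rw [Q.inner_v, if_neg hij]
  rw [L, finrank_span_eq_card h1, Fintype.card_fin]

theorem v_mem (x : V) (i : Fin 4) : Q.v x i ∈ Q.L x := Submodule.subset_span ⟨i, rfl⟩

theorem self_mem (x : V) : x ∈ Q.L x := Q.v_mem x 0

theorem I_mem {x y : V} (hy : y ∈ Q.L x) : Q.I y ∈ Q.L x := by
  have h : Submodule.map Q.I (Q.L x) ≤ Q.L x := by
    rw [L, Submodule.map_span_le]
    rintro _ ⟨i, rfl⟩
    fin_cases i
    · exact Q.v_mem x 1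
    · change Q.I (Q.I x) ∈ Q.L x
      rw [Q.II]
      exact (Q.L x).neg_mem (Q.v_mem x 0)
    · exact Q.v_mem x 3
    · change Q.I (Q.I (Q.J x)) ∈ Q.L x
      rw [Q.II]
      exact (Q.L x).neg_mem (Q.v_mem x 2)
  exact h ⟨y, hy, rfl⟩

theorem J_mem {x y : V} (hy : y ∈ Q.L x) : Q.J y ∈ Q.L x := by
  have h : Submodule.map Q.J (Q.L x) ≤ Q.L x := by
    rw [L, Submodule.map_span_le]
    rintro _ ⟨i, rfl⟩
    fin_cases i
    · exact Q.v_mem x 2
    · change Q.J (Q.I x) ∈ Q.L x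
      rw [Q.JI]
      exact (Q.L x).neg_mem (Q.v_mem x 3)
    · change Q.J (Q.J x) ∈ Q.L x
      rw [Q.JJ]
      exact (Q.L x).neg_mem (Q.v_mem x 0)
    · change Q.J (Q.I (Q.J x)) ∈ Q.L x
      rw [Q.JI, Q.JJ, map_neg, neg_neg]
      exact Q.v_mem x 1
  exact h ⟨y, hy, rfl⟩

theorem L_eq_of_mem (x y : V) (hy : y ∈ Q.L x) (hy0 : y ≠ 0) : Q.L y = Q.L x := by
  have hx : x ≠ 0 := by
    rintro rfl
    have : Q.L (0 : V) = ⊥ := by
      rw [L, Submodule.span_eq_bot]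
      rintro _ ⟨i, rfl⟩
      fin_cases i <;> simp [v]
    rw [this] at hy
    exact hy0 ((Submodule.mem_bot ℝ).mp hy)
  refine Submodule.eq_of_le_of_finrank_eq ?_ ?_
  · rw [L, Submodule.span_le]
    rintro _ ⟨i, rfl⟩
    fin_cases i
    · exact hy
    · exact Q.I_mem hy
    · exact Q.J_mem hy
    · exact Q.I_mem (Q.J_mem hy)
  · rw [Q.finrank_L x hx, Q.finrank_L y hy0]

theorem norm_proj (x y : V) (hx : x ≠ 0) :
    ‖x‖ ^ 2 * ‖(Q.L x)ᗮ.orthogonalProjectionOnto y‖ ^ 2 = ‖x‖ ^ 2 * ‖y‖ ^ 2 -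
      (⟪x, y⟫_ℝ ^ 2 + ⟪Q.I x, y⟫_ℝ ^ 2 + ⟪Q.J x, y⟫_ℝ ^ 2 + ⟪Q.K x, y⟫_ℝ ^ 2) := by
  have hxx : ⟪x, x⟫_ℝ = ‖x‖ ^ 2 := real_inner_self_eq_norm_sq x
  have hxn : 0 < ‖x‖ := norm_pos_iff.mpr hx
  set w : V := (‖x‖ ^ 2)⁻¹ • ∑ i, ⟪Q.v x i, y⟫_ℝ • Q.v x i with hw
  have hwL : w ∈ Q.L x := by
    refine (Q.L x).smul_mem _ (Submodule.sum_mem _ fun i _ => (Q.L x).smul_mem _ (Q.v_mem x i))
  have hin : ∀ j, ⟪Q.v x j, w⟫_ℝ = ⟪Q.v x j, y⟫_ℝ := by
    intro j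
    rw [hw, inner_smul_right, inner_sum]
    simp_rw [inner_smul_right, Q.inner_v, hxx]
    rw [Finset.sum_eq_single j]
    · rw [if_pos rfl]
      field_simp
    · intro i _ hij
      rw [if_neg (Ne.symm hij), mul_zero]
    · intro h
      exact absurd (Finset.mem_univ j) h
  have horth : y - w ∈ (Q.L x)ᗮ := by
    rw [Submodule.mem_orthogonal]
    intro u hu
    have this : u ∈ Submodule.span ℝ (Set.range (Q.v x)) := hu
    clear hu
    induction this using Submodule.span_induction with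
    | mem a ha =>
      obtain ⟨j, rfl⟩ := ha
      rw [inner_sub_right, hin, sub_self]
    | zero => rw [inner_zero_left]
    | add a b ha hb iha ihb => rw [inner_add_left, iha, ihb, add_zero]
    | smul c a ha iha => rw [real_inner_smul_left, iha, mul_zero]
  have hproj : ((Q.L x)ᗮ.orthogonalProjectionOnto y : V) = y - w := by
    have h1 : (Q.L x)ᗮ.orthogonalProjectionOnto y =
        (Q.L x)ᗮ.orthogonalProjectionOnto (y - w) + (Q.L x)ᗮ.orthogonalProjectionOnto w := by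
      rw [← map_add, sub_add_cancel]
    rw [h1, proj_zero_of_mem _ hwL, add_zero]
    have h2 := Submodule.orthogonalProjectionOnto_mem_subspace_eq_self (K := (Q.L x)ᗮ)
      (⟨y - w, horth⟩ : (Q.L x)ᗮ)
    exact congrArg Subtype.val h2
  have hnorm : ‖(Q.L x)ᗮ.orthogonalProjectionOnto y‖ ^ 2 = ‖y - w‖ ^ 2 := by
    rw [← hproj]
    rfl
  have hyw : ⟪y - w, w⟫_ℝ = 0 := by
    rw [real_inner_comm]
    exact (Submodule.mem_orthogonal _ _).mp horth w hwL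
  have hpyth : ‖y - w‖ ^ 2 = ‖y‖ ^ 2 - ⟪y, w⟫_ℝ := by
    rw [← real_inner_self_eq_norm_sq, ← real_inner_self_eq_norm_sq y, inner_sub_right, hyw,
      inner_sub_left, real_inner_comm y w]
    ring
  have hyw2 : ⟪y, w⟫_ℝ = (‖x‖ ^ 2)⁻¹ * (⟪x, y⟫_ℝ ^ 2 + ⟪Q.I x, y⟫_ℝ ^ 2 + ⟪Q.J x, y⟫_ℝ ^ 2 +
      ⟪Q.K x, y⟫_ℝ ^ 2) := by
    rw [hw, inner_smul_right, inner_sum, Fin.sum_univ_four]
    simp only [v, Matrix.cons_val_zero, Matrix.cons_val_one, Matrix.cons_val, inner_smul_right]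
    rw [real_inner_comm x y, real_inner_comm (Q.I x) y, real_inner_comm (Q.J x) y,
      real_inner_comm (Q.K x) y]
    ring
  rw [hnorm, hpyth, hyw2]
  field_simp

/-- the quaternionic lines form a spread -/
def spread : Spread V 4 where
  L := Q.L
  dim := Q.finrank_L
  self_mem := Q.self_mem
  eq_of_mem := Q.L_eq_of_mem
  symm := by
    intro x y hx hy
    have h1 := Q.norm_proj x y hx
    have h2 := Q.norm_proj y x hy
    have h3 : (‖x‖ * ‖(Q.L x)ᗮ.orthogonalProjectionOnto y‖) ^ 2 =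
        (‖y‖ * ‖(Q.L y)ᗮ.orthogonalProjectionOnto x‖) ^ 2 := by
      rw [mul_pow, mul_pow, h1, h2, real_inner_comm x y, Q.skewI y x, Q.skewJ y x, Q.skewK y x,
        real_inner_comm (Q.I x) y, real_inner_comm (Q.J x) y, real_inner_comm (Q.K x) y]
      ring
    exact (pow_left_inj₀ (by positivity) (by positivity) two_ne_zero).mp h3

end Quat

end Pool.Agent.H52R3.Cyl
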