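import Pool.Agent.H52R3.Cyl10

set_option autoImplicit false
set_option linter.unusedSectionVars false

/-!
# The quaternionic structure on `ℝ^{4n}` and the value of `c(4n,4)`
-/

namespace Pool.Agent.H52R3.Cyl

open MeasureTheory Set Metric Module
open scoped ENNReal Real InnerProductSpace

/-- transfer of a quaternionic structure along a linear isometry -/
noncomputable def Quat.transfer {V W : Type*} [NormedAddCommGroup V] [InnerProductSpace ℝ V]
    [NormedAddCommGroup W] [InnerProductSpace ℝ W] (e : V ≃ₗᵢ[ℝ] W) (Q : Quat W) : Quat V where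
  I := e.symm.toLinearEquiv.toLinearMap ∘ₗ Q.I ∘ₗ e.toLinearEquiv.toLinearMap
  J := e.symm.toLinearEquiv.toLinearMap ∘ₗ Q.J ∘ₗ e.toLinearEquiv.toLinearMap
  II x := by
    simp [Q.II]
  JJ x := by
    simp [Q.JJ]
  JI x := by
    simp [Q.JI]
  skewI x y := by
    have h1 : ∀ a b : V, ⟪e a, e b⟫_ℝ = ⟪a, b⟫_ℝ := fun a b => e.inner_map_map a b
    rw [← h1, ← h1 x]
    simp [Q.skewI]
  skewJ x y := by
    have h1 : ∀ a b : V, ⟪e a, e b⟫_ℝ = ⟪a, b⟫_ℝ := fun a b => e.inner_map_map a b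
    rw [← h1, ← h1 x]
    simp [Q.skewJ]

/-- the standard quaternionic structure on `(ℝ^4)^n` -/
noncomputable def stdQuat (n : ℕ) : Quat (EuclideanSpace ℝ (Fin n × Fin 4)) where
  I :=
    { toFun := fun x => WithLp.toLp 2 fun p =>
        (![-x (p.1, 1), x (p.1, 0), -x (p.1, 3), x (p.1, 2)] : Fin 4 → ℝ) p.2
      map_add' := by
        intro x y
        ext ⟨i, j⟩
        fin_cases j <;> simp <;> ring
      map_smul' := by
        intro c x
        ext ⟨i, j⟩
        fin_cases j <;> simp }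
  J :=
    { toFun := fun x => WithLp.toLp 2 fun p =>
        (![-x (p.1, 2), x (p.1, 3), x (p.1, 0), -x (p.1, 1)] : Fin 4 → ℝ) p.2
      map_add' := by
        intro x y
        ext ⟨i, j⟩
        fin_cases j <;> simp <;> ring
      map_smul' := by
        intro c x
        ext ⟨i, j⟩
        fin_cases j <;> simp }
  II x := by
    ext ⟨i, j⟩
    fin_cases j <;> simp
  JJ x := by
    ext ⟨i, j⟩
    fin_cases j <;> simp
  JI x := by
    ext ⟨i, j⟩
    fin_cases j <;> simp
  skewI x y := by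
    rw [PiLp.inner_apply, PiLp.inner_apply, Fintype.sum_prod_type, Fintype.sum_prod_type,
      ← Finset.sum_neg_distrib]
    refine Finset.sum_congr rfl fun i _ => ?_
    rw [Fin.sum_univ_four, Fin.sum_univ_four]
    simp
    ring
  skewJ x y := by
    rw [PiLp.inner_apply, PiLp.inner_apply, Fintype.sum_prod_type, Fintype.sum_prod_type,
      ← Finset.sum_neg_distrib]
    refine Finset.sum_congr rfl fun i _ => ?_
    rw [Fin.sum_univ_four, Fin.sum_univ_four]
    simp
    ring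

/-- the quaternionic structure on `ℝ^{4n}` -/
noncomputable def quat (n : ℕ) : Quat (EuclideanSpace ℝ (Fin (4 * n))) :=
  Quat.transfer (LinearIsometryEquiv.piLpCongrLeft 2 ℝ ℝ
    (Fintype.equivOfCardEq (by simp [mul_comm]) : Fin (4 * n) ≃ Fin n × Fin 4)) (stdQuat n)

theorem kap_div_aa {d k : ℕ} (hk : 0 < k) (hkd : k < d) :
    kap d / aa d k = Real.Gamma ((k : ℝ) / 2) * Real.Gamma (((d : ℝ) - k) / 2 + 1) /
      Real.Gamma ((d : ℝ) / 2) := by
  have hdR : (0 : ℝ) < d := by exact_mod_cast (hk.trans hkd)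
  have hkR : (0 : ℝ) < k := by exact_mod_cast hk
  have hGd : 0 < Real.Gamma ((d : ℝ) / 2) := Real.Gamma_pos_of_pos (by positivity)
  have hGk : 0 < Real.Gamma ((k : ℝ) / 2) := Real.Gamma_pos_of_pos (by positivity)
  have hdk : (0 : ℝ) < ((d : ℝ) - k) / 2 + 1 := by
    have : (k : ℝ) < d := by exact_mod_cast hkd
    linarith
  have hG : 0 < Real.Gamma (((d : ℝ) - k) / 2 + 1) := Real.Gamma_pos_of_pos hdk
  have hGd1 : Real.Gamma ((d : ℝ) / 2 + 1) = (d : ℝ) / 2 * Real.Gamma ((d : ℝ) / 2) :=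
    Real.Gamma_add_one (by positivity)
  have hGk1 : Real.Gamma ((k : ℝ) / 2 + 1) = (k : ℝ) / 2 * Real.Gamma ((k : ℝ) / 2) :=
    Real.Gamma_add_one (by positivity)
  have hpi : 0 < √π := Real.sqrt_pos.mpr Real.pi_pos
  have hpow : √π ^ d = √π ^ k * √π ^ (d - k) := by
    rw [← pow_add]
    congr 1
    omega
  unfold aa kap
  rw [hGd1, hGk1, Nat.cast_sub hkd.le, hpow]
  field_simp

open Pool.Agent.H52R3.CylDef in
theorem isGreatest_four (n : ℕ) (hn : 2 ≤ n) :
    IsGreatest (Good (EuclideanSpace ℝ (Fin (4 * n))) 4) (1 / (2 * (n : ℝ) - 1)) := by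
  have hfr : finrank ℝ (EuclideanSpace ℝ (Fin (4 * n))) = 4 * n := finrank_euclideanSpace_fin
  have hnR : (2 : ℝ) ≤ n := by exact_mod_cast hn
  have hval : Real.Gamma (((4 : ℕ) : ℝ) / 2) * Real.Gamma ((((4 * n : ℕ) : ℝ) - (4 : ℕ)) / 2 + 1) /
      Real.Gamma (((4 * n : ℕ) : ℝ) / 2) = 1 / (2 * (n : ℝ) - 1) := by
    have h1 : Real.Gamma (((4 : ℕ) : ℝ) / 2) = 1 := by
      have : ((4 : ℕ) : ℝ) / 2 = 2 := by norm_num
      rw [this, Real.Gamma_two]
    have h2 : (((4 * n : ℕ) : ℝ) - (4 : ℕ)) / 2 + 1 = 2 * (n : ℝ) - 1 := by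
      push_cast
      ring
    have h3 : ((4 * n : ℕ) : ℝ) / 2 = (2 * (n : ℝ) - 1) + 1 := by
      push_cast
      ring
    have h4 : 0 < 2 * (n : ℝ) - 1 := by linarith
    have h5 : 0 < Real.Gamma (2 * (n : ℝ) - 1) := Real.Gamma_pos_of_pos h4
    rw [h1, h2, h3, Real.Gamma_add_one h4.ne', one_mul]
    field_simp
  constructor
  · have h := gamma_mem_good (V := EuclideanSpace ℝ (Fin (4 * n))) (k := 4) (by norm_num)
      (by rw [hfr]; omega)
    rw [hfr, hval] at h
    exact h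
  · intro c hc
    have h := (quat n).spread.good_le (by norm_num) (by rw [hfr]; omega) hc
    rw [kap_div_aa (by norm_num) (by rw [hfr]; omega), hfr, hval] at h
    exact h

end Pool.Agent.H52R3.Cyl
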