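import Pool.Agent.H52R3.Cyl11

set_option autoImplicit false
set_option linter.unusedSectionVars false

/-!
# Squeezed balls, and cylinders over a subspace carrying a spread
-/

namespace Pool.Agent.H52R3.Cyl

open MeasureTheory Set Metric Module Filter Topology
open scoped ENNReal Real Pointwise

section squeeze

variable {F : Type*} [NormedAddCommGroup F] [InnerProductSpace ℝ F] [FiniteDimensional ℝ F]
  [MeasurableSpace F] [BorelSpace F]

/-- the unit ball squeezed by the factor `s` in the directions of `U` -/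
def squeezed (U : Submodule ℝ F) (s : ℝ) : Set F :=
  {b : F | ‖U.orthogonalProjectionOnto b‖ ^ 2 ≤
    s ^ 2 * (1 - ‖Uᗮ.orthogonalProjectionOnto b‖ ^ 2)}

theorem isClosed_squeezed (U : Submodule ℝ F) (s : ℝ) : IsClosed (squeezed U s) := by
  unfold squeezed
  refine isClosed_le ?_ ?_ <;> fun_prop

theorem volume_squeezed (U : Submodule ℝ F) {s : ℝ} (hs : 0 < s) :
    volume (squeezed U s) = ENNReal.ofReal (s ^ (finrank ℝ U)) * volume (closedBall (0 : F) 1) := by
  have key : ∀ s : ℝ, 0 < s → volume (squeezed U s) = ENNReal.ofReal (s ^ (finrank ℝ U)) *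
      ∫⁻ z : Uᗮ, volume {u : U | ‖u‖ ^ 2 ≤ 1 - ‖z‖ ^ 2} := by
    intro s hs
    have hSm : MeasurableSet {p : Uᗮ × U | ‖p.2‖ ^ 2 ≤ s ^ 2 * (1 - ‖p.1‖ ^ 2)} := by
      refine (isClosed_le ?_ ?_).measurableSet <;> fun_prop
    have h1 : squeezed U s = (fun x : F =>
      ((Uᗮ.orthogonalProjectionOnto x, U.orthogonalProjectionOnto x) : Uᗮ × U)) ⁻¹'
        {p : Uᗮ × U | ‖p.2‖ ^ 2 ≤ s ^ 2 * (1 - ‖p.1‖ ^ 2)} := rfl
    rw [h1, (measurePreserving_split U).measure_preimage hSm.nullMeasurableSet,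
      Measure.volume_eq_prod, Measure.prod_apply hSm, ← lintegral_const_mul']
    · refine lintegral_congr fun z => ?_
      have h2 : Prod.mk z ⁻¹' {p : Uᗮ × U | ‖p.2‖ ^ 2 ≤ s ^ 2 * (1 - ‖p.1‖ ^ 2)} =
          s • {u : U | ‖u‖ ^ 2 ≤ 1 - ‖z‖ ^ 2} := by
        ext u
        rw [Set.mem_smul_set_iff_inv_smul_mem₀ hs.ne']
        simp only [mem_preimage, mem_ofPred_eq, norm_smul, norm_inv, Real.norm_of_nonneg hs.le,
          mul_pow, inv_pow]
        rw [inv_mul_le_iff₀ (by positivity)]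
      rw [h2, Measure.addHaar_smul, abs_of_nonneg (by positivity)]
    · exact ENNReal.ofReal_ne_top
  have h1 := key 1 one_pos
  have h2 : squeezed U 1 = closedBall (0 : F) 1 := by
    ext b
    unfold squeezed
    rw [mem_closedBall_zero_iff, mem_ofPred_eq, one_pow, one_mul]
    have h3 := Submodule.norm_sq_eq_add_norm_sq_projection b U
    constructor
    · intro h
      have : ‖b‖ ^ 2 ≤ 1 := by linarith
      exact (sq_le_one_iff₀ (norm_nonneg _)).mp this
    · intro h
      have : ‖b‖ ^ 2 ≤ 1 := (sq_le_one_iff₀ (norm_nonneg _)).mpr h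
      linarith
  rw [one_pow, ENNReal.ofReal_one, one_mul, h2] at h1
  rw [key s hs, h1]

end squeeze

section overM

variable {E : Type*} [NormedAddCommGroup E] [InnerProductSpace ℝ E] [FiniteDimensional ℝ E]
  [MeasurableSpace E] [BorelSpace E]

/-- the direction space `L ⊕ N` of the cylinders, `L ≤ M` and `N ≤ M⊥` -/
def dir (M : Submodule ℝ E) (L : Submodule ℝ M) (N : Submodule ℝ E) : Submodule ℝ E :=
  L.map M.subtype ⊔ N

theorem finrank_dir (M : Submodule ℝ E) (L : Submodule ℝ M) (N : Submodule ℝ E) (hN : N ≤ Mᗮ) :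
    finrank ℝ (dir M L N) = finrank ℝ L + finrank ℝ N := by
  have h1 := Submodule.finrank_sup_add_finrank_inf_eq (L.map M.subtype) N
  have h2 : L.map M.subtype ⊓ N = ⊥ := by
    rw [eq_bot_iff]
    have h3 : L.map M.subtype ≤ M := Submodule.map_subtype_le _ _
    exact (inf_le_inf h3 hN).trans (Submodule.inf_orthogonal_eq_bot M).le
  rw [h2, finrank_bot, add_zero, Submodule.finrank_map_subtype_eq] at h1
  exact h1

/-- the part of `(dir M L N)⊥` inside `M` -/
noncomputable def inner' (M : Submodule ℝ E) (L : Submodule ℝ M) (N : Submodule ℝ E) :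
    Submodule ℝ (dir M L N)ᗮ := M.comap (dir M L N)ᗮ.subtype

theorem mem_dir_orthogonal (M : Submodule ℝ E) (L : Submodule ℝ M) (N : Submodule ℝ E)
    (e : E) : e ∈ (dir M L N)ᗮ ↔ (∀ l ∈ L, inner ℝ (l : E) e = 0) ∧ ∀ n ∈ N, inner ℝ n e = 0 := by
  rw [dir, ← Submodule.inf_orthogonal, Submodule.mem_inf, Submodule.mem_orthogonal,
    Submodule.mem_orthogonal]
  constructor
  · rintro ⟨h1, h2⟩
    exact ⟨fun l hl => h1 _ ⟨l, hl, rfl⟩, h2⟩
  · rintro ⟨h1, h2⟩
    refine ⟨?_, h2⟩
    rintro _ ⟨l, hl, rfl⟩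
    exact h1 l hl

theorem finrank_inner' (M : Submodule ℝ E) (L : Submodule ℝ M) (N : Submodule ℝ E)
    (hN : N ≤ Mᗮ) : finrank ℝ (inner' M L N) = finrank ℝ M - finrank ℝ L := by
  have h1 : (inner' M L N).map (dir M L N)ᗮ.subtype = Lᗮ.map M.subtype := by
    ext e
    constructor
    · rintro ⟨b, hb, rfl⟩
      refine ⟨⟨(b : E), hb⟩, ?_, rfl⟩
      change (⟨(b : E), hb⟩ : M) ∈ Lᗮ
      rw [Submodule.mem_orthogonal]
      intro l hl
      exact ((mem_dir_orthogonal M L N _).mp b.2).1 l hl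
    · rintro ⟨a, ha, rfl⟩
      have h2 : (a : E) ∈ (dir M L N)ᗮ := by
        rw [mem_dir_orthogonal]
        refine ⟨fun l hl => (Submodule.mem_orthogonal _ _).mp ha l hl, fun n hn => ?_⟩
        have h3 := (Submodule.mem_orthogonal _ _).mp (hN hn) (a : E) a.2
        rw [real_inner_comm]
        exact h3
      exact ⟨⟨(a : E), h2⟩, a.2, rfl⟩
  have h2 : finrank ℝ ((inner' M L N).map (dir M L N)ᗮ.subtype) = finrank ℝ (inner' M L N) :=
    Submodule.finrank_map_subtype_eq _ _
  have h3 : finrank ℝ (Lᗮ.map M.subtype) = finrank ℝ Lᗮ := Submodule.finrank_map_subtype_eq _ _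
  have h4 := L.finrank_add_finrank_orthogonal
  rw [← h2, h1, h3]
  omega

theorem norm_proj_inner' (M : Submodule ℝ E) (L : Submodule ℝ M) (N : Submodule ℝ E)
    (hN : N ≤ Mᗮ) (b : (dir M L N)ᗮ) :
    ‖(inner' M L N).orthogonalProjectionOnto b‖ = ‖M.orthogonalProjectionOnto (b : E)‖ := by
  have hb := (mem_dir_orthogonal M L N _).mp b.2
  have horth : ∀ a ∈ M, inner ℝ a ((b : E) - (M.orthogonalProjectionOnto (b : E) : E)) = 0 := by
    intro a ha
    have h1 : (b : E) - (M.orthogonalProjectionOnto (b : E) : E) ∈ Mᗮ :=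
      Submodule.sub_starProjection_mem_orthogonal _
    exact (Submodule.mem_orthogonal _ _).mp h1 a ha
  have hp : (M.orthogonalProjectionOnto (b : E) : E) ∈ (dir M L N)ᗮ := by
    rw [mem_dir_orthogonal]
    constructor
    · intro l hl
      have h1 := horth l l.2
      rw [inner_sub_right, hb.1 l hl, zero_sub, neg_eq_zero] at h1
      exact h1
    · intro n hn
      have h1 := (Submodule.mem_orthogonal _ _).mp (hN hn) _
        (M.orthogonalProjectionOnto (b : E)).2
      rw [real_inner_comm]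
      exact h1
  have h2 : ((inner' M L N).orthogonalProjectionOnto b : (dir M L N)ᗮ) =
      ⟨(M.orthogonalProjectionOnto (b : E) : E), hp⟩ := by
    refine Submodule.eq_starProjection_of_mem_of_inner_eq_zero ?_ ?_
    · exact (M.orthogonalProjectionOnto (b : E)).2
    · intro w hw
      rw [real_inner_comm]
      exact horth _ hw
  have h3 : ‖(inner' M L N).orthogonalProjectionOnto b‖ =
      ‖((inner' M L N).orthogonalProjectionOnto b : (dir M L N)ᗮ)‖ := rfl
  rw [h3, h2]
  rfl

end overM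

end Pool.Agent.H52R3.Cyl
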