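import Pool.Agent.H52R3.Cyl12

set_option autoImplicit false
set_option linter.unusedSectionVars false

/-!
# A spread on a subspace gives an upper bound in the whole space
-/

namespace Pool.Agent.H52R3.Cyl

open MeasureTheory Set Metric Module Filter Topology
open scoped ENNReal Real Pointwise

variable {E : Type*} [NormedAddCommGroup E] [InnerProductSpace ℝ E] [FiniteDimensional ℝ E]
  [MeasurableSpace E] [BorelSpace E]

theorem proj_mem_squeezed (M : Submodule ℝ E) (L : Submodule ℝ M) (N : Submodule ℝ E)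
    (hN : N ≤ Mᗮ) {s : ℝ} (hs : 0 < s) {y : E} (hy : ‖y‖ ≤ 1)
    (hD : ‖Lᗮ.orthogonalProjectionOnto (M.orthogonalProjectionOnto y)‖ ≤
      s * ‖M.orthogonalProjectionOnto y‖) :
    (dir M L N)ᗮ.orthogonalProjectionOnto y ∈ squeezed (inner' M L N) s := by
  set b : (dir M L N)ᗮ := (dir M L N)ᗮ.orthogonalProjectionOnto y with hb
  have hbm := (mem_dir_orthogonal M L N _).mp b.2
  obtain ⟨l', hl', n, hn, hln⟩ := Submodule.mem_sup.mp
    (show ((dir M L N).orthogonalProjectionOnto y : E) ∈ L.map M.subtype ⊔ N from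
      ((dir M L N).orthogonalProjectionOnto y).2)
  obtain ⟨l, hl, rfl⟩ := hl'
  have hyb : y = (l : E) + n + (b : E) := by
    have h1 := (dir M L N).orthogonalDecomposition.symm_apply_apply y
    rw [Submodule.orthogonalDecomposition_apply] at h1
    have h2 : y = ((dir M L N).orthogonalProjectionOnto y : E) + (b : E) := by
      nth_rw 1 [← h1]
      simp [hb]
    have h3 : (M.subtype l : E) + n = (l : E) + n := rfl
    rw [← h3, hln]
    exact h2
  set q : M := M.orthogonalProjectionOnto (b : E) with hq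
  set r : Mᗮ := Mᗮ.orthogonalProjectionOnto (b : E) with hr
  have hnM : M.orthogonalProjectionOnto n = 0 := by
    rw [Submodule.orthogonalProjectionOnto_eq_zero_iff]
    exact hN hn
  have hw : M.orthogonalProjectionOnto y = l + q := by
    rw [hyb, map_add, map_add, hnM, add_zero,
      Submodule.orthogonalProjectionOnto_mem_subspace_eq_self]
  have hbqr : (b : E) = (q : E) + (r : E) := by
    have h1 := M.orthogonalDecomposition.symm_apply_apply (b : E)
    rw [Submodule.orthogonalDecomposition_apply] at h1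
    nth_rw 1 [← h1]
    simp [hq, hr]
  have hrM : ∀ a ∈ M, inner ℝ a (r : E) = 0 := fun a ha =>
    (Submodule.mem_orthogonal _ _).mp r.2 a ha
  have hqL : q ∈ Lᗮ := by
    rw [Submodule.mem_orthogonal]
    intro u hu
    have h1 := hbm.1 u hu
    rw [hbqr, inner_add_right, hrM u u.2, add_zero] at h1
    exact h1
  have hprojw : Lᗮ.orthogonalProjectionOnto (M.orthogonalProjectionOnto y) = ⟨q, hqL⟩ := by
    rw [hw, map_add, proj_zero_of_mem L hl, zero_add]
    exact Submodule.orthogonalProjectionOnto_mem_subspace_eq_self (K := Lᗮ) ⟨q, hqL⟩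
  have hqn : ‖q‖ ≤ s * ‖M.orthogonalProjectionOnto y‖ := by
    have h1 : ‖Lᗮ.orthogonalProjectionOnto (M.orthogonalProjectionOnto y)‖ = ‖q‖ := by
      rw [hprojw]
      rfl
    rw [h1] at hD
    exact hD
  -- the orthogonal part
  have hMy : Mᗮ.orthogonalProjectionOnto y = Mᗮ.orthogonalProjectionOnto n + r := by
    rw [hyb, map_add, map_add, proj_zero_of_mem M l.2, zero_add]
  have hnproj : (Mᗮ.orthogonalProjectionOnto n : E) = n := by
    have := Submodule.orthogonalProjectionOnto_mem_subspace_eq_self (K := Mᗮ) ⟨n, hN hn⟩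
    exact congrArg Subtype.val this
  have hnr : inner ℝ (Mᗮ.orthogonalProjectionOnto n) r = 0 := by
    change inner ℝ (Mᗮ.orthogonalProjectionOnto n : E) (r : E) = 0
    rw [hnproj]
    have h1 := hbm.2 n hn
    have h2 : inner ℝ n (q : E) = 0 := by
      rw [real_inner_comm]
      exact (Submodule.mem_orthogonal _ _).mp (hN hn) _ q.2
    rw [hbqr, inner_add_right, h2, zero_add] at h1
    exact h1
  have hr2 : ‖r‖ ^ 2 ≤ ‖Mᗮ.orthogonalProjectionOnto y‖ ^ 2 := by
    rw [hMy, norm_add_sq_real, hnr]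
    nlinarith [sq_nonneg ‖Mᗮ.orthogonalProjectionOnto n‖]
  have hy2 := Submodule.norm_sq_eq_add_norm_sq_projection y M
  have hb2 := Submodule.norm_sq_eq_add_norm_sq_projection (b : E) M
  have hb3 := Submodule.norm_sq_eq_add_norm_sq_projection b (inner' M L N)
  have hb4 : ‖b‖ = ‖(b : E)‖ := rfl
  have hb5 := norm_proj_inner' M L N hN b
  unfold squeezed
  rw [mem_ofPred_eq, hb5]
  rw [hb5, hb4] at hb3
  have h6 : ‖(inner' M L N)ᗮ.orthogonalProjectionOnto b‖ ^ 2 = ‖r‖ ^ 2 := by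
    rw [hr]
    linarith
  rw [h6]
  have h7 : ‖q‖ ^ 2 ≤ s ^ 2 * ‖M.orthogonalProjectionOnto y‖ ^ 2 := by
    rw [← mul_pow]
    exact pow_le_pow_left₀ (norm_nonneg _) hqn 2
  have h8 : ‖y‖ ^ 2 ≤ 1 := (sq_le_one_iff₀ (norm_nonneg _)).mpr hy
  have h9 : ‖M.orthogonalProjectionOnto y‖ ^ 2 ≤ 1 - ‖r‖ ^ 2 := by linarith
  calc ‖q‖ ^ 2 ≤ s ^ 2 * ‖M.orthogonalProjectionOnto y‖ ^ 2 := h7
    _ ≤ s ^ 2 * (1 - ‖r‖ ^ 2) := by gcongr

open Pool.Agent.H52R3.CylDef in
theorem good_le_over (M : Submodule ℝ E) {k₀ : ℕ} (S : Spread M k₀) (hk₀ : 2 ≤ k₀)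
    (hM : k₀ < finrank ℝ M) (N : Submodule ℝ E) (hN : N ≤ Mᗮ) {k : ℕ}
    (hk : k₀ + finrank ℝ N = k) {c : ℝ} (hc : c ∈ Good E k) :
    c ≤ kap (finrank ℝ M) / aa (finrank ℝ M) k₀ := by
  classical
  have : Nontrivial M := Module.nontrivial_of_finrank_pos (R := ℝ) (by omega)
  set d := finrank ℝ M with hd
  have ha : 0 < aa d k₀ := aa_pos (show 0 < k₀ by omega) hM
  have key : ∀ δ : ℝ, 0 < δ → δ ≤ 1 → c ≤ (1 + δ) ^ (d - k₀) * √(1 + δ ^ 2) ^ d *
      (kap d / aa d k₀) + 2 ^ (d - k₀) * 2 ^ d * δ / aa d k₀ := by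
    intro δ hδ0 hδ1
    obtain ⟨F, F1, t, ht, hF, hF1, hcov, hsum⟩ := S.exists_cover hk₀ hM hδ0 hδ1 hδ0
    -- index type
    let ι := F ⊕ F1
    let cc : ι → M := Sum.elim (fun p => p.1.1) (fun x => x.1)
    let ss : ι → ℝ := Sum.elim (fun p => (1 + δ) * p.1.2) (fun _ => 2 * t)
    have hcc : ∀ i, cc i ≠ 0 := by
      rintro (⟨p, hp⟩ | ⟨x, hx⟩)
      · exact (hF p hp).1
      · exact hF1 x hx
    have hss : ∀ i, 0 < ss i := by
      rintro (⟨p, hp⟩ | ⟨x, hx⟩)
      · have := (hF p hp).2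
        change 0 < (1 + δ) * p.2
        positivity
      · change 0 < 2 * t
        positivity
    let e := (Fintype.equivFin ι).symm
    let C : Fin (Fintype.card ι) → Cylinder E k := fun j =>
      ⟨dir M (S.L (cc (e j))) N, by
        rw [finrank_dir M _ N hN, S.dim _ (hcc _), hk],
        squeezed (inner' M (S.L (cc (e j))) N) (ss (e j)),
        (isClosed_squeezed _ _).measurableSet.nullMeasurableSet⟩
    have hcrv : ∀ j, (C j).crv (closedBall 0 1) = ENNReal.ofReal (ss (e j) ^ (d - k₀)) := by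
      intro j
      change volume (squeezed (inner' M (S.L (cc (e j))) N) (ss (e j))) /
        volume (Cyl.shadow (dir M (S.L (cc (e j))) N) (closedBall (0 : E) 1)) = _
      rw [volume_squeezed _ (hss _), Cyl.shadow_ball, finrank_inner' M _ N hN, S.dim _ (hcc _),
        mul_div_assoc, ENNReal.div_self, mul_one]
      · exact (measure_closedBall_pos _ _ one_pos).ne'
      · exact measure_closedBall_lt_top.ne
    have hsub : closedBall (0 : E) 1 ⊆ ⋃ j, (C j).toSet := by
      have hXne : ∃ y : M, y ∈ Spread.X M := by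
        obtain ⟨y, hy⟩ := exists_ne (0 : M)
        have hyn : 0 < ‖y‖ := norm_pos_iff.mpr hy
        refine ⟨‖y‖⁻¹ • y, ?_, ?_⟩
        · rw [norm_smul, norm_inv, norm_norm, inv_mul_cancel₀ hyn.ne']
          exact one_pos
        · rw [norm_smul, norm_inv, norm_norm, inv_mul_cancel₀ hyn.ne']
      have hX : ∀ y ∈ Spread.X M, ∃ i : ι, y ∈ tube (S.L (cc i)) (ss i) := by
        intro y hy
        rcases hcov y hy with ⟨p, hp, hpy⟩ | ⟨x, hx, hxy⟩
        · exact ⟨Sum.inl ⟨p, hp⟩, hpy⟩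
        · exact ⟨Sum.inr ⟨x, hx⟩, hxy⟩
      intro y hy
      rw [mem_closedBall_zero_iff] at hy
      set w : M := M.orthogonalProjectionOnto y with hw
      have hmem : ∀ i : ι, ‖(S.L (cc i))ᗮ.orthogonalProjectionOnto w‖ ≤ ss i * ‖w‖ →
          y ∈ ⋃ j, (C j).toSet := by
        intro i hi
        refine mem_iUnion.mpr ⟨e.symm i, ?_⟩
        change y ∈ Cyl.cyl (dir M (S.L (cc (e (e.symm i)))) N)
          (squeezed (inner' M (S.L (cc (e (e.symm i)))) N) (ss (e (e.symm i))))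
        rw [e.apply_symm_apply, Cyl.mem_cyl_iff]
        exact proj_mem_squeezed M _ N hN (hss i) hy hi
      by_cases hw0 : w = 0
      · obtain ⟨z, hz⟩ := hXne
        obtain ⟨i, -⟩ := hX z hz
        refine hmem i ?_
        rw [hw0, map_zero, norm_zero, norm_zero, mul_zero]
      · have hwn : 0 < ‖w‖ := norm_pos_iff.mpr hw0
        have hw1 : ‖w‖ ≤ 1 := (Submodule.norm_orthogonalProjectionOnto_apply_le _ y).trans hy
        obtain ⟨i, hi⟩ := hX w ⟨hwn, hw1⟩
        rw [S.mem_tube_iff] at hi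
        refine hmem i ?_
        have h1 : ‖(S.L (cc i))ᗮ.orthogonalProjectionOnto w‖ = ‖w‖ * S.D (cc i) w := by
          unfold Spread.D
          field_simp
        rw [h1, mul_comm]
        exact mul_le_mul_of_nonneg_right hi.2.2 hwn.le
    have h1 := hc _ isEllipsoid_ball _ C hsub
    simp_rw [hcrv] at h1
    have h2 : ∑ j, ENNReal.ofReal (ss (e j) ^ (d - k₀)) =
        ENNReal.ofReal (∑ i : ι, ss i ^ (d - k₀)) := by
      rw [ENNReal.ofReal_sum_of_nonneg (fun i _ => pow_nonneg (hss i).le _)]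
      exact e.sum_comp (fun i => ENNReal.ofReal (ss i ^ (d - k₀)))
    have h3 : ∑ i : ι, ss i ^ (d - k₀) = ∑ p ∈ F, ((1 + δ) * p.2) ^ (d - k₀) +
        F1.card * (2 * t) ^ (d - k₀) := by
      rw [Fintype.sum_sum_type]
      congr 1
      · exact Finset.sum_coe_sort F (fun p => ((1 + δ) * p.2) ^ (d - k₀))
      · change ∑ _x : F1, (2 * t) ^ (d - k₀) = _
        rw [Finset.sum_const, Finset.card_univ, Fintype.card_coe, nsmul_eq_mul]
    rw [h2, h3] at h1
    have h4 : 0 ≤ ∑ p ∈ F, ((1 + δ) * p.2) ^ (d - k₀) + F1.card * (2 * t) ^ (d - k₀) := by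
      rw [← h3]
      exact Finset.sum_nonneg fun i _ => pow_nonneg (hss i).le _
    rw [ENNReal.ofReal_le_ofReal_iff h4] at h1
    exact h1.trans hsum
  have hcont : Continuous (fun δ : ℝ => (1 + δ) ^ (d - k₀) * √(1 + δ ^ 2) ^ d *
      (kap d / aa d k₀) + 2 ^ (d - k₀) * 2 ^ d * δ / aa d k₀) := by fun_prop
  have htend : Tendsto (fun δ : ℝ => (1 + δ) ^ (d - k₀) * √(1 + δ ^ 2) ^ d *
      (kap d / aa d k₀) + 2 ^ (d - k₀) * 2 ^ d * δ / aa d k₀) (𝓝[>] 0)
      (𝓝 (kap d / aa d k₀)) := by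
    have h1 := (hcont.tendsto 0).mono_left (nhdsWithin_le_nhds (s := Ioi 0))
    simpa using h1
  refine ge_of_tendsto htend ?_
  filter_upwards [Ioc_mem_nhdsGT (show (0 : ℝ) < 1 by norm_num)] with δ hδ
  exact key δ hδ.1 hδ.2

end Pool.Agent.H52R3.Cyl
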