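import Pool.Agent.H52R3.Cyl13

set_option autoImplicit false
set_option linter.unusedSectionVars false

/-!
# The upper bound for all `k ≥ 4`, `d - k ≥ 4`
-/

namespace Pool.Agent.H52R3.Cyl

open MeasureTheory Set Metric Module
open scoped ENNReal Real

/-- a quaternionic structure on a space of dimension `4n` -/
noncomputable def quatOf {V : Type*} [NormedAddCommGroup V] [InnerProductSpace ℝ V]
    [FiniteDimensional ℝ V] (n : ℕ) (h : finrank ℝ V = 4 * n) : Quat V :=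
  Quat.transfer ((stdOrthonormalBasis ℝ V).reindex (finCongr h)).repr (quat n)

theorem exists_le_submodule {V : Type*} [NormedAddCommGroup V] [InnerProductSpace ℝ V]
    [FiniteDimensional ℝ V] [MeasurableSpace V] [BorelSpace V] (P : Submodule ℝ V) (j : ℕ)
    (hj : j ≤ finrank ℝ P) : ∃ N : Submodule ℝ V, N ≤ P ∧ finrank ℝ N = j := by
  obtain ⟨N', hN'⟩ := CylDef.exists_submodule (V := P) j hj
  refine ⟨N'.map P.subtype, Submodule.map_subtype_le _ _, ?_⟩
  rw [Submodule.finrank_map_subtype_eq]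
  exact hN'

theorem kap_div_aa_four (n : ℕ) (hn : 2 ≤ n) :
    kap (4 * n) / aa (4 * n) 4 = 1 / (2 * (n : ℝ) - 1) := by
  have hnR : (2 : ℝ) ≤ n := by exact_mod_cast hn
  rw [kap_div_aa (by norm_num) (by omega)]
  have h1 : Real.Gamma (((4 : ℕ) : ℝ) / 2) = 1 := by
    have : ((4 : ℕ) : ℝ) / 2 = 2 := by norm_num
    rw [this, Real.Gamma_two]
  have h2 : (((4 * n : ℕ) : ℝ) - (4 : ℕ)) / 2 + 1 = 2 * (n : ℝ) - 1 := by
    push_cast
    ring
  have h3 : ((4 * n : ℕ) : ℝ) / 2 = (2 * (n : ℝ) - 1) + 1 := by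
    push_cast
    ring
  have h4 : 0 < 2 * (n : ℝ) - 1 := by linarith
  have h5 : 0 < Real.Gamma (2 * (n : ℝ) - 1) := Real.Gamma_pos_of_pos h4
  rw [h1, h2, h3, Real.Gamma_add_one h4.ne', one_mul]
  field_simp

open Pool.Agent.H52R3.CylDef in
theorem upper_all (d k : ℕ) (hk : 4 ≤ k) (hkd : k + 4 ≤ d) {c : ℝ}
    (hc : c ∈ Good (EuclideanSpace ℝ (Fin d)) k) : c ≤ 1 / (2 * (((d - k) / 4 : ℕ) : ℝ) + 1) := by
  have hfr : finrank ℝ (EuclideanSpace ℝ (Fin d)) = d := finrank_euclideanSpace_fin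
  set n := (d - k) / 4 + 1 with hn
  have hn2 : 2 ≤ n := by omega
  have h4n : 4 * n ≤ d := by omega
  obtain ⟨M, hM⟩ := exists_submodule (V := EuclideanSpace ℝ (Fin d)) (4 * n) (by rw [hfr]; exact h4n)
  have hMo : finrank ℝ Mᗮ = d - 4 * n := by
    have := M.finrank_add_finrank_orthogonal
    omega
  obtain ⟨N, hN, hNk⟩ := exists_le_submodule Mᗮ (k - 4) (by rw [hMo]; omega)
  have h := good_le_over M (quatOf n hM).spread (by norm_num) (by rw [hM]; omega) N hN
    (k := k) (by rw [hNk]; omega) hc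
  rw [hM, kap_div_aa_four n hn2] at h
  have h5 : 2 * (n : ℝ) - 1 = 2 * (((d - k) / 4 : ℕ) : ℝ) + 1 := by
    rw [hn]
    push_cast
    ring
  rw [h5] at h
  exact h

end Pool.Agent.H52R3.Cyl
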