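import Pool.Agent.H52R3.Cyl14

set_option autoImplicit false
set_option linter.unusedSectionVars false

/-!
# The spread of a composition algebra, and the octonionic one
-/

namespace Pool.Agent.H52R3.Cyl

open MeasureTheory Set Metric Module
open scoped ENNReal Real InnerProductSpace

/-- a bilinear product with multiplicative norm -/
structure Comp (W : Type*) [NormedAddCommGroup W] [InnerProductSpace ℝ W] where
  /-- the product -/
  B : W →ₗ[ℝ] W →ₗ[ℝ] W
  norm_mul : ∀ m x, ‖B m x‖ = ‖m‖ * ‖x‖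

theorem norm_proj_eq {V : Type*} [NormedAddCommGroup V] [InnerProductSpace ℝ V]
    [FiniteDimensional ℝ V] (H : Submodule ℝ V) {v w : V} (hw : w ∈ H) (h : v - w ∈ Hᗮ) :
    ‖Hᗮ.orthogonalProjectionOnto v‖ = ‖v - w‖ := by
  have hproj : (Hᗮ.orthogonalProjectionOnto v : V) = v - w := by
    have h1 : Hᗮ.orthogonalProjectionOnto v =
        Hᗮ.orthogonalProjectionOnto (v - w) + Hᗮ.orthogonalProjectionOnto w := by
      rw [← map_add, sub_add_cancel]
    rw [h1, proj_zero_of_mem _ hw, add_zero]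
    have h2 := Submodule.orthogonalProjectionOnto_mem_subspace_eq_self (K := Hᗮ)
      (⟨v - w, h⟩ : Hᗮ)
    exact congrArg Subtype.val h2
  rw [← hproj]
  rfl

namespace Comp

variable {W : Type*} [NormedAddCommGroup W] [InnerProductSpace ℝ W] [FiniteDimensional ℝ W]
  (A : Comp W)

theorem inj_left {x : W} (hx : x ≠ 0) {m m' : W} (h : A.B m x = A.B m' x) : m = m' := by
  have h1 : A.B (m - m') x = 0 := by
    rw [map_sub, LinearMap.sub_apply, h, sub_self]
  have h2 := A.norm_mul (m - m') x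
  rw [h1, norm_zero] at h2
  have h3 : ‖x‖ ≠ 0 := norm_ne_zero_iff.mpr hx
  have h4 : ‖m - m'‖ = 0 := by
    rcases mul_eq_zero.mp h2.symm with h | h
    · exact h
    · exact absurd h h3
  exact sub_eq_zero.mp (norm_eq_zero.mp h4)

theorem exists_div {x : W} (hx : x ≠ 0) (y : W) : ∃ m, A.B m x = y := by
  have hinj : Function.Injective (A.B.flip x) := by
    intro m m' h
    exact A.inj_left hx h
  exact (LinearMap.injective_iff_surjective.mp hinj) y

theorem exists_div' {m : W} (hm : m ≠ 0) (y : W) : ∃ x, A.B m x = y := by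
  have hinj : Function.Injective (A.B m) := by
    rw [injective_iff_map_eq_zero]
    intro x h
    have h2 := A.norm_mul m x
    rw [h, norm_zero] at h2
    have h3 : ‖m‖ ≠ 0 := norm_ne_zero_iff.mpr hm
    rcases mul_eq_zero.mp h2.symm with h | h
    · exact absurd h h3
    · exact norm_eq_zero.mp h
  exact (LinearMap.injective_iff_surjective.mp hinj) y

theorem inner_mul (m x y : W) : ⟪A.B m x, A.B m y⟫_ℝ = ‖m‖ ^ 2 * ⟪x, y⟫_ℝ := by
  have h1 := norm_add_sq_real (A.B m x) (A.B m y)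
  have h2 := norm_add_sq_real x y
  rw [← map_add, A.norm_mul, A.norm_mul, A.norm_mul, mul_pow, mul_pow, mul_pow] at h1
  rw [h2] at h1
  linarith

/-- the graph of the multiplication by `m` -/
def graph (m : W) : Submodule ℝ (WithLp 2 (W × W)) :=
  LinearMap.range ((WithLp.linearEquiv 2 ℝ (W × W)).symm.toLinearMap ∘ₗ
    (LinearMap.id.prod (A.B m)))

theorem mem_graph (m : W) (v : WithLp 2 (W × W)) : v ∈ A.graph m ↔ v.snd = A.B m v.fst := by
  constructor
  · rintro ⟨x, rfl⟩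
    rfl
  · intro h
    refine ⟨v.fst, ?_⟩
    apply (WithLp.linearEquiv 2 ℝ (W × W)).injective
    exact Prod.ext rfl h.symm

/-- the vertical line -/
def vert (W : Type*) [NormedAddCommGroup W] [InnerProductSpace ℝ W] :
    Submodule ℝ (WithLp 2 (W × W)) :=
  LinearMap.range ((WithLp.linearEquiv 2 ℝ (W × W)).symm.toLinearMap ∘ₗ
    ((0 : W →ₗ[ℝ] W).prod LinearMap.id))

theorem mem_vert (v : WithLp 2 (W × W)) : v ∈ vert W ↔ v.fst = 0 := by
  constructor
  · rintro ⟨x, rfl⟩
    rfl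
  · intro h
    refine ⟨v.snd, ?_⟩
    apply (WithLp.linearEquiv 2 ℝ (W × W)).injective
    exact Prod.ext h.symm rfl

theorem finrank_graph (m : W) : finrank ℝ (A.graph m) = finrank ℝ W := by
  refine LinearMap.finrank_range_of_inj ?_
  intro x y h
  have h1 : (WithLp.linearEquiv 2 ℝ (W × W)).symm (x, A.B m x) =
    (WithLp.linearEquiv 2 ℝ (W × W)).symm (y, A.B m y) := h
  exact congrArg Prod.fst ((WithLp.linearEquiv 2 ℝ (W × W)).symm.injective h1)

theorem finrank_vert : finrank ℝ (vert W) = finrank ℝ W := by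
  refine LinearMap.finrank_range_of_inj ?_
  intro x y h
  have h1 : (WithLp.linearEquiv 2 ℝ (W × W)).symm ((0 : W), x) =
    (WithLp.linearEquiv 2 ℝ (W × W)).symm ((0 : W), y) := h
  exact congrArg Prod.snd ((WithLp.linearEquiv 2 ℝ (W × W)).symm.injective h1)

theorem dist_vert (v : WithLp 2 (W × W)) :
    ‖(vert W)ᗮ.orthogonalProjectionOnto v‖ = ‖v.fst‖ := by
  set w : WithLp 2 (W × W) := WithLp.toLp 2 ((0 : W), v.snd) with hw
  have h1 : w ∈ vert W := (mem_vert w).mpr rfl
  have h2 : v - w ∈ (vert W)ᗮ := by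
    rw [Submodule.mem_orthogonal]
    intro u hu
    rw [mem_vert] at hu
    rw [WithLp.prod_inner_apply]
    have h3 : (v - w).snd = 0 := by
      simp [hw]
    change ⟪u.fst, (v - w).fst⟫_ℝ + ⟪u.snd, (v - w).snd⟫_ℝ = 0
    rw [hu, h3, inner_zero_left, inner_zero_right, add_zero]
  rw [norm_proj_eq _ h1 h2]
  have h4 : ‖v - w‖ ^ 2 = ‖v.fst‖ ^ 2 := by
    rw [WithLp.prod_norm_sq_eq_of_L2]
    simp [hw]
  exact (pow_left_inj₀ (norm_nonneg _) (norm_nonneg _) two_ne_zero).mp h4

theorem dist_graph (m : W) (v : WithLp 2 (W × W)) :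
    (1 + ‖m‖ ^ 2) * ‖(A.graph m)ᗮ.orthogonalProjectionOnto v‖ ^ 2 =
      ‖v.snd - A.B m v.fst‖ ^ 2 := by
  by_cases hm : m = 0
  · subst hm
    set w : WithLp 2 (W × W) := WithLp.toLp 2 (v.fst, (0 : W)) with hw
    have h1 : w ∈ A.graph 0 := by
      rw [mem_graph, map_zero]
      rfl
    have h2 : v - w ∈ (A.graph 0)ᗮ := by
      rw [Submodule.mem_orthogonal]
      intro u hu
      rw [mem_graph, map_zero, LinearMap.zero_apply] at hu
      rw [WithLp.prod_inner_apply]
      have h3 : (v - w).fst = 0 := by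
        simp [hw]
      change ⟪u.fst, (v - w).fst⟫_ℝ + ⟪u.snd, (v - w).snd⟫_ℝ = 0
      rw [hu, h3, inner_zero_left, inner_zero_right, add_zero]
    rw [norm_proj_eq _ h1 h2, WithLp.prod_norm_sq_eq_of_L2]
    simp [hw]
  · obtain ⟨x₁, hx₁⟩ := A.exists_div' hm v.snd
    have hc : 0 < 1 + ‖m‖ ^ 2 := by positivity
    set c : ℝ := (1 + ‖m‖ ^ 2)⁻¹ with hcdef
    set x₀ : W := c • (v.fst + (‖m‖ ^ 2) • x₁) with hx₀
    set w : WithLp 2 (W × W) := WithLp.toLp 2 (x₀, A.B m x₀) with hw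
    have h1 : w ∈ A.graph m := by
      rw [mem_graph]
      rfl
    have hcc : c * (1 + ‖m‖ ^ 2) = 1 := inv_mul_cancel₀ hc.ne'
    have hfst : (v - w).fst = (c * ‖m‖ ^ 2) • (v.fst - x₁) := by
      have h3 : (v - w).fst = v.fst - x₀ := rfl
      have h4 : v.fst = (c * (1 + ‖m‖ ^ 2)) • v.fst := by rw [hcc, one_smul]
      rw [h3, hx₀]
      nth_rw 1 [h4]
      module
    have hsnd : (v - w).snd = A.B m (c • (x₁ - v.fst)) := by
      have h3 : (v - w).snd = v.snd - A.B m x₀ := rfl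
      have h4 : x₁ - x₀ = c • (x₁ - v.fst) := by
        have h5 : x₁ = (c * (1 + ‖m‖ ^ 2)) • x₁ := by rw [hcc, one_smul]
        rw [hx₀]
        nth_rw 1 [h5]
        module
      rw [h3, ← hx₁, ← map_sub, h4]
    have h2 : v - w ∈ (A.graph m)ᗮ := by
      rw [Submodule.mem_orthogonal]
      intro u hu
      rw [mem_graph] at hu
      rw [WithLp.prod_inner_apply]
      change ⟪u.fst, (v - w).fst⟫_ℝ + ⟪u.snd, (v - w).snd⟫_ℝ = 0
      rw [hfst, hsnd, hu, A.inner_mul, inner_smul_right, inner_smul_right, inner_sub_right,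
        inner_sub_right]
      ring
    rw [norm_proj_eq _ h1 h2, WithLp.prod_norm_sq_eq_of_L2]
    change (1 + ‖m‖ ^ 2) * (‖(v - w).fst‖ ^ 2 + ‖(v - w).snd‖ ^ 2) = _
    rw [hfst, hsnd, A.norm_mul, norm_smul, norm_smul, ← hx₁, ← map_sub, A.norm_mul,
      norm_sub_rev x₁ v.fst, Real.norm_eq_abs, Real.norm_eq_abs]
    have hc0 : 0 < c := inv_pos.mpr hc
    rw [abs_of_nonneg (by positivity), abs_of_pos hc0]
    have : (1 + ‖m‖ ^ 2) * ((c * ‖m‖ ^ 2 * ‖v.fst - x₁‖) ^ 2 + (‖m‖ * (c * ‖v.fst - x₁‖)) ^ 2) =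
        (c * (1 + ‖m‖ ^ 2)) ^ 2 * (‖m‖ * ‖v.fst - x₁‖) ^ 2 := by ring
    rw [this, hcc, one_pow, one_mul]

open Classical in
/-- the quotient `y / x` -/
noncomputable def dv (y x : W) : W := if h : x = 0 then 0 else (A.exists_div h y).choose

theorem dv_spec {x : W} (hx : x ≠ 0) (y : W) : A.B (A.dv y x) x = y := by
  unfold dv
  rw [dif_neg hx]
  exact (A.exists_div hx y).choose_spec

open Classical in
/-- the line through `v` -/
noncomputable def line (v : WithLp 2 (W × W)) : Submodule ℝ (WithLp 2 (W × W)) :=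
  if v.fst = 0 then vert W else A.graph (A.dv v.snd v.fst)

theorem line_of_zero {v : WithLp 2 (W × W)} (h : v.fst = 0) : A.line v = vert W := if_pos h

theorem line_of_ne {v : WithLp 2 (W × W)} (h : v.fst ≠ 0) :
    A.line v = A.graph (A.dv v.snd v.fst) := if_neg h

/-- formula for the distance in the generic case -/
theorem dist_line_of_ne {x : WithLp 2 (W × W)} (hx : x.fst ≠ 0) (y : WithLp 2 (W × W)) :
    ‖x‖ ^ 2 * ‖(A.line x)ᗮ.orthogonalProjectionOnto y‖ ^ 2 =
      ‖x.fst‖ ^ 2 * ‖y.snd - A.B (A.dv x.snd x.fst) y.fst‖ ^ 2 := by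
  have h1 : ∀ H H' : Submodule ℝ (WithLp 2 (W × W)), H = H' →
      ‖Hᗮ.orthogonalProjectionOnto y‖ = ‖H'ᗮ.orthogonalProjectionOnto y‖ := by
    rintro H _ rfl
    rfl
  rw [h1 _ _ (A.line_of_ne hx)]
  set m := A.dv x.snd x.fst with hm
  have h2 := A.dist_graph m y
  have h3 : ‖x‖ ^ 2 = (1 + ‖m‖ ^ 2) * ‖x.fst‖ ^ 2 := by
    rw [WithLp.prod_norm_sq_eq_of_L2]
    have h4 : ‖x.snd‖ = ‖m‖ * ‖x.fst‖ := by
      rw [← A.norm_mul, hm, A.dv_spec hx]
    change ‖x.fst‖ ^ 2 + ‖x.snd‖ ^ 2 = _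
    rw [h4]
    ring
  rw [h3, ← h2]
  ring

theorem dist_line_of_zero {x : WithLp 2 (W × W)} (hx : x.fst = 0) (y : WithLp 2 (W × W)) :
    ‖x‖ ^ 2 * ‖(A.line x)ᗮ.orthogonalProjectionOnto y‖ ^ 2 = ‖x.snd‖ ^ 2 * ‖y.fst‖ ^ 2 := by
  have h1 : ∀ H H' : Submodule ℝ (WithLp 2 (W × W)), H = H' →
      ‖Hᗮ.orthogonalProjectionOnto y‖ = ‖H'ᗮ.orthogonalProjectionOnto y‖ := by
    rintro H _ rfl
    rfl
  rw [h1 _ _ (A.line_of_zero hx), dist_vert, WithLp.prod_norm_sq_eq_of_L2]
  change (‖x.fst‖ ^ 2 + ‖x.snd‖ ^ 2) * ‖y.fst‖ ^ 2 = _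
  rw [hx, norm_zero]
  ring

theorem symm_sq (x y : WithLp 2 (W × W)) :
    ‖x‖ ^ 2 * ‖(A.line x)ᗮ.orthogonalProjectionOnto y‖ ^ 2 =
      ‖y‖ ^ 2 * ‖(A.line y)ᗮ.orthogonalProjectionOnto x‖ ^ 2 := by
  by_cases hx : x.fst = 0
  · by_cases hy : y.fst = 0
    · rw [A.dist_line_of_zero hx, A.dist_line_of_zero hy, hx, hy]
      simp
    · rw [A.dist_line_of_zero hx, A.dist_line_of_ne hy, hx, map_zero, sub_zero]
      ring
  · by_cases hy : y.fst = 0
    · rw [A.dist_line_of_ne hx, A.dist_line_of_zero hy, hy, map_zero, sub_zero]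
      ring
    · rw [A.dist_line_of_ne hx, A.dist_line_of_ne hy]
      have h1 := A.dv_spec hx x.snd
      have h2 := A.dv_spec hy y.snd
      have h3 : ‖y.snd - A.B (A.dv x.snd x.fst) y.fst‖ =
          ‖A.dv y.snd y.fst - A.dv x.snd x.fst‖ * ‖y.fst‖ := by
        rw [← A.norm_mul, map_sub, LinearMap.sub_apply, h2]
      have h4 : ‖x.snd - A.B (A.dv y.snd y.fst) x.fst‖ =
          ‖A.dv y.snd y.fst - A.dv x.snd x.fst‖ * ‖x.fst‖ := by
        rw [norm_sub_rev (A.dv y.snd y.fst), ← A.norm_mul, map_sub, LinearMap.sub_apply, h1]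
      rw [h3, h4]
      ring

/-- the spread of lines -/
noncomputable def spread : Spread (WithLp 2 (W × W)) (finrank ℝ W) where
  L := A.line
  dim := by
    intro x _
    by_cases hx : x.fst = 0
    · rw [A.line_of_zero hx, finrank_vert]
    · rw [A.line_of_ne hx, finrank_graph]
  self_mem := by
    intro x
    by_cases hx : x.fst = 0
    · rw [A.line_of_zero hx, mem_vert]
      exact hx
    · rw [A.line_of_ne hx, mem_graph, A.dv_spec hx]
  eq_of_mem := by
    intro x y hy hy0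
    by_cases hx : x.fst = 0
    · rw [A.line_of_zero hx, mem_vert] at hy
      rw [A.line_of_zero hx, A.line_of_zero hy]
    · rw [A.line_of_ne hx, mem_graph] at hy
      have hyf : y.fst ≠ 0 := by
        intro h
        rw [h, map_zero] at hy
        apply hy0
        apply (WithLp.linearEquiv 2 ℝ (W × W)).injective
        exact Prod.ext h hy
      rw [A.line_of_ne hx, A.line_of_ne hyf]
      congr 1
      refine A.inj_left hyf ?_
      rw [A.dv_spec hyf, hy]
  symm := by
    intro x y _ _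
    have h := A.symm_sq x y
    rw [← mul_pow, ← mul_pow] at h
    exact (pow_left_inj₀ (by positivity) (by positivity) two_ne_zero).mp h

end Comp

/-- transfer of a spread along a linear isometry -/
noncomputable def Spread.transfer {V V' : Type*} [NormedAddCommGroup V] [InnerProductSpace ℝ V]
    [FiniteDimensional ℝ V] [NormedAddCommGroup V'] [InnerProductSpace ℝ V']
    [FiniteDimensional ℝ V'] (e : V ≃ₗᵢ[ℝ] V') {k : ℕ} (S : Spread V' k) : Spread V k where
  L x := (S.L (e x)).map e.symm.toLinearEquiv.toLinearMap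
  dim := by
    intro x hx
    have h1 : e x ≠ 0 := by
      intro h
      exact hx (e.map_eq_zero_iff.mp h)
    have h2 := LinearEquiv.finrank_map_eq e.symm.toLinearEquiv (S.L (e x))
    exact h2.trans (S.dim _ h1)
  self_mem := by
    intro x
    exact ⟨e x, S.self_mem _, e.symm_apply_apply x⟩
  eq_of_mem := by
    rintro x _ ⟨z, hz, rfl⟩ hy0
    have h1 : z ≠ 0 := by
      rintro rfl
      exact hy0 (map_zero _)
    have h2 : e (e.symm.toLinearEquiv.toLinearMap z) = z := e.apply_symm_apply z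
    rw [h2, S.eq_of_mem _ _ hz h1]
  symm := by
    have key : ∀ (H : Submodule ℝ V') (y : V),
        ‖(H.map e.symm.toLinearEquiv.toLinearMap)ᗮ.orthogonalProjectionOnto y‖ =
          ‖Hᗮ.orthogonalProjectionOnto (e y)‖ := by
      intro H y
      have h1 : e y - (H.orthogonalProjectionOnto (e y) : V') ∈ Hᗮ :=
        Submodule.sub_starProjection_mem_orthogonal _
      rw [norm_proj_eq H (H.orthogonalProjectionOnto (e y)).2 h1]
      have h2 : e.symm (H.orthogonalProjectionOnto (e y) : V') ∈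
          H.map e.symm.toLinearEquiv.toLinearMap := ⟨_, (H.orthogonalProjectionOnto (e y)).2, rfl⟩
      have h3 : y - e.symm (H.orthogonalProjectionOnto (e y) : V') ∈
          (H.map e.symm.toLinearEquiv.toLinearMap)ᗮ := by
        rw [Submodule.mem_orthogonal]
        rintro _ ⟨z, hz, rfl⟩
        have h4 := (Submodule.mem_orthogonal _ _).mp h1 z hz
        rw [← e.symm.inner_map_map, map_sub, e.symm_apply_apply] at h4
        exact h4
      rw [norm_proj_eq _ h2 h3, ← e.norm_map, map_sub, e.apply_symm_apply]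
    intro x y hx hy
    rw [key, key]
    have h1 : e x ≠ 0 := fun h => hx (e.map_eq_zero_iff.mp h)
    have h2 : e y ≠ 0 := fun h => hy (e.map_eq_zero_iff.mp h)
    have h3 := S.symm (e x) (e y) h1 h2
    rw [e.norm_map, e.norm_map] at h3
    exact h3

end Pool.Agent.H52R3.Cyl
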