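import Pool.Agent.H52R3.Cyl15

set_option autoImplicit false
set_option linter.unusedSectionVars false

/-!
# Octonions and the value `c(16,8) = 1/35`
-/

namespace Pool.Agent.H52R3.Cyl

open MeasureTheory Set Metric Module
open scoped ENNReal Real InnerProductSpace

/-- the coordinates of the product of octonions -/
def octMul (m x : Fin 8 → ℝ) : Fin 8 → ℝ :=
  ![m 0 * x 0 - m 1 * x 1 - m 2 * x 2 - m 3 * x 3 - m 4 * x 4 - m 5 * x 5 - m 6 * x 6 - m 7 * x 7,
    m 0 * x 1 + m 1 * x 0 + m 2 * x 3 - m 3 * x 2 + m 4 * x 5 - m 5 * x 4 - m 6 * x 7 + m 7 * x 6,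
    m 0 * x 2 - m 1 * x 3 + m 2 * x 0 + m 3 * x 1 + m 4 * x 6 + m 5 * x 7 - m 6 * x 4 - m 7 * x 5,
    m 0 * x 3 + m 1 * x 2 - m 2 * x 1 + m 3 * x 0 + m 4 * x 7 - m 5 * x 6 + m 6 * x 5 - m 7 * x 4,
    m 0 * x 4 - m 1 * x 5 - m 2 * x 6 - m 3 * x 7 + m 4 * x 0 + m 5 * x 1 + m 6 * x 2 + m 7 * x 3,
    m 0 * x 5 + m 1 * x 4 - m 2 * x 7 + m 3 * x 6 - m 4 * x 1 + m 5 * x 0 - m 6 * x 3 + m 7 * x 2,
    m 0 * x 6 + m 1 * x 7 + m 2 * x 4 - m 3 * x 5 - m 4 * x 2 + m 5 * x 3 + m 6 * x 0 - m 7 * x 1,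
    m 0 * x 7 - m 1 * x 6 + m 2 * x 5 + m 3 * x 4 - m 4 * x 3 - m 5 * x 2 + m 6 * x 1 + m 7 * x 0]

theorem octMul_add_left (m m' x : Fin 8 → ℝ) :
    octMul (m + m') x = octMul m x + octMul m' x := by
  funext i
  fin_cases i <;> simp [octMul] <;> ring

theorem octMul_add_right (m x x' : Fin 8 → ℝ) :
    octMul m (x + x') = octMul m x + octMul m x' := by
  funext i
  fin_cases i <;> simp [octMul] <;> ring

theorem octMul_smul_left (c : ℝ) (m x : Fin 8 → ℝ) :
    octMul (c • m) x = c • octMul m x := by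
  funext i
  fin_cases i <;> simp [octMul] <;> ring

theorem octMul_smul_right (c : ℝ) (m x : Fin 8 → ℝ) :
    octMul m (c • x) = c • octMul m x := by
  funext i
  fin_cases i <;> simp [octMul] <;> ring

theorem octMul_norm (m x : Fin 8 → ℝ) :
    ∑ i, octMul m x i ^ 2 = (∑ i, m i ^ 2) * ∑ i, x i ^ 2 := by
  rw [Fin.sum_univ_eight, Fin.sum_univ_eight, Fin.sum_univ_eight]
  simp [octMul]
  ring

/-- the octonions as a composition algebra -/
noncomputable def oct : Comp (EuclideanSpace ℝ (Fin 8)) where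
  B := LinearMap.mk₂ ℝ (fun m x => WithLp.toLp 2 (octMul m.ofLp x.ofLp))
    (fun m m' x => by
      rw [WithLp.ofLp_add, octMul_add_left, WithLp.toLp_add])
    (fun c m x => by
      rw [WithLp.ofLp_smul, octMul_smul_left, WithLp.toLp_smul])
    (fun m x x' => by
      rw [WithLp.ofLp_add, octMul_add_right, WithLp.toLp_add])
    (fun c m x => by
      rw [WithLp.ofLp_smul, octMul_smul_right, WithLp.toLp_smul])
  norm_mul := by
    intro m x
    have h : ‖(WithLp.toLp 2 (octMul m.ofLp x.ofLp) : EuclideanSpace ℝ (Fin 8))‖ ^ 2 =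
        (‖m‖ * ‖x‖) ^ 2 := by
      rw [mul_pow, EuclideanSpace.real_norm_sq_eq, EuclideanSpace.real_norm_sq_eq,
        EuclideanSpace.real_norm_sq_eq]
      exact octMul_norm m.ofLp x.ofLp
    exact (pow_left_inj₀ (norm_nonneg _) (by positivity) two_ne_zero).mp h

theorem kap_div_aa_eight : kap 16 / aa 16 8 = 1 / 35 := by
  rw [kap_div_aa (by norm_num) (by norm_num)]
  have h1 : Real.Gamma (((8 : ℕ) : ℝ) / 2) = 6 := by
    have : ((8 : ℕ) : ℝ) / 2 = ((3 : ℕ) : ℝ) + 1 := by norm_num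
    rw [this, Real.Gamma_nat_eq_factorial]
    norm_num [Nat.factorial]
  have h2 : Real.Gamma ((((16 : ℕ) : ℝ) - (8 : ℕ)) / 2 + 1) = 24 := by
    have : (((16 : ℕ) : ℝ) - (8 : ℕ)) / 2 + 1 = ((4 : ℕ) : ℝ) + 1 := by norm_num
    rw [this, Real.Gamma_nat_eq_factorial]
    norm_num [Nat.factorial]
  have h3 : Real.Gamma (((16 : ℕ) : ℝ) / 2) = 5040 := by
    have : ((16 : ℕ) : ℝ) / 2 = ((7 : ℕ) : ℝ) + 1 := by norm_num
    rw [this, Real.Gamma_nat_eq_factorial]
    norm_num [Nat.factorial]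
  rw [h1, h2, h3]
  norm_num

/-- the octonionic spread in a space of dimension 16 -/
noncomputable def octSpread {V : Type*} [NormedAddCommGroup V] [InnerProductSpace ℝ V]
    [FiniteDimensional ℝ V] (h : finrank ℝ V = 16) : Spread V 8 := by
  have h8 : finrank ℝ (EuclideanSpace ℝ (Fin 8)) = 8 := finrank_euclideanSpace_fin
  have hW : finrank ℝ (WithLp 2 (EuclideanSpace ℝ (Fin 8) × EuclideanSpace ℝ (Fin 8))) = 16 := by
    rw [LinearEquiv.finrank_eq (WithLp.linearEquiv 2 ℝ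
      (EuclideanSpace ℝ (Fin 8) × EuclideanSpace ℝ (Fin 8))), finrank_prod, h8]
  let e : V ≃ₗᵢ[ℝ] WithLp 2 (EuclideanSpace ℝ (Fin 8) × EuclideanSpace ℝ (Fin 8)) :=
    (((stdOrthonormalBasis ℝ V).reindex (finCongr h)).repr).trans
      (((stdOrthonormalBasis ℝ (WithLp 2 (EuclideanSpace ℝ (Fin 8) ×
        EuclideanSpace ℝ (Fin 8)))).reindex (finCongr hW)).repr).symm
  exact h8 ▸ Spread.transfer e oct.spread

open Pool.Agent.H52R3.CylDef in
theorem isGreatest_eight :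
    IsGreatest (Good (EuclideanSpace ℝ (Fin 16)) 8) (1 / 35) := by
  have hfr : finrank ℝ (EuclideanSpace ℝ (Fin 16)) = 16 := finrank_euclideanSpace_fin
  constructor
  · have h := gamma_mem_good (V := EuclideanSpace ℝ (Fin 16)) (k := 8) (by norm_num)
      (by rw [hfr]; norm_num)
    rw [← kap_div_aa (by norm_num) (by rw [hfr]; norm_num), hfr, kap_div_aa_eight] at h
    exact h
  · intro c hc
    have h := (octSpread hfr).good_le (by norm_num) (by rw [hfr]; norm_num) hc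
    rw [hfr, kap_div_aa_eight] at h
    exact h

open Pool.Agent.H52R3.CylDef in
theorem upper_eight (d k : ℕ) (hk : 8 ≤ k) (hkd : k + 8 ≤ d) {c : ℝ}
    (hc : c ∈ Good (EuclideanSpace ℝ (Fin d)) k) : c ≤ 1 / 35 := by
  have hfr : finrank ℝ (EuclideanSpace ℝ (Fin d)) = d := finrank_euclideanSpace_fin
  obtain ⟨M, hM⟩ := exists_submodule (V := EuclideanSpace ℝ (Fin d)) 16 (by rw [hfr]; omega)
  have hMo : finrank ℝ Mᗮ = d - 16 := by
    have := M.finrank_add_finrank_orthogonal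
    omega
  obtain ⟨N, hN, hNk⟩ := exists_le_submodule Mᗮ (k - 8) (by rw [hMo]; omega)
  have h := good_le_over M (octSpread hM) (by norm_num) (by rw [hM]; norm_num) N hN
    (k := k) (by rw [hNk]; omega) hc
  rw [hM, kap_div_aa_eight] at h
  exact h

end Pool.Agent.H52R3.Cyl
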