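import Pool.Agent.H52R3.Cyl14

set_option autoImplicit false
set_option linter.unusedSectionVars false

/-!
# Greedy covering by random subspaces
-/

namespace Pool.Agent.H52R3.Cyl

open MeasureTheory Set Metric Module
open scoped ENNReal Real

variable {E : Type*} [NormedAddCommGroup E] [InnerProductSpace ℝ E] [FiniteDimensional ℝ E]
  [MeasurableSpace E] [BorelSpace E]

/-- the distance of `x` to the span of `v` is less than `s ‖x‖` -/
def Near {k : ℕ} (s : ℝ) (v : Fin k → E) (x : E) : Prop :=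
  ∃ c : Fin k → ℝ, ‖x - ∑ i, c i • v i‖ < s * ‖x‖

theorem isOpen_near (k : ℕ) (s : ℝ) :
    IsOpen {p : (Fin k → E) × E | Near s p.1 p.2} := by
  have h : {p : (Fin k → E) × E | Near s p.1 p.2} =
      ⋃ c : Fin k → ℝ, {p | ‖p.2 - ∑ i, c i • p.1 i‖ < s * ‖p.2‖} := by
    ext p
    simp [Near]
  rw [h]
  exact isOpen_iUnion fun c => isOpen_lt (by fun_prop) (by fun_prop)

theorem near_smul {k : ℕ} {s : ℝ} {v : Fin k → E} {x : E} {t : ℝ} (ht : 0 < t) :
    Near s v (t • x) ↔ Near s v x := by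
  constructor
  · rintro ⟨c, hc⟩
    refine ⟨fun i => t⁻¹ * c i, ?_⟩
    have h1 : x - ∑ i, (t⁻¹ * c i) • v i = t⁻¹ • (t • x - ∑ i, c i • v i) := by
      rw [smul_sub, inv_smul_smul₀ ht.ne', Finset.smul_sum]
      simp_rw [smul_smul]
    rw [h1, norm_smul, norm_inv, Real.norm_of_nonneg ht.le]
    rw [norm_smul, Real.norm_of_nonneg ht.le] at hc
    rw [inv_mul_lt_iff₀ ht]
    linarith
  · rintro ⟨c, hc⟩
    refine ⟨fun i => t * c i, ?_⟩
    have h1 : t • x - ∑ i, (t * c i) • v i = t • (x - ∑ i, c i • v i) := by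
      rw [smul_sub, Finset.smul_sum]
      simp_rw [smul_smul]
    rw [h1, norm_smul, norm_smul, Real.norm_of_nonneg ht.le]
    nlinarith

theorem near_map {k : ℕ} {s : ℝ} {v : Fin k → E} {x : E} (g : E ≃ₗᵢ[ℝ] E) :
    Near s (fun i => g (v i)) (g x) ↔ Near s v x := by
  unfold Near
  have h1 : ∀ c : Fin k → ℝ, ‖g x - ∑ i, c i • g (v i)‖ = ‖x - ∑ i, c i • v i‖ := by
    intro c
    rw [← g.norm_map (x - ∑ i, c i • v i), map_sub, map_sum]
    simp_rw [map_smul]
  simp_rw [h1, g.norm_map]

/-- the sample space -/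
def Om (E : Type*) [NormedAddCommGroup E] [InnerProductSpace ℝ E] (k : ℕ) : Set (Fin k → E) :=
  {v | LinearIndependent ℝ v ∧ ∀ i, ‖v i‖ < 1}

theorem isOpen_om (k : ℕ) : IsOpen (Om E k) := by
  have h1 : IsOpen {v : Fin k → E | LinearIndependent ℝ v} := isOpen_setOfPred_linearIndependent
  have h2 : IsOpen {v : Fin k → E | ∀ i, ‖v i‖ < 1} := by
    have h3 : {v : Fin k → E | ∀ i, ‖v i‖ < 1} = ⋂ i, {v | ‖v i‖ < 1} := by
      ext v
      simp
    rw [h3]
    exact isOpen_iInter_of_finite fun i => isOpen_lt (by fun_prop) continuous_const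
  exact h1.inter h2

theorem om_nonempty (k : ℕ) (hk : k ≤ finrank ℝ E) : (Om E k).Nonempty := by
  let b := stdOrthonormalBasis ℝ E
  have hv : LinearIndependent ℝ (fun i : Fin k => b (Fin.castLE hk i)) :=
    b.orthonormal.linearIndependent.comp (Fin.castLE hk) (Fin.castLE_injective hk)
  refine ⟨fun i => (1 / 2 : ℝ) • b (Fin.castLE hk i), ?_, fun i => ?_⟩
  · have h2 := hv.units_smul (fun _ => Units.mk0 (1 / 2 : ℝ) (by norm_num))
    exact h2
  · rw [norm_smul, b.norm_eq_one]
    norm_num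

theorem om_pos (k : ℕ) (hk : k ≤ finrank ℝ E) : volume (Om E k) ≠ 0 :=
  ((isOpen_om k).measure_pos volume (om_nonempty k hk)).ne'

theorem om_lt_top (k : ℕ) : volume (Om E k) ≠ ∞ := by
  have h1 : Om E k ⊆ closedBall (0 : Fin k → E) 1 := by
    rintro v ⟨-, hv⟩
    rw [mem_closedBall_zero_iff, pi_norm_le_iff_of_nonneg zero_le_one]
    exact fun i => (hv i).le
  exact ((measure_mono h1).trans_lt measure_closedBall_lt_top).ne

/-- the measure of the set of frames near `x` -/
noncomputable def pp (k : ℕ) (s : ℝ) (x : E) : ℝ≥0∞ := volume {v ∈ Om E k | Near s v x}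

theorem pp_smul (k : ℕ) (s : ℝ) (x : E) {t : ℝ} (ht : 0 < t) : pp k s (t • x) = pp k s x := by
  unfold pp
  congr 1
  ext v
  rw [mem_ofPred_eq, mem_ofPred_eq, near_smul ht]

theorem pp_map (k : ℕ) (s : ℝ) (x : E) (g : E ≃ₗᵢ[ℝ] E) : pp k s (g x) = pp k s x := by
  unfold pp
  have h1 : MeasurePreserving (fun (v : Fin k → E) i => g (v i)) volume volume :=
    volume_preserving_pi (fun _ => g.measurePreserving)
  have h2 : MeasurableSet {v ∈ Om E k | Near s v (g x)} := by
    refine ((isOpen_om k).inter ?_).measurableSet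
    exact (isOpen_near k s).preimage (Continuous.prodMk_left (g x))
  rw [← h1.measure_preimage h2.nullMeasurableSet]
  congr 1
  ext v
  simp only [mem_preimage, mem_ofPred_eq, near_map]
  have h3 : (fun i => g (v i)) ∈ Om E k ↔ v ∈ Om E k := by
    unfold Om
    simp only [mem_ofPred_eq, g.norm_map]
    have h4 : LinearIndependent ℝ (fun i => g (v i)) ↔ LinearIndependent ℝ v :=
      LinearMap.linearIndependent_iff (g.toLinearEquiv : E →ₗ[ℝ] E)
        (LinearMap.ker_eq_bot.mpr g.injective)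
    rw [h4]
  rw [h3]

theorem pp_eq (k : ℕ) (s : ℝ) {x y : E} (hx : x ≠ 0) (hy : y ≠ 0) : pp k s x = pp k s y := by
  have hxn : 0 < ‖x‖ := norm_pos_iff.mpr hx
  have hyn : 0 < ‖y‖ := norm_pos_iff.mpr hy
  have h1 : ‖x‖ = ‖(‖x‖ / ‖y‖) • y‖ := by
    rw [norm_smul, Real.norm_of_nonneg (by positivity)]
    field_simp
  have h2 := Submodule.reflection_sub h1
  have h3 := pp_map k s x ((ℝ ∙ (x - (‖x‖ / ‖y‖) • y))ᗮ.reflection)
  rw [h2, pp_smul k s y (by positivity)] at h3
  exact h3.symm

theorem fubini_near (k : ℕ) (s : ℝ) {U : Set E} (hU : MeasurableSet U) :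
    ∫⁻ v in Om E k, volume (U ∩ {x | Near s v x}) = ∫⁻ x in U, pp k s x := by
  have hT : MeasurableSet {q : (Fin k → E) × E | q.1 ∈ Om E k ∧ q.2 ∈ U ∧ Near s q.1 q.2} := by
    refine MeasurableSet.inter (measurable_fst (isOpen_om k).measurableSet) ?_
    exact (measurable_snd hU).inter (isOpen_near k s).measurableSet
  have h1 := Measure.prod_apply (μ := (volume : Measure (Fin k → E)))
    (ν := (volume : Measure E)) hT
  have h2 := Measure.prod_apply_symm (μ := (volume : Measure (Fin k → E)))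
    (ν := (volume : Measure E)) hT
  rw [h1] at h2
  rw [← lintegral_indicator (isOpen_om k).measurableSet, ← lintegral_indicator hU]
  convert h2 using 1
  · refine lintegral_congr fun v => ?_
    by_cases hv : v ∈ Om E k
    · rw [indicator_of_mem hv]
      congr 1
      ext x
      simp only [mem_inter_iff, mem_ofPred_eq, mem_preimage]
      tauto
    · rw [indicator_of_notMem hv]
      have : Prod.mk v ⁻¹' {q : (Fin k → E) × E | q.1 ∈ Om E k ∧ q.2 ∈ U ∧ Near s q.1 q.2} = ∅ := by
        ext x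
        simp only [mem_ofPred_eq, mem_preimage, mem_empty_iff_false]
        tauto
      rw [this, measure_empty]
  · refine lintegral_congr fun x => ?_
    by_cases hx : x ∈ U
    · rw [indicator_of_mem hx]
      unfold pp
      congr 1
      ext v
      simp only [mem_ofPred_eq, mem_preimage]
      tauto
    · rw [indicator_of_notMem hx]
      have : (fun v => (v, x)) ⁻¹' {q : (Fin k → E) × E | q.1 ∈ Om E k ∧ q.2 ∈ U ∧
          Near s q.1 q.2} = ∅ := by
        ext v
        simp only [mem_ofPred_eq, mem_preimage, mem_empty_iff_false]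
        tauto
      rw [this, measure_empty]

end Pool.Agent.H52R3.Cyl
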