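import Pool.Agent.H52R3.Cyl17

set_option autoImplicit false
set_option linter.unusedSectionVars false

/-!
# Greedy covering by random subspaces: the selection and the covering
-/

namespace Pool.Agent.H52R3.Cyl

open MeasureTheory Set Metric Module
open scoped ENNReal Real

variable {E : Type*} [NormedAddCommGroup E] [InnerProductSpace ℝ E] [FiniteDimensional ℝ E]
  [MeasurableSpace E] [BorelSpace E]

open Spread (X)

theorem near_meas (k : ℕ) (s : ℝ) (v : Fin k → E) : MeasurableSet {x | Near s v x} :=
  ((isOpen_near k s).preimage (Continuous.prodMk_right v)).measurableSet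

theorem select {k : ℕ} {s : ℝ} (hk : k ≤ finrank ℝ E) (hE : 0 < finrank ℝ E) {τ : ℝ≥0∞}
    (hτ : ∀ v ∈ Om E k, τ ≤ volume (X E ∩ {x | Near s v x}))
    {U : Set E} (hU : MeasurableSet U) (hUX : U ⊆ X E) :
    ∃ v ∈ Om E k, τ * volume U ≤ volume (X E) * volume (U ∩ {x | Near s v x}) := by
  by_contra hcon
  push Not at hcon
  have : Nontrivial E := Module.nontrivial_of_finrank_pos (R := ℝ) hE
  obtain ⟨x₀, hx₀⟩ := exists_ne (0 : E)
  have hpp : ∀ V : Set E, MeasurableSet V → V ⊆ X E →
      ∫⁻ x in V, pp k s x = pp k s x₀ * volume V := by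
    intro V hV hVX
    rw [setLIntegral_congr_fun (g := fun _ => pp k s x₀) hV, lintegral_const,
      Measure.restrict_apply_univ]
    intro x hx
    exact pp_eq k s (norm_pos_iff.mp (hVX hx).1) hx₀
  have hXm : MeasurableSet (X E) := Spread.measurableSet_X
  have h1 := fubini_near k s hXm
  have h2 := fubini_near k s hU
  rw [hpp _ hXm subset_rfl] at h1
  rw [hpp _ hU hUX] at h2
  have hXfin : volume (X E) ≠ ∞ := Spread.volume_ne_top subset_rfl
  have hUfin : volume U ≠ ∞ := Spread.volume_ne_top hUX
  have h3 : τ * volume (Om E k) ≤ pp k s x₀ * volume (X E) := by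
    rw [← h1, ← setLIntegral_const]
    exact setLIntegral_mono' (isOpen_om k).measurableSet hτ
  have hXne : volume (X E) ≠ 0 := by
    have h4 : ball (0 : E) 1 \ {0} ⊆ X E := by
      rintro x ⟨hx1, hx2⟩
      exact ⟨norm_pos_iff.mpr hx2, (mem_ball_zero_iff.mp hx1).le⟩
    have h5 : volume (ball (0 : E) 1 \ {0}) = volume (ball (0 : E) 1) :=
      measure_sdiff_null (measure_singleton _)
    intro h6
    have h7 := measure_mono_null h4 h6
    rw [h5] at h7
    exact (measure_ball_pos volume (0 : E) one_pos).ne' h7
  have hfin : ∫⁻ v in Om E k, volume (X E) * volume (U ∩ {x | Near s v x}) ≠ ∞ := by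
    rw [lintegral_const_mul' _ _ hXfin, h2]
    refine ENNReal.mul_ne_top hXfin (ENNReal.mul_ne_top ?_ hUfin)
    exact ((measure_mono (fun v hv => hv.1)).trans_lt (om_lt_top k).lt_top).ne
  have h8 := setLIntegral_strict_mono (μ := (volume : Measure (Fin k → E)))
    (f := fun v => volume (X E) * volume (U ∩ {x | Near s v x}))
    (g := fun _ => τ * volume U) (isOpen_om k).measurableSet (om_pos k hk)
    measurable_const hfin (Filter.Eventually.of_forall hcon)
  rw [lintegral_const_mul' _ _ hXfin, h2, setLIntegral_const] at h8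
  have h9 : τ * volume U * volume (Om E k) ≤ volume (X E) * (pp k s x₀ * volume U) := by
    calc τ * volume U * volume (Om E k) = τ * volume (Om E k) * volume U := by ring
      _ ≤ pp k s x₀ * volume (X E) * volume U := mul_le_mul' h3 le_rfl
      _ = volume (X E) * (pp k s x₀ * volume U) := by ring
  exact absurd h8 (not_lt.mpr h9)

theorem greedy {k : ℕ} {s : ℝ} (hk : k ≤ finrank ℝ E) (hE : 0 < finrank ℝ E) {τ : ℝ}
    (hτ0 : 0 ≤ τ) (hτX : τ ≤ volume.real (X E))
    (hτ : ∀ v ∈ Om E k, τ ≤ volume.real (X E ∩ {x | Near s v x})) (n : ℕ) :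
    ∃ F : Finset (Fin k → E), F.card ≤ n ∧ (∀ v ∈ F, v ∈ Om E k) ∧
      volume.real (X E \ ⋃ v ∈ F, {x | Near s v x}) ≤
        (1 - τ / volume.real (X E)) ^ n * volume.real (X E) := by
  classical
  have hXfin : volume (X E) ≠ ∞ := Spread.volume_ne_top subset_rfl
  have hXm : MeasurableSet (X E) := Spread.measurableSet_X
  induction n with
  | zero =>
    refine ⟨∅, by simp, by simp, ?_⟩
    rw [pow_zero, one_mul]
    exact measureReal_mono Set.sdiff_subset hXfin
  | succ n ih =>
    obtain ⟨F, hFc, hF, hFv⟩ := ih
    set U : Set E := X E \ ⋃ v ∈ F, {x | Near s v x} with hU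
    have hUm : MeasurableSet U :=
      hXm.diff (Finset.measurableSet_biUnion _ fun v _ => near_meas k s v)
    have hUX : U ⊆ X E := Set.sdiff_subset
    have hUfin : volume U ≠ ∞ := Spread.volume_ne_top hUX
    obtain ⟨v, hv, hvU⟩ := select (s := s) (τ := ENNReal.ofReal τ) hk hE (by
      intro v hv
      rw [ENNReal.ofReal_le_iff_le_toReal (Spread.volume_ne_top inter_subset_left)]
      exact hτ v hv) hUm hUX
    refine ⟨insert v F, (Finset.card_insert_le _ _).trans (by omega), ?_, ?_⟩
    · intro w hw
      rcases Finset.mem_insert.mp hw with rfl | hw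
      · exact hv
      · exact hF w hw
    · have h1 : X E \ ⋃ w ∈ insert v F, {x | Near s w x} = U \ (U ∩ {x | Near s v x}) := by
        ext x
        simp only [hU, Set.mem_sdiff, mem_iUnion, Finset.mem_insert, mem_ofPred_eq, mem_inter_iff,
          exists_prop, not_exists, not_and]
        constructor
        · rintro ⟨h1, h2⟩
          exact ⟨⟨h1, fun w hw => h2 w (Or.inr hw)⟩, fun _ => h2 v (Or.inl rfl)⟩
        · rintro ⟨⟨h1, h2⟩, h3⟩
          refine ⟨h1, ?_⟩
          rintro w (rfl | hw)
          · exact h3 ⟨h1, h2⟩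
          · exact h2 w hw
      have h2 : volume.real (U \ (U ∩ {x | Near s v x})) =
          volume.real U - volume.real (U ∩ {x | Near s v x}) :=
        measureReal_sdiff inter_subset_left (hUm.inter (near_meas k s v)) hUfin
      rw [h1, h2]
      have hX0 : 0 ≤ volume.real (X E) := measureReal_nonneg
      have hU0 : 0 ≤ volume.real U := measureReal_nonneg
      have h3 : τ * volume.real U ≤ volume.real (X E) * volume.real (U ∩ {x | Near s v x}) := by
        have h4 := ENNReal.toReal_mono (ENNReal.mul_ne_top hXfin
          (Spread.volume_ne_top (inter_subset_left.trans hUX))) hvU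
        rw [ENNReal.toReal_mul, ENNReal.toReal_mul, ENNReal.toReal_ofReal hτ0] at h4
        exact h4
      rcases hX0.eq_or_lt with h0 | h0
      · have hUle : volume.real U ≤ 0 := by
          rw [h0]
          exact measureReal_mono hUX hXfin
        rw [← h0, mul_zero]
        have : 0 ≤ volume.real (U ∩ {x | Near s v x}) := measureReal_nonneg
        linarith
      · have h5 : τ / volume.real (X E) * volume.real U ≤
            volume.real (U ∩ {x | Near s v x}) := by
          rw [div_mul_eq_mul_div, div_le_iff₀ h0]
          linarith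
        have h6 : 0 ≤ 1 - τ / volume.real (X E) := by
          have := (div_le_one h0).mpr hτX
          linarith
        calc volume.real U - volume.real (U ∩ {x | Near s v x})
            ≤ (1 - τ / volume.real (X E)) * volume.real U := by linarith
          _ ≤ (1 - τ / volume.real (X E)) *
              ((1 - τ / volume.real (X E)) ^ n * volume.real (X E)) :=
              mul_le_mul_of_nonneg_left hFv h6
          _ = (1 - τ / volume.real (X E)) ^ (n + 1) * volume.real (X E) := by
              rw [pow_succ]
              ring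

end Pool.Agent.H52R3.Cyl
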