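import Pool.Agent.H52R3.Cyl18

set_option autoImplicit false
set_option linter.unusedSectionVars false

/-!
# Greedy covering by random subspaces: the upper bound
-/

namespace Pool.Agent.H52R3.Cyl

open MeasureTheory Set Metric Module
open scoped ENNReal Real

variable {E : Type*} [NormedAddCommGroup E] [InnerProductSpace ℝ E] [FiniteDimensional ℝ E]
  [MeasurableSpace E] [BorelSpace E]

open Spread (X)

theorem sub_proj (H : Submodule ℝ E) (x : E) :
    x - (H.orthogonalProjectionOnto x : E) = (Hᗮ.orthogonalProjectionOnto x : E) := by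
  have h1 := H.orthogonalDecomposition.symm_apply_apply x
  rw [Submodule.orthogonalDecomposition_apply] at h1
  have h2 : x = (H.orthogonalProjectionOnto x : E) + (Hᗮ.orthogonalProjectionOnto x : E) := by
    nth_rw 1 [← h1]
    simp
  nth_rw 1 [h2]
  abel

theorem near_of_tube {k : ℕ} {s' s : ℝ} (hss : s' < s) (v : Fin k → E) {x : E}
    (hx : x ∈ tube (Submodule.span ℝ (range v)) s') : Near s v x := by
  have hn : 0 < ‖x‖ := hx.1
  have h1 : ‖(Submodule.span ℝ (range v))ᗮ.orthogonalProjectionOnto x‖ ≤ s' * ‖x‖ := by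
    have h := hx.2.2
    rw [mem_closedBall_zero_iff, map_smul, norm_smul, norm_inv, norm_norm,
      inv_mul_le_iff₀ hn] at h
    linarith
  obtain ⟨c, hc⟩ := (Submodule.mem_span_range_iff_exists_fun ℝ).mp
    ((Submodule.span ℝ (range v)).orthogonalProjectionOnto x).2
  refine ⟨c, ?_⟩
  rw [hc, sub_proj]
  calc ‖((Submodule.span ℝ (range v))ᗮ.orthogonalProjectionOnto x : E)‖
      = ‖(Submodule.span ℝ (range v))ᗮ.orthogonalProjectionOnto x‖ := rfl
    _ ≤ s' * ‖x‖ := h1
    _ < s * ‖x‖ := by gcongr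

theorem proj_le_of_near {k : ℕ} {s : ℝ} {v : Fin k → E} {x : E} (h : Near s v x) :
    ‖(Submodule.span ℝ (range v))ᗮ.orthogonalProjectionOnto x‖ < s * ‖x‖ := by
  obtain ⟨c, hc⟩ := h
  have h1 : ∑ i, c i • v i ∈ Submodule.span ℝ (range v) :=
    Submodule.sum_mem _ fun i _ => Submodule.smul_mem _ _ (Submodule.subset_span ⟨i, rfl⟩)
  have h2 : (Submodule.span ℝ (range v))ᗮ.orthogonalProjectionOnto x =
      (Submodule.span ℝ (range v))ᗮ.orthogonalProjectionOnto (x - ∑ i, c i • v i) := by
    rw [map_sub, proj_zero_of_mem _ h1, sub_zero]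
  rw [h2]
  exact (Submodule.norm_orthogonalProjectionOnto_apply_le _ _).trans_lt hc

/-- the lower bound for the volume of a tube -/
noncomputable def tau (d k : ℕ) (s : ℝ) : ℝ := aa d k * s ^ (d - k) * (√(1 + s ^ 2))⁻¹ ^ d

theorem tau_pos {d k : ℕ} (hk : 0 < k) (hkd : k < d) {s : ℝ} (hs : 0 < s) : 0 < tau d k s := by
  have h1 := aa_pos hk hkd
  have h2 : 0 < √(1 + s ^ 2) := Real.sqrt_pos.mpr (by positivity)
  unfold tau
  positivity

theorem tau_le {k : ℕ} (hk : 0 < k) (hkE : k < finrank ℝ E) {s' s : ℝ} (hs' : 0 < s')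
    (hss : s' < s) {v : Fin k → E} (hv : v ∈ Om E k) :
    tau (finrank ℝ E) k s' ≤ volume.real (X E ∩ {x | Near s v x}) := by
  have hfr : finrank ℝ (Submodule.span ℝ (range v)) = k := by
    rw [finrank_span_eq_card hv.1, Fintype.card_fin]
  have h1 := tube_vol_ge (Submodule.span ℝ (range v)) hk hfr hkE hs'
  have h2 : tube (Submodule.span ℝ (range v)) s' ⊆ X E ∩ {x | Near s v x} := fun x hx =>
    ⟨⟨hx.1, hx.2.1⟩, near_of_tube hss v hx⟩
  have h3 : volume (X E ∩ {x | Near s v x}) ≠ ∞ := Spread.volume_ne_top inter_subset_left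
  exact (ENNReal.ofReal_le_iff_le_toReal h3).mp (h1.trans (measure_mono h2))

open Pool.Agent.H52R3.CylDef in
theorem good_le_greedy {k : ℕ} (hk : 0 < k) (hkE : k < finrank ℝ E) {s' s η : ℝ} (hs' : 0 < s')
    (hss : s' < s) (hη : 0 < η) (hη1 : η ≤ 1) {n : ℕ}
    (hn : (1 - tau (finrank ℝ E) k s' / kap (finrank ℝ E)) ^ n < (η / 2) ^ (finrank ℝ E))
    {c : ℝ} (hc : c ∈ Good E k) : c ≤ n * (s + η) ^ (finrank ℝ E - k) := by
  classical
  have hE : 0 < finrank ℝ E := by omega
  have : Nontrivial E := Module.nontrivial_of_finrank_pos (R := ℝ) hE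
  set d := finrank ℝ E with hd
  set τ := tau d k s' with hτ
  have hτ0 : 0 < τ := tau_pos hk hkE hs'
  have hκ : 0 < kap d := kap_pos d
  have hs : 0 < s := hs'.trans hss
  obtain ⟨v₀, hv₀⟩ := om_nonempty (E := E) k hkE.le
  have hτX : τ ≤ volume.real (X E) :=
    (tau_le hk hkE hs' hss hv₀).trans (measureReal_mono inter_subset_left
      (Spread.volume_ne_top subset_rfl))
  have hXκ : volume.real (X E) ≤ kap d := Spread.volume_X_le hE
  obtain ⟨F, hFc, hF, hFv⟩ := greedy (E := E) (s := s) hkE.le hE hτ0.le hτX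
    (fun v hv => tau_le hk hkE hs' hss hv) n
  have hX0 : 0 < volume.real (X E) := hτ0.trans_le hτX
  have hrest : volume.real (X E \ ⋃ v ∈ F, {x | Near s v x}) < (η / 2) ^ d * kap d := by
    refine hFv.trans_lt ?_
    have h1 : 0 ≤ 1 - τ / volume.real (X E) := by
      have := (div_le_one hX0).mpr hτX
      linarith
    have h2 : 1 - τ / volume.real (X E) ≤ 1 - τ / kap d := by
      have : τ / kap d ≤ τ / volume.real (X E) := by gcongr
      linarith
    have h3 : (1 - τ / volume.real (X E)) ^ n ≤ (1 - τ / kap d) ^ n :=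
      pow_le_pow_left₀ h1 h2 n
    calc (1 - τ / volume.real (X E)) ^ n * volume.real (X E)
        ≤ (1 - τ / kap d) ^ n * kap d := by
          have := pow_nonneg (h1.trans h2) n
          exact mul_le_mul h3 hXκ hX0.le this
      _ < (η / 2) ^ d * kap d := by gcongr
  -- every point of the ball is near one of the subspaces
  have hcov : ∀ y : E, ‖y‖ ≤ 1 → ∃ v ∈ F,
      ‖(Submodule.span ℝ (range v))ᗮ.orthogonalProjectionOnto y‖ ≤ s + η := by
    intro y hy
    by_contra hcon
    push Not at hcon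
    have hsub : ball ((1 - η / 2) • y) (η / 2) \ {0} ⊆
        X E \ ⋃ v ∈ F, {x | Near s v x} := by
      rintro x ⟨hx1, hx2⟩
      rw [mem_ball, dist_eq_norm] at hx1
      have hxn : ‖x‖ ≤ 1 := by
        have h1 : ‖x‖ ≤ ‖x - (1 - η / 2) • y‖ + ‖(1 - η / 2) • y‖ := by
          have := norm_add_le (x - (1 - η / 2) • y) ((1 - η / 2) • y)
          rwa [sub_add_cancel] at this
        have h2 : ‖(1 - η / 2) • y‖ ≤ 1 - η / 2 := by
          rw [norm_smul, Real.norm_of_nonneg (by linarith)]
          have : 0 ≤ 1 - η / 2 := by linarith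
          nlinarith
        linarith
      have hxy : ‖y - x‖ ≤ η := by
        have h1 : y - x = -(x - (1 - η / 2) • y) + (η / 2) • y := by module
        rw [h1]
        refine (norm_add_le _ _).trans ?_
        rw [norm_neg, norm_smul, Real.norm_of_nonneg (by positivity)]
        have : η / 2 * ‖y‖ ≤ η / 2 * 1 := by gcongr
        linarith
      refine ⟨⟨norm_pos_iff.mpr hx2, hxn⟩, ?_⟩
      intro hx3
      obtain ⟨v, hv, hxv⟩ := mem_iUnion₂.mp hx3
      have h3 := proj_le_of_near hxv
      have h4 : s * ‖x‖ ≤ s := by nlinarith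
      have h5 : ‖(Submodule.span ℝ (range v))ᗮ.orthogonalProjectionOnto y‖ ≤
          ‖(Submodule.span ℝ (range v))ᗮ.orthogonalProjectionOnto (y - x)‖ +
          ‖(Submodule.span ℝ (range v))ᗮ.orthogonalProjectionOnto x‖ := by
        have h6 : (Submodule.span ℝ (range v))ᗮ.orthogonalProjectionOnto y =
            (Submodule.span ℝ (range v))ᗮ.orthogonalProjectionOnto (y - x) +
            (Submodule.span ℝ (range v))ᗮ.orthogonalProjectionOnto x := by
          rw [← map_add, sub_add_cancel]
        rw [h6]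
        exact norm_add_le _ _
      have h7 := Submodule.norm_orthogonalProjectionOnto_apply_le
        (Submodule.span ℝ (range v))ᗮ (y - x)
      have h8 := hcon v hv
      linarith
    have h1 : volume.real (ball ((1 - η / 2) • y) (η / 2) \ {0}) = (η / 2) ^ d * kap d := by
      have h2 : volume (ball ((1 - η / 2) • y) (η / 2) \ {0}) =
          ENNReal.ofReal ((η / 2) ^ d * kap d) := by
        rw [measure_sdiff_null (measure_singleton _), Measure.addHaar_ball _ _ (by positivity),
          volume_ball_kap hE, ← ENNReal.ofReal_mul (by positivity)]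
      rw [Measure.real, h2, ENNReal.toReal_ofReal (by positivity)]
    have h2 := measureReal_mono (μ := (volume : Measure E)) hsub
      (Spread.volume_ne_top Set.sdiff_subset)
    rw [h1] at h2
    exact absurd h2 (not_le.mpr hrest)
  -- the cylinders
  have hsη : 0 < s + η := by positivity
  let e := F.equivFin.symm
  have hdim : ∀ v ∈ F, finrank ℝ (Submodule.span ℝ (range v)) = k := by
    intro v hv
    rw [finrank_span_eq_card (hF v hv).1, Fintype.card_fin]
  let C : Fin F.card → Cylinder E k := fun j =>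
    ⟨Submodule.span ℝ (range (e j).1), hdim _ (e j).2, closedBall 0 (s + η),
      isClosed_closedBall.measurableSet.nullMeasurableSet⟩
  have hcrv : ∀ j, (C j).crv (closedBall 0 1) = ENNReal.ofReal ((s + η) ^ (d - k)) := by
    intro j
    change volume (closedBall (0 : (Submodule.span ℝ (range (e j).1))ᗮ) (s + η)) /
      volume (Cyl.shadow (Submodule.span ℝ (range (e j).1)) (closedBall (0 : E) 1)) = _
    have hm : finrank ℝ (Submodule.span ℝ (range (e j).1))ᗮ = d - k := by
      have := (Submodule.span ℝ (range (e j).1)).finrank_add_finrank_orthogonal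
      rw [hdim _ (e j).2] at this
      omega
    have : Nontrivial (Submodule.span ℝ (range (e j).1))ᗮ :=
      Module.nontrivial_of_finrank_pos (R := ℝ) (by rw [hm]; omega)
    rw [Cyl.shadow_ball, Measure.addHaar_closedBall _ _ hsη.le,
      Measure.addHaar_closedBall_eq_addHaar_ball, hm, mul_div_assoc, ENNReal.div_self, mul_one]
    · exact (measure_ball_pos _ _ one_pos).ne'
    · exact measure_ball_lt_top.ne
  have hsub : closedBall (0 : E) 1 ⊆ ⋃ j, (C j).toSet := by
    intro y hy
    rw [mem_closedBall_zero_iff] at hy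
    obtain ⟨v, hv, hvy⟩ := hcov y hy
    refine mem_iUnion.mpr ⟨e.symm ⟨v, hv⟩, ?_⟩
    change y ∈ Cyl.cyl (Submodule.span ℝ (range (e (e.symm ⟨v, hv⟩)).1)) (closedBall 0 (s + η))
    rw [e.apply_symm_apply, Cyl.mem_cyl_iff, mem_closedBall_zero_iff]
    exact hvy
  have h1 := hc _ isEllipsoid_ball _ C hsub
  simp_rw [hcrv] at h1
  rw [Finset.sum_const, Finset.card_univ, Fintype.card_fin, nsmul_eq_mul,
    ← ENNReal.ofReal_natCast, ← ENNReal.ofReal_mul (by positivity),
    ENNReal.ofReal_le_ofReal_iff (by positivity)] at h1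
  refine h1.trans ?_
  have : (F.card : ℝ) ≤ n := by exact_mod_cast hFc
  gcongr

end Pool.Agent.H52R3.Cyl
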