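import Pool.Agent.H52R3.Cyl1

set_option autoImplicit false

/-!
# Coverings of the unit ball by cylinders: the volume inequality
-/

namespace Pool.Agent.H52R3.Cyl

open MeasureTheory Set Metric Module
open scoped ENNReal

variable {E : Type*} [NormedAddCommGroup E] [InnerProductSpace ℝ E] [FiniteDimensional ℝ E]
  [MeasurableSpace E] [BorelSpace E]

/-- the map `x ↦ (P_{H⊥} x, P_H x)` preserves the volume -/
theorem measurePreserving_split (H : Submodule ℝ E) :
    MeasurePreserving (fun x : E =>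
      ((Hᗮ.orthogonalProjectionOnto x, H.orthogonalProjectionOnto x) : Hᗮ × H))
      volume volume := by
  have h1 := H.orthogonalDecomposition.measurePreserving
  have h2 := WithLp.volume_preserving_ofLp H Hᗮ
  have h3 : MeasurePreserving (Prod.swap : H × Hᗮ → Hᗮ × H) volume volume :=
    Measure.measurePreserving_swap
  have h4 := h3.comp (h2.comp h1)
  have h5 : (fun x : E =>
      ((Hᗮ.orthogonalProjectionOnto x, H.orthogonalProjectionOnto x) : Hᗮ × H)) =
      (Prod.swap ∘ (@WithLp.ofLp 2 (H × Hᗮ)) ∘ H.orthogonalDecomposition) := by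
    funext x
    simp
  rw [h5]
  exact h4

theorem measurableSet_cone {U W : Type*} [NormedAddCommGroup U] [InnerProductSpace ℝ U]
    [FiniteDimensional ℝ U]
    [MeasurableSpace U] [BorelSpace U] [NormedAddCommGroup W] [InnerProductSpace ℝ W]
    [FiniteDimensional ℝ W] [MeasurableSpace W] [BorelSpace W] {B : Set U}
    (hB : MeasurableSet B) :
    MeasurableSet {p : U × W | 0 < ‖p.1‖ ^ 2 + ‖p.2‖ ^ 2 ∧ ‖p.1‖ ^ 2 + ‖p.2‖ ^ 2 ≤ 1 ∧
        (√(‖p.1‖ ^ 2 + ‖p.2‖ ^ 2))⁻¹ • p.1 ∈ B} := by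
  have hg : Measurable (fun p : U × W => (√(‖p.1‖ ^ 2 + ‖p.2‖ ^ 2))) := by fun_prop
  have h1 : Measurable (fun p : U × W => (√(‖p.1‖ ^ 2 + ‖p.2‖ ^ 2))⁻¹ • p.1) :=
    hg.inv.smul measurable_fst
  have h2 : Measurable (fun p : U × W => ‖p.1‖ ^ 2 + ‖p.2‖ ^ 2) := by fun_prop
  exact (measurableSet_lt measurable_const h2).inter
    ((measurableSet_le h2 measurable_const).inter (h1 hB))

theorem cone_volume_le (H : Submodule ℝ E) {B : Set Hᗮ} (hB : MeasurableSet B)
    (hk : 2 ≤ finrank ℝ H) :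
    volume {x : E | 0 < ‖x‖ ∧ ‖x‖ ≤ 1 ∧ Hᗮ.orthogonalProjectionOnto (‖x‖⁻¹ • x) ∈ B} ≤
      (finrank ℝ H * volume (ball (0 : H) 1)) *
        (ENNReal.ofReal (1 / (finrank ℝ E : ℝ)) * volume (B ∩ ball 0 1)) := by
  have h1 := (measurePreserving_split H).measure_preimage
    (measurableSet_cone (U := Hᗮ) (W := H) hB).nullMeasurableSet
  have h2 := cone_le (U := Hᗮ) (W := H) hB hk
  rw [← h1] at h2
  have h3 : (finrank ℝ Hᗮ : ℝ) + finrank ℝ H = finrank ℝ E := by
    have := H.finrank_add_finrank_orthogonal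
    rw [← this]
    push_cast
    ring
  rw [h3] at h2
  refine le_trans (measure_mono ?_) h2
  rintro x ⟨hx0, hx1, hx2⟩
  have h4 : ‖Hᗮ.orthogonalProjectionOnto x‖ ^ 2 + ‖H.orthogonalProjectionOnto x‖ ^ 2 =
      ‖x‖ ^ 2 := by
    rw [Submodule.norm_sq_eq_add_norm_sq_projection x H]
    ring
  simp only [mem_preimage, mem_setOf_eq]
  rw [h4, Real.sqrt_sq (norm_nonneg x)]
  refine ⟨by positivity, by nlinarith, ?_⟩
  rw [map_smul] at hx2
  exact hx2

/-- the cylinder `H + B` -/
def cyl (H : Submodule ℝ E) (B : Set Hᗮ) : Set E :=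
  {x : E | ∃ h ∈ H, ∃ b ∈ B, x = h + (b : E)}

theorem mem_cyl_iff (H : Submodule ℝ E) (B : Set Hᗮ) (x : E) :
    x ∈ cyl H B ↔ Hᗮ.orthogonalProjectionOnto x ∈ B := by
  constructor
  · rintro ⟨h, hh, b, hb, rfl⟩
    have h1 : Hᗮ.orthogonalProjectionOnto (h + (b : E)) = b := by
      rw [map_add, Submodule.orthogonalProjectionOnto_mem_subspace_eq_self]
      have : Hᗮ.orthogonalProjectionOnto h = 0 := by
        rw [Submodule.orthogonalProjectionOnto_eq_zero_iff]
        rw [Submodule.orthogonal_orthogonal]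
        exact hh
      rw [this, zero_add]
    rw [h1]
    exact hb
  · intro h
    refine ⟨H.orthogonalProjectionOnto x, Submodule.coe_mem _, _, h, ?_⟩
    have := H.orthogonalDecomposition.symm_apply_apply x
    rw [Submodule.orthogonalDecomposition_apply] at this
    rw [← this]
    simp

/-- the volume inequality for coverings of the unit ball by cylinders whose direction spaces have
dimension at least two -/
theorem ball_le {ι : Type*} [Fintype ι] (H : ι → Submodule ℝ E) (B : ∀ i, Set (H i)ᗮ)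
    (hk : ∀ i, 2 ≤ finrank ℝ (H i))
    (hcov : closedBall (0 : E) 1 ⊆ ⋃ i, cyl (H i) (B i)) (hE : 0 < finrank ℝ E) :
    volume (closedBall (0 : E) 1) ≤ ∑ i, (finrank ℝ (H i) * volume (ball (0 : H i) 1)) *
        (ENNReal.ofReal (1 / (finrank ℝ E : ℝ)) * volume (B i)) := by
  have : Nontrivial E := Module.nontrivial_of_finrank_pos (R := ℝ) hE
  have h1 : closedBall (0 : E) 1 ⊆ {0} ∪ ⋃ i, {x : E | 0 < ‖x‖ ∧ ‖x‖ ≤ 1 ∧
      (H i)ᗮ.orthogonalProjectionOnto (‖x‖⁻¹ • x) ∈ toMeasurable volume (B i)} := by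
    intro x hx
    by_cases h0 : x = 0
    · left
      exact h0
    · right
      have hn : 0 < ‖x‖ := norm_pos_iff.mpr h0
      have hx1 : ‖x‖ ≤ 1 := by simpa using hx
      have h2 : ‖x‖⁻¹ • x ∈ closedBall (0 : E) 1 := by
        rw [mem_closedBall_zero_iff, norm_smul, norm_inv, norm_norm, inv_mul_cancel₀ hn.ne']
      obtain ⟨i, hi⟩ := mem_iUnion.mp (hcov h2)
      rw [mem_cyl_iff] at hi
      exact mem_iUnion.mpr ⟨i, hn, hx1, subset_toMeasurable _ _ hi⟩
  refine (measure_mono h1).trans ?_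
  refine (measure_union_le _ _).trans ?_
  rw [measure_singleton, zero_add]
  refine (measure_iUnion_fintype_le _ _).trans ?_
  refine Finset.sum_le_sum fun i _ => ?_
  refine (cone_volume_le (H i) (measurableSet_toMeasurable _ _) (hk i)).trans ?_
  refine mul_le_mul' le_rfl (mul_le_mul' le_rfl ?_)
  refine (measure_mono inter_subset_left).trans ?_
  rw [measure_toMeasurable]

end Pool.Agent.H52R3.Cyl
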