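import Pool.Agent.H52R3.Cyl19

set_option autoImplicit false
set_option linter.unusedSectionVars false

/-!
# The upper bound up to a factor of order `d log d`
-/

namespace Pool.Agent.H52R3.Cyl

open MeasureTheory Set Metric Module
open scoped ENNReal Real

variable {E : Type*} [NormedAddCommGroup E] [InnerProductSpace ℝ E] [FiniteDimensional ℝ E]
  [MeasurableSpace E] [BorelSpace E]

open Spread (X)

open Pool.Agent.H52R3.CylDef in
theorem good_le_log {k : ℕ} (hk : 0 < k) (hkE : k < finrank ℝ E) {c : ℝ} (hc : c ∈ Good E k) :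
    c ≤ Real.exp (5 / 2) *
      (finrank ℝ E * Real.log (2 * (finrank ℝ E * √(finrank ℝ E))) + 1) *
      (kap (finrank ℝ E) / aa (finrank ℝ E) k) := by
  have hE : 0 < finrank ℝ E := by omega
  set d := finrank ℝ E with hd
  have ha : 0 < aa d k := aa_pos hk hkE
  have hκ : 0 < kap d := kap_pos d
  have hd1 : (1 : ℝ) ≤ d := by exact_mod_cast hE
  have hd0 : (0 : ℝ) < d := by linarith
  have hsq : 0 < √(d : ℝ) := Real.sqrt_pos.mpr hd0
  have hsq1 : 1 ≤ √(d : ℝ) := Real.one_le_sqrt.mpr hd1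
  set r : ℝ := (√(d : ℝ))⁻¹ with hr
  have hr0 : 0 < r := inv_pos.mpr hsq
  have hr1 : r ≤ 1 := inv_le_one_of_one_le₀ hsq1
  have hr2 : r ^ 2 = 1 / d := by
    rw [hr, inv_pow, Real.sq_sqrt hd0.le, one_div]
  set η : ℝ := r / d with hη
  have hη0 : 0 < η := by positivity
  have hη1 : η ≤ 1 := by
    rw [hη, div_le_one hd0]
    linarith
  set s : ℝ := r * (1 + 1 / d) with hs
  have hrs : r < s := by
    rw [hs]
    have : 0 < 1 / (d : ℝ) := by positivity
    nlinarith
  set τ := tau d k r with hτ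
  have hτ0 : 0 < τ := tau_pos hk hkE hr0
  have hτκ : τ ≤ kap d := by
    obtain ⟨v₀, hv₀⟩ := om_nonempty (E := E) k hkE.le
    exact ((tau_le hk hkE hr0 hrs hv₀).trans (measureReal_mono inter_subset_left
      (Spread.volume_ne_top subset_rfl))).trans (Spread.volume_X_le hE)
  set q := τ / kap d with hq
  have hq0 : 0 < q := by positivity
  have hq1 : q ≤ 1 := (div_le_one hκ).mpr hτκ
  set Lg := Real.log (2 / η) with hLg
  have h2η : 1 ≤ 2 / η := by
    rw [le_div_iff₀ hη0]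
    linarith
  have hLg0 : 0 ≤ Lg := Real.log_nonneg h2η
  set N : ℕ := ⌊1 / q * (d * Lg)⌋₊ + 1 with hN
  have hNgt : 1 / q * (d * Lg) < N := by
    rw [hN]
    push_cast
    exact Nat.lt_floor_add_one _
  have hNle : (N : ℝ) ≤ 1 / q * (d * Lg) + 1 := by
    rw [hN]
    push_cast
    have := Nat.floor_le (show 0 ≤ 1 / q * (d * Lg) by positivity)
    linarith
  have hpow : (1 - q) ^ N < (η / 2) ^ d := by
    have h1 : (1 - q) ^ N ≤ Real.exp (-q) ^ N :=
      pow_le_pow_left₀ (by linarith) (Real.one_sub_le_exp_neg q) N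
    have h2 : Real.exp (-q) ^ N = Real.exp (-(q * N)) := by
      rw [← Real.exp_nat_mul]
      congr 1
      ring
    have h3 : (η / 2) ^ d = Real.exp (-(d * Lg)) := by
      have h4 : η / 2 = Real.exp (-Lg) := by
        rw [hLg, Real.exp_neg, Real.exp_log (by positivity), inv_div]
      rw [h4, ← Real.exp_nat_mul]
      congr 1
      ring
    rw [h3]
    refine h1.trans_lt ?_
    rw [h2, Real.exp_lt_exp, neg_lt_neg_iff]
    rw [one_div, inv_mul_lt_iff₀ hq0] at hNgt
    exact hNgt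
  have hmain := good_le_greedy hk hkE hr0 hrs hη0 hη1 hpow hc
  -- estimates
  have hsη : s + η = r * (1 + 2 / d) := by
    rw [hs, hη]
    ring
  have hm : (1 + 2 / (d : ℝ)) ^ (d - k) ≤ Real.exp 2 := by
    have h1 : 1 + 2 / (d : ℝ) ≤ Real.exp (2 / d) := by
      have := Real.add_one_le_exp (2 / (d : ℝ))
      linarith
    have h2 : (1 + 2 / (d : ℝ)) ^ (d - k) ≤ Real.exp (2 / d) ^ (d - k) :=
      pow_le_pow_left₀ (by positivity) h1 _
    refine h2.trans ?_
    rw [← Real.exp_nat_mul, Real.exp_le_exp]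
    have h3 : ((d - k : ℕ) : ℝ) ≤ d := by exact_mod_cast Nat.sub_le d k
    calc ((d - k : ℕ) : ℝ) * (2 / d) ≤ d * (2 / d) := by gcongr
      _ = 2 := by field_simp
  have hsqd : √(1 + r ^ 2) ^ d ≤ Real.exp (1 / 2) := by
    have h1 : √(1 + r ^ 2) ≤ Real.exp (1 / (2 * d)) := by
      rw [Real.sqrt_le_left (Real.exp_pos _).le, ← Real.exp_nat_mul, hr2]
      have h2 := Real.add_one_le_exp (1 / (d : ℝ))
      have h3 : ((2 : ℕ) : ℝ) * (1 / (2 * d)) = 1 / d := by
        push_cast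
        field_simp
      rw [h3]
      linarith
    refine (pow_le_pow_left₀ (Real.sqrt_nonneg _) h1 d).trans ?_
    rw [← Real.exp_nat_mul, Real.exp_le_exp]
    have : (d : ℝ) * (1 / (2 * d)) = 1 / 2 := by field_simp
    rw [this]
  have hqr : 1 / q * r ^ (d - k) = kap d / aa d k * √(1 + r ^ 2) ^ d := by
    have h1 : 0 < √(1 + r ^ 2) := Real.sqrt_pos.mpr (by positivity)
    rw [hq, hτ]
    unfold tau
    have h2 : (√(1 + r ^ 2))⁻¹ ^ d * √(1 + r ^ 2) ^ d = 1 := by
      rw [← mul_pow, inv_mul_cancel₀ h1.ne', one_pow]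
    have h3 : 0 < (√(1 + r ^ 2))⁻¹ ^ d := by positivity
    have h4 : √(1 + r ^ 2) ^ d = ((√(1 + r ^ 2))⁻¹ ^ d)⁻¹ := eq_inv_of_mul_eq_one_right h2
    rw [h4]
    set z := (√(1 + r ^ 2))⁻¹ ^ d
    field_simp
  have h1q : 1 ≤ 1 / q := by
    rw [le_div_iff₀ hq0]
    linarith
  have hN2 : (N : ℝ) ≤ 1 / q * (d * Lg + 1) := by
    rw [mul_add, mul_one]
    linarith
  have hLgeq : Lg = Real.log (2 * (d * √(d : ℝ))) := by
    rw [hLg, hη, hr]
    congr 1
    field_simp
  have hG : 0 < kap d / aa d k := by positivity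
  calc c ≤ N * (s + η) ^ (d - k) := hmain
    _ ≤ (1 / q * (d * Lg + 1)) * (r ^ (d - k) * Real.exp 2) := by
        rw [hsη, mul_pow]
        gcongr
    _ = (1 / q * r ^ (d - k)) * ((d * Lg + 1) * Real.exp 2) := by ring
    _ = kap d / aa d k * √(1 + r ^ 2) ^ d * ((d * Lg + 1) * Real.exp 2) := by rw [hqr]
    _ ≤ kap d / aa d k * Real.exp (1 / 2) * ((d * Lg + 1) * Real.exp 2) := by gcongr
    _ = (Real.exp (1 / 2) * Real.exp 2) * (d * Lg + 1) * (kap d / aa d k) := by ring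
    _ = Real.exp (5 / 2) * (d * Real.log (2 * (d * √(d : ℝ))) + 1) * (kap d / aa d k) := by
        rw [← Real.exp_add, ← hLgeq]
        norm_num

end Pool.Agent.H52R3.Cyl
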