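import Pool.Agent.H52R3.Cyl2

set_option autoImplicit false

/-!
# Coverings of the unit ball by cylinders: the bound with Gamma values
-/

namespace Pool.Agent.H52R3.Cyl

open MeasureTheory Set Metric Module
open scoped ENNReal Real

variable {E : Type*} [NormedAddCommGroup E] [InnerProductSpace ℝ E] [FiniteDimensional ℝ E]
  [MeasurableSpace E] [BorelSpace E]

theorem ball_bound {ι : Type*} [Fintype ι] (H : ι → Submodule ℝ E) (B : ∀ i, Set (H i)ᗮ)
    {k : ℕ} (hk2 : 2 ≤ k) (hk : ∀ i, finrank ℝ (H i) = k) (hkE : k ≤ finrank ℝ E)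
    (hcov : closedBall (0 : E) 1 ⊆ ⋃ i, cyl (H i) (B i)) :
    ENNReal.ofReal (√π ^ (finrank ℝ E - k) * Real.Gamma ((k : ℝ) / 2) /
      Real.Gamma ((finrank ℝ E : ℝ) / 2)) ≤ ∑ i, volume (B i) := by
  have hE : 0 < finrank ℝ E := by omega
  have : Nontrivial E := Module.nontrivial_of_finrank_pos (R := ℝ) hE
  have h1 := ball_le H B (fun i => by rw [hk i]; exact hk2) hcov hE
  set d := finrank ℝ E with hd
  have hdR : (0 : ℝ) < d := by exact_mod_cast hE
  have hkR : (0 : ℝ) < k := by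
    have : 0 < k := by omega
    exact_mod_cast this
  have hGd : 0 < Real.Gamma ((d : ℝ) / 2) := Real.Gamma_pos_of_pos (by positivity)
  have hGk : 0 < Real.Gamma ((k : ℝ) / 2) := Real.Gamma_pos_of_pos (by positivity)
  have hGd1 : Real.Gamma ((d : ℝ) / 2 + 1) = (d : ℝ) / 2 * Real.Gamma ((d : ℝ) / 2) :=
    Real.Gamma_add_one (by positivity)
  have hGk1 : Real.Gamma ((k : ℝ) / 2 + 1) = (k : ℝ) / 2 * Real.Gamma ((k : ℝ) / 2) :=
    Real.Gamma_add_one (by positivity)
  have hpi : 0 < √π := Real.sqrt_pos.mpr Real.pi_pos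
  have h2 : ∀ i, (finrank ℝ (H i) * volume (ball (0 : H i) 1)) *
        (ENNReal.ofReal (1 / (d : ℝ)) * volume (B i)) =
      ENNReal.ofReal (2 * √π ^ k / Real.Gamma ((k : ℝ) / 2) / d) * volume (B i) := by
    intro i
    have : Nontrivial (H i) := Module.nontrivial_of_finrank_pos (R := ℝ) (by rw [hk i]; omega)
    rw [InnerProductSpace.volume_ball, hk i, ENNReal.ofReal_one, one_pow, one_mul, ← mul_assoc,
      ← ENNReal.ofReal_natCast, ← ENNReal.ofReal_mul (by positivity),
      ← ENNReal.ofReal_mul (by positivity), hGk1]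
    congr 2
    field_simp
  simp_rw [h2] at h1
  rw [← Finset.mul_sum, InnerProductSpace.volume_closedBall, ENNReal.ofReal_one, one_pow, one_mul,
    ← hd, hGd1] at h1
  have h3 : 0 < 2 * √π ^ k / Real.Gamma ((k : ℝ) / 2) / d := by positivity
  have h4 : √π ^ (d - k) * Real.Gamma ((k : ℝ) / 2) / Real.Gamma ((d : ℝ) / 2) =
      (√π ^ d / ((d : ℝ) / 2 * Real.Gamma ((d : ℝ) / 2))) /
        (2 * √π ^ k / Real.Gamma ((k : ℝ) / 2) / d) := by
    have h5 : √π ^ d = √π ^ (d - k) * √π ^ k := by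
      rw [← pow_add]
      congr 1
      omega
    rw [h5]
    field_simp
  rw [h4, ENNReal.ofReal_div_of_pos h3]
  exact ENNReal.div_le_of_le_mul' h1

end Pool.Agent.H52R3.Cyl
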