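import Pool.Agent.H52R3.Cyl3

set_option autoImplicit false

/-!
# Affine invariance of the cross-sectional volume and the bound for ellipsoids
-/

namespace Pool.Agent.H52R3.Cyl

open MeasureTheory Set Metric Module
open scoped ENNReal Real

variable {E : Type*} [NormedAddCommGroup E] [InnerProductSpace ℝ E] [FiniteDimensional ℝ E]
  [MeasurableSpace E] [BorelSpace E]

/-- the orthogonal projection of `K` to `H⊥` -/
def shadow (H : Submodule ℝ E) (K : Set E) : Set Hᗮ :=
  (fun x => Hᗮ.orthogonalProjectionOnto x) '' K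

theorem shadow_ball (H : Submodule ℝ E) :
    shadow H (closedBall (0 : E) 1) = closedBall (0 : Hᗮ) 1 := by
  ext y
  constructor
  · rintro ⟨x, hx, rfl⟩
    rw [mem_closedBall_zero_iff] at hx ⊢
    exact (Submodule.norm_orthogonalProjectionOnto_apply_le _ x).trans hx
  · intro hy
    refine ⟨(y : E), ?_, Submodule.orthogonalProjectionOnto_mem_subspace_eq_self y⟩
    rw [mem_closedBall_zero_iff] at hy ⊢
    simpa using hy

theorem proj_eq_zero_of_mem (H : Submodule ℝ E) {x : E} (hx : x ∈ H) :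
    Hᗮ.orthogonalProjectionOnto x = 0 := by
  rw [Submodule.orthogonalProjectionOnto_eq_zero_iff, Submodule.orthogonal_orthogonal]
  exact hx

theorem crv_transfer (A : E ≃L[ℝ] E) (b : E) (H : Submodule ℝ E) :
    ∃ (H' : Submodule ℝ E), finrank ℝ H' = finrank ℝ H ∧ ∀ B : Set Hᗮ, ∃ B' : Set H'ᗮ,
      (∀ x, A x + b ∈ cyl H B ↔ x ∈ cyl H' B') ∧
      volume B' / volume (closedBall (0 : H'ᗮ) 1) =
        volume B / volume (shadow H ((fun x => A x + b) '' closedBall 0 1)) := by
  set H' : Submodule ℝ E := H.map (A.symm.toLinearEquiv : E →ₗ[ℝ] E) with hH'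
  have hfr : finrank ℝ H' = finrank ℝ H := LinearEquiv.finrank_map_eq A.symm.toLinearEquiv H
  have hmem : ∀ x, x ∈ H' ↔ A x ∈ H := by
    intro x
    rw [hH']
    constructor
    · rintro ⟨y, hy, rfl⟩
      simpa using hy
    · intro h
      exact ⟨A x, h, by simp⟩
  refine ⟨H', hfr, ?_⟩
  set P : E →L[ℝ] Hᗮ := Hᗮ.orthogonalProjectionOnto with hP
  set P' : E →L[ℝ] H'ᗮ := H'ᗮ.orthogonalProjectionOnto with hP'
  set L : H'ᗮ →ₗ[ℝ] Hᗮ := (P : E →ₗ[ℝ] Hᗮ) ∘ₗ (A.toLinearEquiv : E →ₗ[ℝ] E) ∘ₗ H'ᗮ.subtype with hL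
  have hLapp : ∀ y : H'ᗮ, L y = P (A (y : E)) := fun y => rfl
  have hker : ∀ x : E, P x = 0 → x ∈ H := by
    intro x hx
    rw [hP, Submodule.orthogonalProjectionOnto_eq_zero_iff, Submodule.orthogonal_orthogonal] at hx
    exact hx
  have hinj : Function.Injective L := by
    rw [injective_iff_map_eq_zero]
    intro y hy
    rw [hLapp] at hy
    have h1 : (y : E) ∈ H' := (hmem _).mpr (hker _ hy)
    have h2 : (y : E) ∈ H'ᗮ := y.2
    have h3 : inner ℝ (y : E) (y : E) = 0 := (Submodule.mem_orthogonal _ _).mp h2 _ h1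
    rw [inner_self_eq_zero] at h3
    exact Subtype.ext h3
  have hdim : finrank ℝ H'ᗮ = finrank ℝ Hᗮ := by
    have h1 := H.finrank_add_finrank_orthogonal
    have h2 := H'.finrank_add_finrank_orthogonal
    omega
  set Le : H'ᗮ ≃L[ℝ] Hᗮ := (LinearMap.linearEquivOfInjective L hinj hdim).toContinuousLinearEquiv
    with hLe
  have hLeapp : ∀ y : H'ᗮ, Le y = P (A (y : E)) := fun y => rfl
  set p : Hᗮ := P b with hp
  have hPA : ∀ x : E, P (A x) = Le (P' x) := by
    intro x
    rw [hLeapp]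
    have h1 : x - (P' x : E) ∈ H' := by
      have : P' (x - (P' x : E)) = 0 := by
        rw [map_sub, hP', Submodule.orthogonalProjectionOnto_mem_subspace_eq_self, sub_self]
      rw [hP', Submodule.orthogonalProjectionOnto_eq_zero_iff,
        Submodule.orthogonal_orthogonal] at this
      exact this
    have h2 : P (A (x - (P' x : E))) = 0 := proj_eq_zero_of_mem H ((hmem _).mp h1)
    rw [map_sub, map_sub, sub_eq_zero] at h2
    exact h2
  obtain ⟨c, hc0, hc⟩ : ∃ c : ℝ≥0∞, (c ≠ 0 ∧ c ≠ ⊤) ∧ ∀ S : Set Hᗮ,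
      volume {y : H'ᗮ | Le y + p ∈ S} = c * volume S := by
    have h1 : (Measure.map Le (volume : Measure H'ᗮ)).IsAddHaarMeasure :=
      Le.isAddHaarMeasure_map _
    have hc := Measure.isAddLeftInvariant_eq_smul
      (Measure.map Le (volume : Measure H'ᗮ)) (volume : Measure Hᗮ)
    have hcpos := Measure.addHaarScalarFactor_pos_of_isAddHaarMeasure
      (Measure.map Le (volume : Measure H'ᗮ)) (volume : Measure Hᗮ)
    set c := Measure.addHaarScalarFactor
      (Measure.map Le (volume : Measure H'ᗮ)) (volume : Measure Hᗮ) with hcdef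
    refine ⟨(c : ℝ≥0∞), ⟨by exact_mod_cast hcpos.ne', ENNReal.coe_ne_top⟩, fun S => ?_⟩
    have h2 : {y : H'ᗮ | Le y + p ∈ S} = Le.toHomeomorph.toMeasurableEquiv ⁻¹'
        ((fun z => z + p) ⁻¹' S) := rfl
    rw [h2, ← MeasurableEquiv.map_apply]
    have h3 : Measure.map Le.toHomeomorph.toMeasurableEquiv (volume : Measure H'ᗮ) =
        Measure.map Le (volume : Measure H'ᗮ) := rfl
    rw [h3, hc, Measure.smul_apply, measure_preimage_add_right]
    rfl
  intro B
  refine ⟨{y : H'ᗮ | Le y + p ∈ B}, ?_, ?_⟩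
  · intro x
    rw [mem_cyl_iff, mem_cyl_iff]
    change P (A x + b) ∈ B ↔ Le (P' x) + p ∈ B
    rw [map_add, hPA]
  · have h1 : closedBall (0 : H'ᗮ) 1 =
        {y : H'ᗮ | Le y + p ∈ shadow H ((fun x => A x + b) '' closedBall 0 1)} := by
      ext y
      constructor
      · intro hy
        refine ⟨A (y : E) + b, ⟨(y : E), ?_, rfl⟩, ?_⟩
        · rw [mem_closedBall_zero_iff] at hy ⊢
          simpa using hy
        · change P (A (y : E) + b) = Le y + p
          rw [map_add]
          rfl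
      · rintro ⟨_, ⟨x, hx, rfl⟩, hxy⟩
        have h2 : P (A x + b) = Le y + p := hxy
        rw [map_add, hPA] at h2
        have h3 : Le (P' x) = Le y := by
          have := add_right_cancel h2
          exact this
        have h4 : P' x = y := Le.injective h3
        rw [mem_closedBall_zero_iff] at hx ⊢
        rw [← h4]
        exact (Submodule.norm_orthogonalProjectionOnto_apply_le _ x).trans hx
    rw [h1, hc, hc, ENNReal.mul_div_mul_left _ _ hc0.1 hc0.2]

/-- the lower bound for coverings of ellipsoids -/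
theorem ellipsoid_bound {ι : Type*} [Fintype ι] (A : E ≃L[ℝ] E) (b : E)
    (H : ι → Submodule ℝ E) (B : ∀ i, Set (H i)ᗮ)
    {k : ℕ} (hk2 : 2 ≤ k) (hk : ∀ i, finrank ℝ (H i) = k) (hkE : k < finrank ℝ E)
    (hcov : (fun x => A x + b) '' closedBall (0 : E) 1 ⊆ ⋃ i, cyl (H i) (B i)) :
    ENNReal.ofReal (Real.Gamma ((k : ℝ) / 2) * Real.Gamma (((finrank ℝ E : ℝ) - k) / 2 + 1) /
      Real.Gamma ((finrank ℝ E : ℝ) / 2)) ≤
      ∑ i, volume (B i) / volume (shadow (H i) ((fun x => A x + b) '' closedBall 0 1)) := by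
  choose H' hH' hB using fun i => crv_transfer A b (H i)
  choose B' hB' hB'' using fun i => hB i (B i)
  have hcov' : closedBall (0 : E) 1 ⊆ ⋃ i, cyl (H' i) (B' i) := by
    intro x hx
    obtain ⟨i, hi⟩ := mem_iUnion.mp (hcov ⟨x, hx, rfl⟩)
    exact mem_iUnion.mpr ⟨i, (hB' i x).mp hi⟩
  have h1 := ball_bound H' B' hk2 (fun i => (hH' i).trans (hk i)) hkE.le hcov'
  simp_rw [← hB'']
  set d := finrank ℝ E with hd
  have hvol : ∀ i, volume (closedBall (0 : (H' i)ᗮ) 1) =
      ENNReal.ofReal (√π ^ (d - k) / Real.Gamma (((d : ℝ) - k) / 2 + 1)) := by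
    intro i
    have h2 : finrank ℝ (H' i)ᗮ = d - k := by
      have h3 := (H' i).finrank_add_finrank_orthogonal
      rw [hH' i, hk i] at h3
      omega
    have : Nontrivial (H' i)ᗮ :=
      Module.nontrivial_of_finrank_pos (R := ℝ) (by rw [h2]; omega)
    rw [InnerProductSpace.volume_closedBall, h2, ENNReal.ofReal_one, one_pow, one_mul,
      Nat.cast_sub hkE.le]
  simp_rw [hvol, ENNReal.div_eq_inv_mul]
  rw [← Finset.mul_sum]
  have hdk : (0 : ℝ) < ((d : ℝ) - k) / 2 + 1 := by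
    have : (k : ℝ) < d := by exact_mod_cast hkE
    linarith
  have hG : 0 < Real.Gamma (((d : ℝ) - k) / 2 + 1) := Real.Gamma_pos_of_pos hdk
  have hpi : 0 < √π := Real.sqrt_pos.mpr Real.pi_pos
  have hpos : 0 < √π ^ (d - k) / Real.Gamma (((d : ℝ) - k) / 2 + 1) := by positivity
  have h5 : Real.Gamma ((k : ℝ) / 2) * Real.Gamma (((d : ℝ) - k) / 2 + 1) /
      Real.Gamma ((d : ℝ) / 2) = (√π ^ (d - k) / Real.Gamma (((d : ℝ) - k) / 2 + 1))⁻¹ *
        (√π ^ (d - k) * Real.Gamma ((k : ℝ) / 2) / Real.Gamma ((d : ℝ) / 2)) := by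
    field_simp
  rw [h5, ENNReal.ofReal_mul (by positivity), ENNReal.ofReal_inv_of_pos hpos]
  exact mul_le_mul' le_rfl h1

end Pool.Agent.H52R3.Cyl
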