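import Pool.Agent.H52R3.CylDef

set_option autoImplicit false

/-!
# Lower bound for the volume of a tube around a subspace in the unit ball
-/

namespace Pool.Agent.H52R3.Cyl

open MeasureTheory Set Metric Module
open scoped ENNReal Real

section fubini

variable {U W : Type*} [NormedAddCommGroup U] [InnerProductSpace ℝ U] [FiniteDimensional ℝ U]
  [MeasurableSpace U] [BorelSpace U] [NormedAddCommGroup W] [InnerProductSpace ℝ W]
  [FiniteDimensional ℝ W] [MeasurableSpace W] [BorelSpace W]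

theorem tube_ge (hk : 0 < finrank ℝ W) {s : ℝ} (hs : 0 < s) :
    (finrank ℝ W * volume (ball (0 : W) 1)) *
      (ENNReal.ofReal (s ^ (finrank ℝ U) * ((√(1 + s ^ 2))⁻¹ ^ (finrank ℝ U + finrank ℝ W) /
        ((finrank ℝ U : ℝ) + finrank ℝ W))) * volume (ball (0 : U) 1)) ≤
    volume {p : U × W | 0 < ‖p.1‖ ^ 2 + ‖p.2‖ ^ 2 ∧ ‖p.1‖ ^ 2 + ‖p.2‖ ^ 2 ≤ 1 ∧
        (√(‖p.1‖ ^ 2 + ‖p.2‖ ^ 2))⁻¹ • p.1 ∈ closedBall (0 : U) s} := by
  have : Nontrivial W := Module.nontrivial_of_finrank_pos (R := ℝ) hk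
  set k := finrank ℝ W with hkdef
  set m := finrank ℝ U with hmdef
  have hq : 0 < √(1 + s ^ 2) := Real.sqrt_pos.mpr (by positivity)
  set ρ := (√(1 + s ^ 2))⁻¹ with hρ
  have hρ0 : 0 < ρ := inv_pos.mpr hq
  have hρ2 : ρ ^ 2 * (1 + s ^ 2) = 1 := by
    rw [hρ, inv_pow, Real.sq_sqrt (by positivity)]
    field_simp
  set S : Set (U × W) := {p : U × W | 0 < ‖p.2‖ ∧ ‖p.2‖ ≤ ρ ∧ ‖p.1‖ ≤ s * ‖p.2‖} with hS
  have hSm : MeasurableSet S := by
    have h1 : Measurable (fun p : U × W => ‖p.2‖) := by fun_prop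
    have h2 : Measurable (fun p : U × W => ‖p.1‖) := by fun_prop
    exact (measurableSet_lt measurable_const h1).inter
      ((measurableSet_le h1 measurable_const).inter (measurableSet_le h2 (h1.const_mul s)))
  have hsub : S ⊆ {p : U × W | 0 < ‖p.1‖ ^ 2 + ‖p.2‖ ^ 2 ∧ ‖p.1‖ ^ 2 + ‖p.2‖ ^ 2 ≤ 1 ∧
        (√(‖p.1‖ ^ 2 + ‖p.2‖ ^ 2))⁻¹ • p.1 ∈ closedBall (0 : U) s} := by
    rintro ⟨u, w⟩ ⟨h1, h2, h3⟩
    simp only at h1 h2 h3
    have h0 : 0 < ‖u‖ ^ 2 + ‖w‖ ^ 2 := by positivity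
    have hr : 0 < √(‖u‖ ^ 2 + ‖w‖ ^ 2) := Real.sqrt_pos.mpr h0
    refine ⟨h0, ?_, ?_⟩
    · have h4 : ‖u‖ ^ 2 ≤ s ^ 2 * ‖w‖ ^ 2 := by
        rw [← mul_pow]
        exact pow_le_pow_left₀ (norm_nonneg _) h3 2
      have h5 : ‖w‖ ^ 2 ≤ ρ ^ 2 := pow_le_pow_left₀ (norm_nonneg _) h2 2
      have h6 : ‖w‖ ^ 2 * (1 + s ^ 2) ≤ ρ ^ 2 * (1 + s ^ 2) :=
        mul_le_mul_of_nonneg_right h5 (by positivity)
      simp only
      linarith
    · rw [mem_closedBall_zero_iff, norm_smul, norm_inv, Real.norm_of_nonneg hr.le,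
        inv_mul_le_iff₀ hr]
      simp only
      have h7 : ‖w‖ ≤ √(‖u‖ ^ 2 + ‖w‖ ^ 2) := by
        apply Real.le_sqrt_of_sq_le
        nlinarith [sq_nonneg ‖u‖]
      calc ‖u‖ ≤ s * ‖w‖ := h3
        _ ≤ s * √(‖u‖ ^ 2 + ‖w‖ ^ 2) := by gcongr
        _ = √(‖u‖ ^ 2 + ‖w‖ ^ 2) * s := mul_comm _ _
  refine le_trans (le_of_eq ?_) (measure_mono hsub)
  have hvol : volume S = ∫⁻ w : W, (fun r : ℝ => (Ioc (0 : ℝ) ρ).indicator
      (fun r => ENNReal.ofReal ((s * r) ^ m) * volume (ball (0 : U) 1)) r) ‖w‖ := by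
    rw [Measure.volume_eq_prod, Measure.prod_apply_symm hSm]
    refine lintegral_congr fun w => ?_
    simp only
    by_cases h : ‖w‖ ∈ Ioc (0 : ℝ) ρ
    · rw [indicator_of_mem h]
      have h1 : (fun u : U => (u, w)) ⁻¹' S = closedBall (0 : U) (s * ‖w‖) := by
        ext u
        simp only [hS, mem_preimage, mem_closedBall_zero_iff]
        exact ⟨fun h => h.2.2, fun h' => ⟨h.1, h.2, h'⟩⟩
      have h2 : 0 ≤ s * ‖w‖ := by positivity
      rw [h1, Measure.addHaar_closedBall _ _ h2]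
    · rw [indicator_of_notMem h]
      have h1 : (fun u : U => (u, w)) ⁻¹' S = ∅ := by
        ext u
        simp only [hS, mem_preimage, mem_empty_iff_false, iff_false]
        rintro ⟨h1, h2, -⟩
        exact h ⟨h1, h2⟩
      rw [h1, measure_empty]
  rw [hvol, lintegral_norm (E := W)]
  · congr 1
    have h1 : ∀ y ∈ Ioi (0 : ℝ), ENNReal.ofReal (y ^ (k - 1)) * (Ioc (0 : ℝ) ρ).indicator
        (fun r => ENNReal.ofReal ((s * r) ^ m) * volume (ball (0 : U) 1)) y =
        (Iic ρ).indicator (fun r => ENNReal.ofReal (s ^ m * r ^ (m + k - 1)) *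
          volume (ball (0 : U) 1)) y := by
      intro y hy
      have hy0 : (0 : ℝ) < y := hy
      by_cases h : y ≤ ρ
      · rw [indicator_of_mem (show y ∈ Ioc (0 : ℝ) ρ from ⟨hy0, h⟩),
          indicator_of_mem (show y ∈ Iic ρ from h), ← mul_assoc,
          ← ENNReal.ofReal_mul (by positivity)]
        congr 2
        have : m + k - 1 = k - 1 + m := by omega
        rw [this, mul_pow, pow_add]
        ring
      · rw [indicator_of_notMem (show y ∉ Ioc (0 : ℝ) ρ from fun h' => h h'.2),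
          indicator_of_notMem (show y ∉ Iic ρ from h), mul_zero]
    rw [setLIntegral_congr_fun measurableSet_Ioi h1, setLIntegral_indicator measurableSet_Iic,
      lintegral_mul_const'' _ (by fun_prop)]
    congr 1
    have h2 : Iic ρ ∩ Ioi 0 = Ioc 0 ρ := by
      ext x
      simp only [mem_inter_iff, mem_Iic, mem_Ioi, mem_Ioc]
      tauto
    rw [h2, ← ofReal_integral_eq_lintegral_ofReal]
    · rw [← intervalIntegral.integral_of_le hρ0.le, intervalIntegral.integral_const_mul,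
        integral_pow]
      have h3 : ((m + k - 1 : ℕ) : ℝ) + 1 = (m : ℝ) + k := by
        have : m + k - 1 + 1 = m + k := by omega
        exact_mod_cast this
      have h4 : m + k - 1 + 1 = m + k := by omega
      rw [h3, h4, zero_pow (by omega), sub_zero]
    · exact (Continuous.integrableOn_Ioc (by fun_prop))
    · filter_upwards [ae_restrict_mem measurableSet_Ioc] with x hx
      have := hx.1.le
      positivity
  · refine Measurable.indicator ?_ measurableSet_Ioc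
    fun_prop

end fubini

end Pool.Agent.H52R3.Cyl
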