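import Pool.Agent.H52R3.Cyl5

set_option autoImplicit false

/-!
# Spreads of subspaces, the tube pseudo-metric, volumes of tubes
-/

namespace Pool.Agent.H52R3.Cyl

open MeasureTheory Set Metric Module
open scoped ENNReal Real

/-- the volume of the unit ball of dimension `n` -/
noncomputable def kap (n : ℕ) : ℝ := √π ^ n / Real.Gamma ((n : ℝ) / 2 + 1)

theorem kap_pos (n : ℕ) : 0 < kap n := by
  have h1 : 0 < Real.Gamma ((n : ℝ) / 2 + 1) := Real.Gamma_pos_of_pos (by positivity)
  have h2 : 0 < √π := Real.sqrt_pos.mpr Real.pi_pos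
  exact div_pos (pow_pos h2 _) h1

/-- the constant `k κ_k κ_{d-k} / d` -/
noncomputable def aa (d k : ℕ) : ℝ := k * kap k * kap (d - k) / d

section

variable {E : Type*} [NormedAddCommGroup E] [InnerProductSpace ℝ E] [FiniteDimensional ℝ E]
  [MeasurableSpace E] [BorelSpace E]

theorem volume_ball_kap (h : 0 < finrank ℝ E) :
    volume (ball (0 : E) 1) = ENNReal.ofReal (kap (finrank ℝ E)) := by
  have : Nontrivial E := Module.nontrivial_of_finrank_pos (R := ℝ) h
  rw [InnerProductSpace.volume_ball, ENNReal.ofReal_one, one_pow, one_mul]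
  rfl

/-- the tube of radius `s` around the subspace `H` in the punctured unit ball -/
def tube (H : Submodule ℝ E) (s : ℝ) : Set E :=
  {x : E | 0 < ‖x‖ ∧ ‖x‖ ≤ 1 ∧ Hᗮ.orthogonalProjectionOnto (‖x‖⁻¹ • x) ∈ closedBall 0 s}

theorem measurableSet_tube (H : Submodule ℝ E) (s : ℝ) : MeasurableSet (tube H s) := by
  have h1 : Measurable (fun x : E => ‖x‖) := measurable_norm
  have h2 : Measurable (fun x : E => Hᗮ.orthogonalProjectionOnto (‖x‖⁻¹ • x)) := by
    have h3 : Measurable (fun x : E => ‖x‖⁻¹ • x) := h1.inv.smul measurable_id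
    exact (Hᗮ.orthogonalProjectionOnto).continuous.measurable.comp h3
  exact (measurableSet_lt measurable_const h1).inter
    ((measurableSet_le h1 measurable_const).inter (h2 measurableSet_closedBall))

theorem tube_vol_le (H : Submodule ℝ E) {k : ℕ} (hk : 2 ≤ k) (hH : finrank ℝ H = k)
    (hkE : k < finrank ℝ E) {s : ℝ} (hs : 0 ≤ s) :
    volume (tube H s) ≤ ENNReal.ofReal (aa (finrank ℝ E) k * s ^ (finrank ℝ E - k)) := by
  have h1 := cone_volume_le H (B := closedBall (0 : Hᗮ) s) measurableSet_closedBall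
    (by rw [hH]; exact hk)
  refine h1.trans ?_
  have hm : finrank ℝ Hᗮ = finrank ℝ E - k := by
    have := H.finrank_add_finrank_orthogonal
    omega
  have h2 : volume (closedBall (0 : Hᗮ) s ∩ ball 0 1) ≤
      ENNReal.ofReal (s ^ (finrank ℝ E - k)) * ENNReal.ofReal (kap (finrank ℝ E - k)) := by
    refine (measure_mono inter_subset_left).trans ?_
    rw [Measure.addHaar_closedBall _ _ hs, volume_ball_kap (by rw [hm]; omega), hm]
  have hE : (0 : ℝ) < finrank ℝ E := by
    have : 0 < finrank ℝ E := by omega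
    exact_mod_cast this
  calc (finrank ℝ H * volume (ball (0 : H) 1)) *
        (ENNReal.ofReal (1 / (finrank ℝ E : ℝ)) * volume (closedBall (0 : Hᗮ) s ∩ ball 0 1))
      ≤ (finrank ℝ H * volume (ball (0 : H) 1)) *
        (ENNReal.ofReal (1 / (finrank ℝ E : ℝ)) *
          (ENNReal.ofReal (s ^ (finrank ℝ E - k)) * ENNReal.ofReal (kap (finrank ℝ E - k)))) :=
        mul_le_mul' le_rfl (mul_le_mul' le_rfl h2)
    _ = ENNReal.ofReal (aa (finrank ℝ E) k * s ^ (finrank ℝ E - k)) := by
        have hkap := (kap_pos (finrank ℝ E - k)).le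
        have hkap' := (kap_pos k).le
        rw [volume_ball_kap (by rw [hH]; omega), hH, ← ENNReal.ofReal_natCast,
          ← ENNReal.ofReal_mul (by positivity), ← ENNReal.ofReal_mul (by positivity),
          ← ENNReal.ofReal_mul (by positivity), ← ENNReal.ofReal_mul (by positivity)]
        congr 1
        unfold aa
        field_simp

theorem tube_vol_ge (H : Submodule ℝ E) {k : ℕ} (hk : 0 < k) (hH : finrank ℝ H = k)
    (hkE : k < finrank ℝ E) {s : ℝ} (hs : 0 < s) :
    ENNReal.ofReal (aa (finrank ℝ E) k * s ^ (finrank ℝ E - k) *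
      (√(1 + s ^ 2))⁻¹ ^ (finrank ℝ E)) ≤ volume (tube H s) := by
  have hm : finrank ℝ Hᗮ = finrank ℝ E - k := by
    have := H.finrank_add_finrank_orthogonal
    omega
  have h1 := (measurePreserving_split H).measure_preimage
    (measurableSet_cone (U := Hᗮ) (W := H)
      (B := closedBall (0 : Hᗮ) s) measurableSet_closedBall).nullMeasurableSet
  have h2 := tube_ge (U := Hᗮ) (W := H) (by rw [hH]; exact hk) hs
  rw [← h1] at h2
  have h3 : (finrank ℝ Hᗮ : ℝ) + finrank ℝ H = finrank ℝ E := by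
    have := H.finrank_add_finrank_orthogonal
    rw [← this]
    push_cast
    ring
  have h3' : finrank ℝ Hᗮ + finrank ℝ H = finrank ℝ E := by
    have := H.finrank_add_finrank_orthogonal
    omega
  rw [h3, h3'] at h2
  have hE : (0 : ℝ) < finrank ℝ E := by
    have : 0 < finrank ℝ E := by omega
    exact_mod_cast this
  have h5 : (finrank ℝ H * volume (ball (0 : H) 1)) *
      (ENNReal.ofReal (s ^ (finrank ℝ Hᗮ) * ((√(1 + s ^ 2))⁻¹ ^ (finrank ℝ E) /
        (finrank ℝ E : ℝ))) * volume (ball (0 : Hᗮ) 1)) =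
      ENNReal.ofReal (aa (finrank ℝ E) k * s ^ (finrank ℝ E - k) *
        (√(1 + s ^ 2))⁻¹ ^ (finrank ℝ E)) := by
    have hkap := (kap_pos (finrank ℝ E - k)).le
    have hkap' := (kap_pos k).le
    rw [volume_ball_kap (by rw [hH]; omega), volume_ball_kap (E := Hᗮ) (by rw [hm]; omega), hH, hm,
      ← ENNReal.ofReal_natCast,
      ← ENNReal.ofReal_mul (by positivity), ← ENNReal.ofReal_mul (by positivity),
      ← ENNReal.ofReal_mul (by positivity)]
    congr 1
    unfold aa
    field_simp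
  rw [← h5]
  refine h2.trans (measure_mono ?_)
  intro x hx
  have h4 : ‖Hᗮ.orthogonalProjectionOnto x‖ ^ 2 + ‖H.orthogonalProjectionOnto x‖ ^ 2 =
      ‖x‖ ^ 2 := by
    rw [Submodule.norm_sq_eq_add_norm_sq_projection x H]
    ring
  simp only [mem_preimage, mem_ofPred_eq] at hx
  rw [h4, Real.sqrt_sq (norm_nonneg x)] at hx
  obtain ⟨hx1, hx2, hx3⟩ := hx
  refine ⟨?_, ?_, ?_⟩
  · by_contra h
    have : ‖x‖ = 0 := le_antisymm (not_lt.mp h) (norm_nonneg _)
    rw [this] at hx1
    simp at hx1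
  · exact (sq_le_one_iff₀ (norm_nonneg _)).mp hx2
  · rw [map_smul]
    exact hx3

end

theorem proj_zero_of_mem {V : Type*} [NormedAddCommGroup V] [InnerProductSpace ℝ V]
    [FiniteDimensional ℝ V] (H : Submodule ℝ V) {x : V} (hx : x ∈ H) :
    Hᗮ.orthogonalProjectionOnto x = 0 := by
  rw [Submodule.orthogonalProjectionOnto_eq_zero_iff, Submodule.orthogonal_orthogonal]
  exact hx

/-- A partition of the nonzero vectors into `k`-dimensional subspaces with the symmetry property
`|x| dist(y, L x) = |y| dist(x, L y)` -/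
structure Spread (V : Type*) [NormedAddCommGroup V] [InnerProductSpace ℝ V]
    [FiniteDimensional ℝ V] (k : ℕ) where
  /-- the subspace through `x` -/
  L : V → Submodule ℝ V
  dim : ∀ x, x ≠ 0 → finrank ℝ (L x) = k
  self_mem : ∀ x, x ∈ L x
  eq_of_mem : ∀ x y, y ∈ L x → y ≠ 0 → L y = L x
  symm : ∀ x y, x ≠ 0 → y ≠ 0 →
    ‖x‖ * ‖(L x)ᗮ.orthogonalProjectionOnto y‖ = ‖y‖ * ‖(L y)ᗮ.orthogonalProjectionOnto x‖

namespace Spread

variable {V : Type*} [NormedAddCommGroup V] [InnerProductSpace ℝ V]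
    [FiniteDimensional ℝ V] {k : ℕ} (S : Spread V k)

/-- the normalized distance -/
noncomputable def D (x y : V) : ℝ := ‖y‖⁻¹ * ‖(S.L x)ᗮ.orthogonalProjectionOnto y‖

theorem D_nonneg (x y : V) : 0 ≤ S.D x y := by
  unfold D
  positivity

theorem D_symm {x y : V} (hx : x ≠ 0) (hy : y ≠ 0) : S.D x y = S.D y x := by
  have h := S.symm x y hx hy
  have h1 : ‖x‖ ≠ 0 := norm_ne_zero_iff.mpr hx
  have h2 : ‖y‖ ≠ 0 := norm_ne_zero_iff.mpr hy
  unfold D
  field_simp
  linarith

theorem D_self (x : V) : S.D x x = 0 := by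
  unfold D
  rw [proj_zero_of_mem _ (S.self_mem x), norm_zero, mul_zero]

theorem D_congr {x y : V} (h : S.L x = S.L y) (z : V) : S.D x z = S.D y z := by
  have h1 : ∀ H H' : Submodule ℝ V, H = H' →
      ‖Hᗮ.orthogonalProjectionOnto z‖ = ‖H'ᗮ.orthogonalProjectionOnto z‖ := by
    rintro H _ rfl
    rfl
  unfold D
  rw [h1 _ _ h]

theorem D_triangle {x y z : V} (hx : x ≠ 0) (hy : y ≠ 0) (hz : z ≠ 0) :
    S.D x z ≤ S.D x y + S.D y z := by
  have hzn : 0 < ‖z‖ := norm_pos_iff.mpr hz
  set w : V := ((S.L y).orthogonalProjectionOnto z : V) with hw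
  have hwn : ‖w‖ ≤ ‖z‖ := Submodule.norm_orthogonalProjectionOnto_apply_le _ z
  have hzw : ‖z - w‖ = ‖(S.L y)ᗮ.orthogonalProjectionOnto z‖ := by
    have := (S.L y).orthogonalDecomposition.symm_apply_apply z
    rw [Submodule.orthogonalDecomposition_apply] at this
    have h2 : z = w + ((S.L y)ᗮ.orthogonalProjectionOnto z : V) := by
      nth_rw 1 [← this]
      simp [hw]
    have h3 : z - w = ((S.L y)ᗮ.orthogonalProjectionOnto z : V) := by
      nth_rw 1 [h2]
      abel
    rw [h3]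
    rfl
  have h1 : ‖(S.L x)ᗮ.orthogonalProjectionOnto z‖ ≤ ‖z - w‖ +
      ‖(S.L x)ᗮ.orthogonalProjectionOnto w‖ := by
    have h2 : (S.L x)ᗮ.orthogonalProjectionOnto z = (S.L x)ᗮ.orthogonalProjectionOnto (z - w) +
        (S.L x)ᗮ.orthogonalProjectionOnto w := by
      rw [← map_add, sub_add_cancel]
    rw [h2]
    refine (norm_add_le _ _).trans ?_
    gcongr
    exact Submodule.norm_orthogonalProjectionOnto_apply_le _ _
  have h3 : ‖(S.L x)ᗮ.orthogonalProjectionOnto w‖ ≤ ‖z‖ * S.D x y := by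
    by_cases hw0 : w = 0
    · rw [hw0, map_zero, norm_zero]
      have := S.D_nonneg x y
      positivity
    · have hwpos : 0 < ‖w‖ := norm_pos_iff.mpr hw0
      have h4 : S.D x w = S.D x y := by
        rw [S.D_symm hx hw0, S.D_symm hx hy]
        exact S.D_congr (S.eq_of_mem y w (Submodule.coe_mem _) hw0) x
      have h5 : ‖(S.L x)ᗮ.orthogonalProjectionOnto w‖ = ‖w‖ * S.D x w := by
        unfold D
        field_simp
      rw [h5, h4]
      have := S.D_nonneg x y
      gcongr
  have h6 : ‖(S.L y)ᗮ.orthogonalProjectionOnto z‖ = ‖z‖ * S.D y z := by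
    unfold D
    field_simp
  have h7 : ‖(S.L x)ᗮ.orthogonalProjectionOnto z‖ = ‖z‖ * S.D x z := by
    unfold D
    field_simp
  rw [h7, hzw, h6] at h1
  have h8 : ‖z‖ * S.D x z ≤ ‖z‖ * (S.D x y + S.D y z) := by
    rw [mul_add]
    linarith
  exact le_of_mul_le_mul_left h8 hzn

theorem mem_tube_iff {x y : V} {s : ℝ} :
    y ∈ tube (S.L x) s ↔ 0 < ‖y‖ ∧ ‖y‖ ≤ 1 ∧ S.D x y ≤ s := by
  unfold tube D
  simp only [mem_ofPred_eq, mem_closedBall_zero_iff, map_smul, norm_smul, norm_inv, norm_norm]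

end Spread

end Pool.Agent.H52R3.Cyl
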