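import Pool.Agent.H52R3.Cyl6

set_option autoImplicit false
set_option linter.unusedSectionVars false

/-!
# Packings and almost optimal coverings by tubes of a spread
-/

namespace Pool.Agent.H52R3.Cyl

open MeasureTheory Set Metric Module Filter Topology
open scoped ENNReal Real

theorem aa_pos {d k : ℕ} (hk : 0 < k) (hkd : k < d) : 0 < aa d k := by
  have h1 := kap_pos k
  have h2 := kap_pos (d - k)
  have h3 : (0 : ℝ) < k := by exact_mod_cast hk
  have h4 : (0 : ℝ) < d := by exact_mod_cast (hk.trans hkd)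
  unfold aa
  positivity

namespace Spread

variable {V : Type*} [NormedAddCommGroup V] [InnerProductSpace ℝ V]
    [FiniteDimensional ℝ V] [MeasurableSpace V] [BorelSpace V] {k : ℕ} (S : Spread V k)

/-- the punctured closed unit ball -/
def X (V : Type*) [NormedAddCommGroup V] : Set V := {x : V | 0 < ‖x‖ ∧ ‖x‖ ≤ 1}

theorem X_subset : X V ⊆ closedBall (0 : V) 1 := by
  rintro x ⟨-, hx⟩
  simpa using hx

theorem measurableSet_X : MeasurableSet (X V) := by
  have h1 : Measurable (fun x : V => ‖x‖) := measurable_norm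
  exact (measurableSet_lt measurable_const h1).inter (measurableSet_le h1 measurable_const)

theorem tube_subset (H : Submodule ℝ V) (s : ℝ) : tube H s ⊆ X V := fun _ hx => ⟨hx.1, hx.2.1⟩

theorem volume_ne_top {A : Set V} (hA : A ⊆ X V) : volume A ≠ ∞ :=
  ((measure_mono (hA.trans X_subset)).trans_lt measure_closedBall_lt_top).ne

theorem volume_X_le (hV : 0 < finrank ℝ V) : volume.real (X V) ≤ kap (finrank ℝ V) := by
  have : Nontrivial V := Module.nontrivial_of_finrank_pos (R := ℝ) hV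
  have h1 : volume (X V) ≤ ENNReal.ofReal (kap (finrank ℝ V)) := by
    rw [← volume_ball_kap hV, ← Measure.addHaar_closedBall_eq_addHaar_ball]
    exact measure_mono X_subset
  exact ENNReal.toReal_le_of_le_ofReal (kap_pos _).le h1

theorem vol_tube_le (hk : 2 ≤ k) (hkV : k < finrank ℝ V) {x : V} (hx : x ≠ 0) {s : ℝ}
    (hs : 0 ≤ s) : volume.real (tube (S.L x) s) ≤
      aa (finrank ℝ V) k * s ^ (finrank ℝ V - k) := by
  have ha := aa_pos (by omega) hkV
  exact ENNReal.toReal_le_of_le_ofReal (by positivity) (tube_vol_le (S.L x) hk (S.dim x hx) hkV hs)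

theorem vol_tube_ge (hk : 0 < k) (hkV : k < finrank ℝ V) {x : V} (hx : x ≠ 0) {s δ : ℝ}
    (hs : 0 < s) (hsδ : s ≤ δ) : aa (finrank ℝ V) k * s ^ (finrank ℝ V - k) *
      (√(1 + δ ^ 2))⁻¹ ^ (finrank ℝ V) ≤ volume.real (tube (S.L x) s) := by
  have ha := aa_pos hk hkV
  have h1 := tube_vol_ge (S.L x) hk (S.dim x hx) hkV hs
  have h2 : aa (finrank ℝ V) k * s ^ (finrank ℝ V - k) *
      (√(1 + s ^ 2))⁻¹ ^ (finrank ℝ V) ≤ volume.real (tube (S.L x) s) :=
    (ENNReal.ofReal_le_iff_le_toReal (volume_ne_top (tube_subset _ _))).mp h1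
  refine le_trans ?_ h2
  have h3 : √(1 + s ^ 2) ≤ √(1 + δ ^ 2) := by
    apply Real.sqrt_le_sqrt
    gcongr
  have h4 : 0 < √(1 + s ^ 2) := Real.sqrt_pos.mpr (by positivity)
  gcongr

theorem vol_tube_ge_half (hk : 0 < k) (hkV : k < finrank ℝ V) {x : V} (hx : x ≠ 0) {s : ℝ}
    (hs : 0 < s) (hs1 : s ≤ 1) : aa (finrank ℝ V) k * s ^ (finrank ℝ V - k) *
      (1 / 2 : ℝ) ^ (finrank ℝ V) ≤ volume.real (tube (S.L x) s) := by
  have ha := aa_pos hk hkV
  refine le_trans ?_ (S.vol_tube_ge hk hkV hx hs hs1)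
  have h4 : 0 < √(1 + (1 : ℝ) ^ 2) := Real.sqrt_pos.mpr (by positivity)
  have h5 : √(1 + (1 : ℝ) ^ 2) ≤ 2 := by
    rw [Real.sqrt_le_left (by norm_num)]
    norm_num
  have h3 : (1 / 2 : ℝ) ≤ (√(1 + (1 : ℝ) ^ 2))⁻¹ := by
    rw [one_div]
    exact inv_anti₀ h4 h5
  gcongr

theorem sum_vol_le {ι : Type*} (F : Finset ι) (c : ι → V) (s : ι → ℝ) {A : Set V} (hA : A ⊆ X V)
    (hdisj : (F : Set ι).PairwiseDisjoint (fun i => tube (S.L (c i)) (s i)))
    (hsub : ∀ i ∈ F, tube (S.L (c i)) (s i) ⊆ A) :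
    ∑ i ∈ F, volume.real (tube (S.L (c i)) (s i)) ≤ volume.real A := by
  rw [← measureReal_biUnion_finset hdisj (fun i _ => measurableSet_tube _ _)
    (fun i _ => volume_ne_top (tube_subset _ _))]
  exact measureReal_mono (iUnion₂_subset hsub) (volume_ne_top hA)

theorem packing (hk : 2 ≤ k) (hkV : k < finrank ℝ V) (R : Set V) (hR : R ⊆ X V) {t : ℝ}
    (ht0 : 0 < t) (ht1 : t ≤ 1) :
    ∃ F : Finset V, (F : Set V) ⊆ R ∧
      (F : Set V).PairwiseDisjoint (fun x => tube (S.L x) t) ∧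
      ∀ y ∈ R, ∃ x ∈ F, y ∈ tube (S.L x) (2 * t) := by
  classical
  have ha := aa_pos (show 0 < k by omega) hkV
  have hne : ∀ x ∈ R, x ≠ 0 := fun x hx => norm_pos_iff.mp (hR hx).1
  set q : ℝ := aa (finrank ℝ V) k * t ^ (finrank ℝ V - k) * (1 / 2 : ℝ) ^ (finrank ℝ V) with hq
  have hq0 : 0 < q := by positivity
  let P : ℕ → Prop := fun n => ∃ F : Finset V, (F : Set V) ⊆ R ∧
      (F : Set V).PairwiseDisjoint (fun x => tube (S.L x) t) ∧ F.card = n
  have hP0 : P 0 := ⟨∅, by simp, by simp, rfl⟩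
  have hbound : ∀ n, P n → n ≤ ⌊volume.real (X V) / q⌋₊ := by
    rintro n ⟨F, hFR, hFd, rfl⟩
    have h1 := S.sum_vol_le F id (fun _ => t) (A := X V) subset_rfl hFd
      (fun i _ => tube_subset _ _)
    have h2 : ∑ i ∈ F, q ≤ ∑ i ∈ F, volume.real (tube (S.L (id i)) t) :=
      Finset.sum_le_sum fun i hi => S.vol_tube_ge_half (by omega) hkV (hne i (hFR hi)) ht0 ht1
    rw [Finset.sum_const, nsmul_eq_mul] at h2
    apply Nat.le_floor
    rw [le_div_iff₀ hq0]
    exact h2.trans h1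
  obtain ⟨F, hFR, hFd, hFc⟩ : P (Nat.findGreatest P ⌊volume.real (X V) / q⌋₊) :=
    Nat.findGreatest_spec (Nat.zero_le _) hP0
  refine ⟨F, hFR, hFd, ?_⟩
  intro y hy
  by_contra hcon
  push Not at hcon
  have hy0 := hR hy
  have hyne := hne y hy
  have hyF : y ∉ F := by
    intro h
    refine hcon y h ?_
    rw [S.mem_tube_iff]
    refine ⟨hy0.1, hy0.2, ?_⟩
    rw [S.D_self]
    positivity
  have hP1 : P (F.card + 1) := by
    refine ⟨insert y F, ?_, ?_, Finset.card_insert_of_notMem hyF⟩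
    · rw [Finset.coe_insert]
      exact insert_subset hy hFR
    · rw [Finset.coe_insert]
      refine hFd.insert ?_
      intro x hx _
      rw [disjoint_left]
      intro z hz1 hz2
      rw [S.mem_tube_iff] at hz1 hz2
      refine hcon x hx ?_
      rw [S.mem_tube_iff]
      refine ⟨hy0.1, hy0.2, ?_⟩
      have hxne := hne x (hFR hx)
      have hzne : z ≠ 0 := norm_pos_iff.mp hz1.1
      have h1 := S.D_triangle hxne hzne hyne
      rw [S.D_symm hzne hyne] at h1
      linarith [hz1.2.2, hz2.2.2]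
  have h1 := Nat.le_findGreatest (hbound _ hP1) hP1
  omega

end Spread

end Pool.Agent.H52R3.Cyl
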