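import Pool.Agent.H52R3.Cyl7

set_option autoImplicit false
set_option linter.unusedSectionVars false

/-!
# Exhaustion by disjoint tubes, and the almost optimal covering
-/

namespace Pool.Agent.H52R3.Cyl

open MeasureTheory Set Metric Module Filter Topology
open scoped ENNReal Real

namespace Spread

variable {V : Type*} [NormedAddCommGroup V] [InnerProductSpace ℝ V]
    [FiniteDimensional ℝ V] [MeasurableSpace V] [BorelSpace V] {k : ℕ} (S : Spread V k)

/-- finite families of disjoint tubes of radius at most `δ` -/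
def IsGood (δ : ℝ) (F : Finset (V × ℝ)) : Prop :=
  (∀ p ∈ F, p.1 ≠ 0 ∧ 0 < p.2 ∧ p.2 ≤ δ) ∧
    (F : Set (V × ℝ)).PairwiseDisjoint (fun p => tube (S.L p.1) p.2)

/-- the part of the punctured ball which is not covered -/
def rest (F : Finset (V × ℝ)) : Set V := X V \ ⋃ p ∈ F, tube (S.L p.1) p.2

theorem mem_rest_iff {F : Finset (V × ℝ)} {x : V} :
    x ∈ S.rest F ↔ (0 < ‖x‖ ∧ ‖x‖ ≤ 1) ∧ ∀ p ∈ F, p.2 < S.D p.1 x := by
  unfold rest
  simp only [Set.mem_sdiff, mem_iUnion, not_exists]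
  constructor
  · rintro ⟨h1, h2⟩
    refine ⟨h1, fun p hp => ?_⟩
    by_contra h
    refine h2 p hp ?_
    rw [S.mem_tube_iff]
    exact ⟨h1.1, h1.2, not_lt.mp h⟩
  · rintro ⟨h1, h2⟩
    refine ⟨h1, fun p hp h => ?_⟩
    rw [S.mem_tube_iff] at h
    exact absurd h.2.2 (not_le.mpr (h2 p hp))

theorem rest_subset (F : Finset (V × ℝ)) : S.rest F ⊆ X V := sdiff_subset

theorem measurable_D (x : V) : Measurable (fun y : V => S.D x y) := by
  unfold D
  have h1 : Measurable (fun x : V => ‖x‖) := measurable_norm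
  exact h1.inv.mul ((S.L x)ᗮ.orthogonalProjectionOnto).continuous.norm.measurable

theorem tube_subset_rest {F : Finset (V × ℝ)} (hF : ∀ p ∈ F, p.1 ≠ 0) {x : V} (hx : x ≠ 0) {t : ℝ}
    (h : ∀ p ∈ F, p.2 + t < S.D p.1 x) : tube (S.L x) t ⊆ S.rest F := by
  intro y hy
  rw [S.mem_tube_iff] at hy
  rw [S.mem_rest_iff]
  refine ⟨⟨hy.1, hy.2.1⟩, fun p hp => ?_⟩
  have hy0 : y ≠ 0 := norm_pos_iff.mp hy.1
  have h1 := S.D_triangle (hF p hp) hy0 hx
  rw [S.D_symm hy0 hx] at h1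
  linarith [h p hp, hy.2.2]

theorem improve (hk : 2 ≤ k) (hkV : k < finrank ℝ V) {δ : ℝ} (hδ0 : 0 < δ) (hδ1 : δ ≤ 1)
    {F : Finset (V × ℝ)} (hF : S.IsGood δ F) (hpos : 0 < volume.real (S.rest F)) :
    ∃ F' : Finset (V × ℝ), S.IsGood δ F' ∧ volume.real (S.rest F') ≤
      (1 - (1 / 2 : ℝ) ^ (finrank ℝ V - k) * (1 / 2 : ℝ) ^ (finrank ℝ V) * (1 / 2)) *
        volume.real (S.rest F) := by
  classical
  set d := finrank ℝ V with hd
  have ha := aa_pos (show 0 < k by omega) hkV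
  set v := volume.real (S.rest F) with hv
  have hFne : ∀ p ∈ F, p.1 ≠ 0 := fun p hp => (hF.1 p hp).1
  -- the sets R n
  let R : ℕ → Set V := fun n => {x : V | x ∈ X V ∧ ∀ p ∈ F, p.2 + 1 / ((n : ℝ) + 1) < S.D p.1 x}
  have hRX : ∀ n, R n ⊆ X V := fun n x hx => hx.1
  have hRmono : Monotone R := by
    intro n n' hnn x hx
    refine ⟨hx.1, fun p hp => lt_of_le_of_lt ?_ (hx.2 p hp)⟩
    have h1 : (1 : ℝ) / ((n' : ℝ) + 1) ≤ 1 / ((n : ℝ) + 1) := by
      have : (n : ℝ) ≤ n' := by exact_mod_cast hnn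
      have h0 : (0 : ℝ) < (n : ℝ) + 1 := by positivity
      gcongr
    linarith
  have hRU : ⋃ n, R n = S.rest F := by
    ext x
    rw [S.mem_rest_iff, mem_iUnion]
    constructor
    · rintro ⟨n, hx1, hx2⟩
      refine ⟨hx1, fun p hp => lt_trans ?_ (hx2 p hp)⟩
      have : (0 : ℝ) < 1 / ((n : ℝ) + 1) := by positivity
      linarith
    · rintro ⟨hx1, hx2⟩
      have h1 : ∀ p ∈ F, ∀ᶠ n : ℕ in atTop, p.2 + 1 / ((n : ℝ) + 1) < S.D p.1 x := by
        intro p hp
        have h2 : Tendsto (fun n : ℕ => p.2 + 1 / ((n : ℝ) + 1)) atTop (𝓝 (p.2 + 0)) :=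
          tendsto_one_div_add_atTop_nhds_zero_nat.const_add _
        rw [add_zero] at h2
        exact h2.eventually_lt_const (hx2 p hp)
      obtain ⟨n, hn⟩ := ((eventually_all_finset F).mpr h1).exists
      exact ⟨n, hx1, hn⟩
  have htend := tendsto_measure_iUnion_atTop (μ := (volume : Measure V)) hRmono
  rw [hRU] at htend
  have hfin : volume (S.rest F) ≠ ∞ := volume_ne_top (S.rest_subset F)
  have htend2 : Tendsto (fun n => volume.real (R n)) atTop (𝓝 v) :=
    (ENNReal.tendsto_toReal hfin).comp htend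
  obtain ⟨n, hn⟩ := (htend2.eventually_const_lt (show v / 2 < v by linarith)).exists
  set t : ℝ := min δ (1 / ((n : ℝ) + 1)) with ht
  have hn0 : (0 : ℝ) < 1 / ((n : ℝ) + 1) := by positivity
  have ht0 : 0 < t := lt_min hδ0 hn0
  have htδ : t ≤ δ := min_le_left _ _
  have htn : t ≤ 1 / ((n : ℝ) + 1) := min_le_right _ _
  obtain ⟨F1, hF1R, hF1d, hF1c⟩ := S.packing hk hkV (R n) (hRX n) ht0 (htδ.trans hδ1)
  have hF1ne : ∀ x ∈ F1, x ≠ 0 := fun x hx => norm_pos_iff.mp (hRX n (hF1R hx)).1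
  have hF1sub : ∀ x ∈ F1, tube (S.L x) t ⊆ S.rest F := by
    intro x hx
    refine S.tube_subset_rest hFne (hF1ne x hx) fun p hp => ?_
    have := (hF1R hx).2 p hp
    linarith
  -- volume estimates
  have hcard : v / 2 < F1.card * (aa d k * (2 * t) ^ (d - k)) := by
    refine lt_of_lt_of_le hn ?_
    have h1 : volume.real (R n) ≤ volume.real (⋃ x ∈ F1, tube (S.L x) (2 * t)) := by
      refine measureReal_mono ?_ (volume_ne_top (iUnion₂_subset fun _ _ => tube_subset _ _))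
      intro y hy
      obtain ⟨x, hx, hxy⟩ := hF1c y hy
      exact mem_iUnion₂.mpr ⟨x, hx, hxy⟩
    refine h1.trans ((measureReal_biUnion_finset_le _ _).trans ?_)
    rw [← nsmul_eq_mul]
    refine Finset.sum_le_card_nsmul _ _ _ fun x hx => ?_
    exact S.vol_tube_le hk hkV (hF1ne x hx) (by positivity)
  have hsum : F1.card * (aa d k * t ^ (d - k) * (1 / 2 : ℝ) ^ d) ≤
      ∑ x ∈ F1, volume.real (tube (S.L x) t) := by
    rw [← nsmul_eq_mul]
    refine Finset.card_nsmul_le_sum _ _ _ fun x hx => ?_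
    exact S.vol_tube_ge_half (by omega) hkV (hF1ne x hx) ht0 (htδ.trans hδ1)
  refine ⟨F ∪ F1.image (fun x => (x, t)), ⟨?_, ?_⟩, ?_⟩
  · intro p hp
    rcases Finset.mem_union.mp hp with hp | hp
    · exact hF.1 p hp
    · obtain ⟨x, hx, rfl⟩ := Finset.mem_image.mp hp
      exact ⟨hF1ne x hx, ht0, htδ⟩
  · rw [Finset.coe_union, pairwiseDisjoint_union]
    refine ⟨hF.2, ?_, ?_⟩
    · rw [Finset.coe_image]
      rintro _ ⟨x, hx, rfl⟩ _ ⟨y, hy, rfl⟩ hne
      exact hF1d hx hy (fun h => hne (by rw [h]))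
    · intro p hp q hq _
      rw [Finset.coe_image] at hq
      obtain ⟨x, hx, rfl⟩ := hq
      have h1 := hF1sub x hx
      rw [disjoint_left]
      intro z hz1 hz2
      exact (h1 hz2).2 (mem_iUnion₂.mpr ⟨p, hp, hz1⟩)
  · have hsub : (⋃ x ∈ F1, tube (S.L x) t) ⊆ S.rest F := iUnion₂_subset hF1sub
    have hrest : S.rest (F ∪ F1.image (fun x => (x, t))) ⊆
        S.rest F \ ⋃ x ∈ F1, tube (S.L x) t := by
      intro x hx
      refine ⟨⟨hx.1, fun h => hx.2 ?_⟩, fun h => hx.2 ?_⟩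
      · obtain ⟨p, hp, hpx⟩ := mem_iUnion₂.mp h
        exact mem_iUnion₂.mpr ⟨p, Finset.mem_union_left _ hp, hpx⟩
      · obtain ⟨y, hy, hyx⟩ := mem_iUnion₂.mp h
        exact mem_iUnion₂.mpr ⟨(y, t), Finset.mem_union_right _
          (Finset.mem_image_of_mem _ hy), hyx⟩
    have hmeas : MeasurableSet (⋃ x ∈ F1, tube (S.L x) t) :=
      Finset.measurableSet_biUnion _ fun _ _ => measurableSet_tube _ _
    have h1 : volume.real (S.rest (F ∪ F1.image (fun x => (x, t)))) ≤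
        v - ∑ x ∈ F1, volume.real (tube (S.L x) t) := by
      refine (measureReal_mono hrest
        (volume_ne_top (sdiff_subset.trans (S.rest_subset F)))).trans ?_
      rw [measureReal_sdiff hsub hmeas (volume_ne_top (S.rest_subset F))]
      rw [measureReal_biUnion_finset hF1d (fun i _ => measurableSet_tube _ _)
        (fun i _ => volume_ne_top (tube_subset _ _))]
    have h2 : (2 * t) ^ (d - k) = 2 ^ (d - k) * t ^ (d - k) := mul_pow _ _ _
    have h3 : (1 / 2 : ℝ) ^ (d - k) * 2 ^ (d - k) = 1 := by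
      rw [← mul_pow]
      norm_num
    have h4 : (1 / 2 : ℝ) ^ (d - k) * (v / 2) ≤ F1.card * (aa d k * t ^ (d - k)) := by
      calc (1 / 2 : ℝ) ^ (d - k) * (v / 2)
          ≤ (1 / 2 : ℝ) ^ (d - k) * (F1.card * (aa d k * (2 * t) ^ (d - k))) := by
            gcongr
        _ = ((1 / 2 : ℝ) ^ (d - k) * 2 ^ (d - k)) * (F1.card * (aa d k * t ^ (d - k))) := by
            rw [h2]
            ring
        _ = F1.card * (aa d k * t ^ (d - k)) := by rw [h3, one_mul]
    have h5 : (1 / 2 : ℝ) ^ (d - k) * (v / 2) * (1 / 2 : ℝ) ^ d ≤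
        F1.card * (aa d k * t ^ (d - k)) * (1 / 2 : ℝ) ^ d := by gcongr
    calc volume.real (S.rest (F ∪ F1.image (fun x => (x, t))))
        ≤ v - ∑ x ∈ F1, volume.real (tube (S.L x) t) := h1
      _ ≤ v - F1.card * (aa d k * t ^ (d - k) * (1 / 2 : ℝ) ^ d) := by linarith
      _ ≤ (1 - (1 / 2 : ℝ) ^ (d - k) * (1 / 2 : ℝ) ^ d * (1 / 2)) * v := by linarith

theorem exhaust (hk : 2 ≤ k) (hkV : k < finrank ℝ V) {δ : ℝ} (hδ0 : 0 < δ) (hδ1 : δ ≤ 1)
    {ε : ℝ} (hε : 0 < ε) : ∃ F : Finset (V × ℝ), S.IsGood δ F ∧ volume.real (S.rest F) < ε := by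
  classical
  set c : ℝ := (1 / 2 : ℝ) ^ (finrank ℝ V - k) * (1 / 2 : ℝ) ^ (finrank ℝ V) * (1 / 2) with hc
  have hc0 : 0 < c := by positivity
  have hc1 : c ≤ 1 / 2 := by
    have h1 : (1 / 2 : ℝ) ^ (finrank ℝ V - k) ≤ 1 := pow_le_one₀ (by norm_num) (by norm_num)
    have h2 : (1 / 2 : ℝ) ^ (finrank ℝ V) ≤ 1 := pow_le_one₀ (by norm_num) (by norm_num)
    have h3 : (1 / 2 : ℝ) ^ (finrank ℝ V - k) * (1 / 2 : ℝ) ^ (finrank ℝ V) ≤ 1 :=
      mul_le_one₀ h1 (by positivity) h2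
    rw [hc]
    linarith
  have hiter : ∀ n : ℕ, ∃ F : Finset (V × ℝ), S.IsGood δ F ∧
      volume.real (S.rest F) ≤ (1 - c) ^ n * volume.real (X V) := by
    intro n
    induction n with
    | zero =>
      refine ⟨∅, ⟨by simp, by simp⟩, ?_⟩
      rw [pow_zero, one_mul]
      exact measureReal_mono (S.rest_subset ∅) (volume_ne_top subset_rfl)
    | succ n ih =>
      obtain ⟨F, hF, hFv⟩ := ih
      rcases (measureReal_nonneg (μ := (volume : Measure V)) (s := S.rest F)).eq_or_lt with h | h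
      · refine ⟨F, hF, ?_⟩
        rw [← h]
        have : 0 ≤ 1 - c := by linarith
        have h2 : 0 ≤ volume.real (X V) := measureReal_nonneg
        positivity
      · obtain ⟨F', hF', hF'v⟩ := S.improve hk hkV hδ0 hδ1 hF h
        refine ⟨F', hF', hF'v.trans ?_⟩
        have h0 : 0 ≤ 1 - c := by linarith
        have h3 := mul_le_mul_of_nonneg_left hFv h0
        refine h3.trans (le_of_eq ?_)
        rw [pow_succ]
        ring
  have htend : Tendsto (fun n : ℕ => (1 - c) ^ n * volume.real (X V)) atTop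
      (𝓝 (0 * volume.real (X V))) :=
    (tendsto_pow_atTop_nhds_zero_of_lt_one (by linarith) (by linarith)).mul_const _
  rw [zero_mul] at htend
  obtain ⟨n, hn⟩ := (htend.eventually_lt_const hε).exists
  obtain ⟨F, hF, hFv⟩ := hiter n
  exact ⟨F, hF, lt_of_le_of_lt hFv hn⟩

end Spread

end Pool.Agent.H52R3.Cyl
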