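import Pool.Agent.H52R3.Cyl8

set_option autoImplicit false
set_option linter.unusedSectionVars false

/-!
# Spreads give the exact value of `c(d,k)`
-/

namespace Pool.Agent.H52R3.Cyl

open MeasureTheory Set Metric Module Filter Topology
open scoped ENNReal Real

theorem exists_pos_le {V : Type*} (F : Finset (V × ℝ)) (hF : ∀ p ∈ F, 0 < p.2) :
    ∃ t : ℝ, 0 < t ∧ t ≤ 1 ∧ ∀ p ∈ F, t ≤ p.2 := by
  classical
  induction F using Finset.induction_on with
  | empty => exact ⟨1, one_pos, le_rfl, by simp⟩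
  | insert p F hp ih =>
    obtain ⟨t, ht0, ht1, ht⟩ := ih (fun q hq => hF q (Finset.mem_insert_of_mem hq))
    refine ⟨min t p.2, lt_min ht0 (hF p (Finset.mem_insert_self _ _)),
      (min_le_left _ _).trans ht1, fun q hq => ?_⟩
    rcases Finset.mem_insert.mp hq with rfl | hq
    · exact min_le_right _ _
    · exact (min_le_left _ _).trans (ht q hq)

namespace Spread

variable {V : Type*} [NormedAddCommGroup V] [InnerProductSpace ℝ V]
    [FiniteDimensional ℝ V] [MeasurableSpace V] [BorelSpace V] {k : ℕ} (S : Spread V k)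

theorem exists_cover (hk : 2 ≤ k) (hkV : k < finrank ℝ V) {δ : ℝ} (hδ0 : 0 < δ) (hδ1 : δ ≤ 1)
    {ε : ℝ} (hε : 0 < ε) : ∃ (F : Finset (V × ℝ)) (F1 : Finset V) (t : ℝ), 0 < t ∧
      (∀ p ∈ F, p.1 ≠ 0 ∧ 0 < p.2) ∧ (∀ x ∈ F1, x ≠ 0) ∧
      (∀ y ∈ X V, (∃ p ∈ F, y ∈ tube (S.L p.1) ((1 + δ) * p.2)) ∨
        ∃ x ∈ F1, y ∈ tube (S.L x) (2 * t)) ∧
      ∑ p ∈ F, ((1 + δ) * p.2) ^ (finrank ℝ V - k) + F1.card * (2 * t) ^ (finrank ℝ V - k) ≤
        (1 + δ) ^ (finrank ℝ V - k) * √(1 + δ ^ 2) ^ (finrank ℝ V) *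
          (kap (finrank ℝ V) / aa (finrank ℝ V) k) +
        2 ^ (finrank ℝ V - k) * 2 ^ (finrank ℝ V) * ε / aa (finrank ℝ V) k := by
  classical
  set d := finrank ℝ V with hd
  have ha : 0 < aa d k := aa_pos (show 0 < k by omega) hkV
  obtain ⟨F, hF, hFr⟩ := S.exhaust hk hkV hδ0 hδ1 hε
  have hFne : ∀ p ∈ F, p.1 ≠ 0 := fun p hp => (hF.1 p hp).1
  obtain ⟨t0, ht0, ht1, ht⟩ := exists_pos_le F (fun p hp => (hF.1 p hp).2.1)
  set t := δ * t0 with htdef
  have htpos : 0 < t := by positivity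
  have htle : t ≤ 1 := mul_le_one₀ hδ1 ht0.le ht1
  set R : Set V := {x | x ∈ X V ∧ ∀ p ∈ F, (1 + δ) * p.2 < S.D p.1 x} with hR
  obtain ⟨F1, hF1R, hF1d, hF1c⟩ := S.packing hk hkV R (fun x hx => hx.1) htpos htle
  have hF1ne : ∀ x ∈ F1, x ≠ 0 := fun x hx => norm_pos_iff.mp (hF1R hx).1.1
  have hF1sub : ∀ x ∈ F1, tube (S.L x) t ⊆ S.rest F := by
    intro x hx
    refine S.tube_subset_rest hFne (hF1ne x hx) fun p hp => ?_
    have h1 := (hF1R hx).2 p hp
    have h2 : t ≤ δ * p.2 := by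
      rw [htdef]
      exact mul_le_mul_of_nonneg_left (ht p hp) hδ0.le
    linarith
  refine ⟨F, F1, t, htpos, fun p hp => ⟨hFne p hp, (hF.1 p hp).2.1⟩, hF1ne, ?_, ?_⟩
  · intro y hy
    by_cases h : ∃ p ∈ F, y ∈ tube (S.L p.1) ((1 + δ) * p.2)
    · exact Or.inl h
    · right
      refine hF1c y ⟨hy, fun p hp => ?_⟩
      by_contra h'
      exact h ⟨p, hp, (S.mem_tube_iff).mpr ⟨hy.1, hy.2, not_lt.mp h'⟩⟩
  · -- the first sum
    have hq : 0 < √(1 + δ ^ 2) := Real.sqrt_pos.mpr (by positivity)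
    have h1 : ∑ p ∈ F, (aa d k * p.2 ^ (d - k) * (√(1 + δ ^ 2))⁻¹ ^ d) ≤ kap d := by
      refine le_trans (Finset.sum_le_sum fun p hp =>
        S.vol_tube_ge (by omega) hkV (hFne p hp) (hF.1 p hp).2.1 (hF.1 p hp).2.2) ?_
      refine le_trans (S.sum_vol_le F Prod.fst Prod.snd (A := X V) subset_rfl hF.2
        (fun i _ => tube_subset _ _)) ?_
      exact volume_X_le (by omega)
    have h2 : ∑ p ∈ F, p.2 ^ (d - k) ≤ √(1 + δ ^ 2) ^ d * (kap d / aa d k) := by
      have h3 : ∑ p ∈ F, (aa d k * p.2 ^ (d - k) * (√(1 + δ ^ 2))⁻¹ ^ d) =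
          (aa d k * (√(1 + δ ^ 2))⁻¹ ^ d) * ∑ p ∈ F, p.2 ^ (d - k) := by
        rw [Finset.mul_sum]
        refine Finset.sum_congr rfl fun p _ => ?_
        ring
      rw [h3] at h1
      have h4 : 0 < aa d k * (√(1 + δ ^ 2))⁻¹ ^ d := by positivity
      have h5 : ∑ p ∈ F, p.2 ^ (d - k) ≤ kap d / (aa d k * (√(1 + δ ^ 2))⁻¹ ^ d) := by
        rw [le_div_iff₀ h4]
        linarith
      refine h5.trans (le_of_eq ?_)
      rw [inv_pow]
      field_simp
    have h6 : ∑ p ∈ F, ((1 + δ) * p.2) ^ (d - k) ≤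
        (1 + δ) ^ (d - k) * √(1 + δ ^ 2) ^ d * (kap d / aa d k) := by
      calc ∑ p ∈ F, ((1 + δ) * p.2) ^ (d - k) = (1 + δ) ^ (d - k) * ∑ p ∈ F, p.2 ^ (d - k) := by
            rw [Finset.mul_sum]
            exact Finset.sum_congr rfl fun p _ => mul_pow _ _ _
        _ ≤ (1 + δ) ^ (d - k) * (√(1 + δ ^ 2) ^ d * (kap d / aa d k)) := by gcongr
        _ = _ := by ring
    -- the second sum
    have h7 : F1.card * (aa d k * t ^ (d - k) * (1 / 2 : ℝ) ^ d) ≤ ε := by
      rw [← nsmul_eq_mul]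
      refine le_trans (Finset.card_nsmul_le_sum F1
        (fun x => volume.real (tube (S.L x) t)) _ fun x hx =>
          S.vol_tube_ge_half (by omega) hkV (hF1ne x hx) htpos htle) ?_
      refine le_trans (S.sum_vol_le F1 id (fun _ => t) (S.rest_subset F) hF1d hF1sub) hFr.le
    have h8 : F1.card * (2 * t) ^ (d - k) ≤ 2 ^ (d - k) * 2 ^ d * ε / aa d k := by
      rw [le_div_iff₀ ha]
      have h9 : (2 : ℝ) ^ d * (1 / 2 : ℝ) ^ d = 1 := by
        rw [← mul_pow]
        norm_num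
      calc F1.card * (2 * t) ^ (d - k) * aa d k
          = 2 ^ (d - k) * ((2 : ℝ) ^ d * (1 / 2 : ℝ) ^ d) *
              (F1.card * (aa d k * t ^ (d - k))) := by
            rw [h9, mul_pow]
            ring
        _ = 2 ^ (d - k) * 2 ^ d * (F1.card * (aa d k * t ^ (d - k) * (1 / 2 : ℝ) ^ d)) := by ring
        _ ≤ 2 ^ (d - k) * 2 ^ d * ε := by gcongr
    linarith

open Pool.Agent.H52R3.CylDef in
include S in
theorem good_le (hk : 2 ≤ k) (hkV : k < finrank ℝ V) {c : ℝ} (hc : c ∈ Good V k) :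
    c ≤ kap (finrank ℝ V) / aa (finrank ℝ V) k := by
  classical
  have : Nontrivial V := Module.nontrivial_of_finrank_pos (R := ℝ) (by omega)
  set d := finrank ℝ V with hd
  have ha : 0 < aa d k := aa_pos (show 0 < k by omega) hkV
  have key : ∀ δ : ℝ, 0 < δ → δ ≤ 1 → c ≤ (1 + δ) ^ (d - k) * √(1 + δ ^ 2) ^ d *
      (kap d / aa d k) + 2 ^ (d - k) * 2 ^ d * δ / aa d k := by
    intro δ hδ0 hδ1
    obtain ⟨F, F1, t, ht, hF, hF1, hcov, hsum⟩ := S.exists_cover hk hkV hδ0 hδ1 hδ0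
    -- index type
    let ι := F ⊕ F1
    let cc : ι → V := Sum.elim (fun p => p.1.1) (fun x => x.1)
    let ss : ι → ℝ := Sum.elim (fun p => (1 + δ) * p.1.2) (fun _ => 2 * t)
    have hcc : ∀ i, cc i ≠ 0 := by
      rintro (⟨p, hp⟩ | ⟨x, hx⟩)
      · exact (hF p hp).1
      · exact hF1 x hx
    have hss : ∀ i, 0 < ss i := by
      rintro (⟨p, hp⟩ | ⟨x, hx⟩)
      · have := (hF p hp).2
        change 0 < (1 + δ) * p.2
        positivity
      · change 0 < 2 * t
        positivity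
    let e := (Fintype.equivFin ι).symm
    let C : Fin (Fintype.card ι) → Cylinder V k := fun j =>
      ⟨S.L (cc (e j)), S.dim _ (hcc _), closedBall 0 (ss (e j)),
        isClosed_closedBall.measurableSet.nullMeasurableSet⟩
    have hcrv : ∀ j, (C j).crv (closedBall 0 1) = ENNReal.ofReal (ss (e j) ^ (d - k)) := by
      intro j
      change volume (closedBall (0 : (S.L (cc (e j)))ᗮ) (ss (e j))) /
        volume (Cyl.shadow (S.L (cc (e j))) (closedBall (0 : V) 1)) = _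
      have hm : finrank ℝ (S.L (cc (e j)))ᗮ = d - k := by
        have := (S.L (cc (e j))).finrank_add_finrank_orthogonal
        rw [S.dim _ (hcc _)] at this
        omega
      have : Nontrivial (S.L (cc (e j)))ᗮ :=
        Module.nontrivial_of_finrank_pos (R := ℝ) (by rw [hm]; omega)
      rw [Cyl.shadow_ball, Measure.addHaar_closedBall _ _ (hss _).le,
        Measure.addHaar_closedBall_eq_addHaar_ball, hm, mul_div_assoc, ENNReal.div_self, mul_one]
      · exact (measure_ball_pos _ _ one_pos).ne'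
      · exact measure_ball_lt_top.ne
    have hsub : closedBall (0 : V) 1 ⊆ ⋃ j, (C j).toSet := by
      have hXne : ∃ y : V, y ∈ X V := by
        obtain ⟨y, hy⟩ := exists_ne (0 : V)
        have hyn : 0 < ‖y‖ := norm_pos_iff.mpr hy
        refine ⟨‖y‖⁻¹ • y, ?_, ?_⟩
        · rw [norm_smul, norm_inv, norm_norm, inv_mul_cancel₀ hyn.ne']
          exact one_pos
        · rw [norm_smul, norm_inv, norm_norm, inv_mul_cancel₀ hyn.ne']
      have hX : ∀ y ∈ X V, ∃ i : ι, y ∈ tube (S.L (cc i)) (ss i) := by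
        intro y hy
        rcases hcov y hy with ⟨p, hp, hpy⟩ | ⟨x, hx, hxy⟩
        · exact ⟨Sum.inl ⟨p, hp⟩, hpy⟩
        · exact ⟨Sum.inr ⟨x, hx⟩, hxy⟩
      intro y hy
      rw [mem_closedBall_zero_iff] at hy
      have hmem : ∀ i : ι, ‖(S.L (cc i))ᗮ.orthogonalProjectionOnto y‖ ≤ ss i →
          y ∈ ⋃ j, (C j).toSet := by
        intro i hi
        refine mem_iUnion.mpr ⟨e.symm i, ?_⟩
        change y ∈ Cyl.cyl (S.L (cc (e (e.symm i)))) (closedBall 0 (ss (e (e.symm i))))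
        rw [e.apply_symm_apply, Cyl.mem_cyl_iff, mem_closedBall_zero_iff]
        exact hi
      by_cases hy0 : y = 0
      · obtain ⟨z, hz⟩ := hXne
        obtain ⟨i, -⟩ := hX z hz
        refine hmem i ?_
        rw [hy0, map_zero, norm_zero]
        exact (hss i).le
      · have hyn : 0 < ‖y‖ := norm_pos_iff.mpr hy0
        obtain ⟨i, hi⟩ := hX y ⟨hyn, hy⟩
        rw [S.mem_tube_iff] at hi
        refine hmem i ?_
        have h1 : ‖(S.L (cc i))ᗮ.orthogonalProjectionOnto y‖ = ‖y‖ * S.D (cc i) y := by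
          unfold D
          field_simp
        rw [h1]
        calc ‖y‖ * S.D (cc i) y ≤ 1 * ss i :=
              mul_le_mul hy hi.2.2 (S.D_nonneg _ _) zero_le_one
          _ = ss i := one_mul _
    have h1 := hc _ isEllipsoid_ball _ C hsub
    simp_rw [hcrv] at h1
    have h2 : ∑ j, ENNReal.ofReal (ss (e j) ^ (d - k)) =
        ENNReal.ofReal (∑ i : ι, ss i ^ (d - k)) := by
      rw [ENNReal.ofReal_sum_of_nonneg (fun i _ => pow_nonneg (hss i).le _)]
      exact e.sum_comp (fun i => ENNReal.ofReal (ss i ^ (d - k)))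
    have h3 : ∑ i : ι, ss i ^ (d - k) = ∑ p ∈ F, ((1 + δ) * p.2) ^ (d - k) +
        F1.card * (2 * t) ^ (d - k) := by
      rw [Fintype.sum_sum_type]
      congr 1
      · exact Finset.sum_coe_sort F (fun p => ((1 + δ) * p.2) ^ (d - k))
      · change ∑ _x : F1, (2 * t) ^ (d - k) = _
        rw [Finset.sum_const, Finset.card_univ, Fintype.card_coe, nsmul_eq_mul]
    rw [h2, h3] at h1
    have h4 : 0 ≤ ∑ p ∈ F, ((1 + δ) * p.2) ^ (d - k) + F1.card * (2 * t) ^ (d - k) := by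
      rw [← h3]
      exact Finset.sum_nonneg fun i _ => pow_nonneg (hss i).le _
    rw [ENNReal.ofReal_le_ofReal_iff h4] at h1
    exact h1.trans hsum
  have hcont : Continuous (fun δ : ℝ => (1 + δ) ^ (d - k) * √(1 + δ ^ 2) ^ d *
      (kap d / aa d k) + 2 ^ (d - k) * 2 ^ d * δ / aa d k) := by fun_prop
  have htend : Tendsto (fun δ : ℝ => (1 + δ) ^ (d - k) * √(1 + δ ^ 2) ^ d *
      (kap d / aa d k) + 2 ^ (d - k) * 2 ^ d * δ / aa d k) (𝓝[>] 0) (𝓝 (kap d / aa d k)) := by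
    have h1 := (hcont.tendsto 0).mono_left (nhdsWithin_le_nhds (s := Ioi 0))
    simpa using h1
  refine ge_of_tendsto htend ?_
  filter_upwards [Ioc_mem_nhdsGT (show (0 : ℝ) < 1 by norm_num)] with δ hδ
  exact key δ hδ.1 hδ.2

end Spread

end Pool.Agent.H52R3.Cyl
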