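import Pool.Agent.H52R3.Cyl4

set_option autoImplicit false

/-!
# Cylinders, cross-sectional volume and the constant `c(d,k)`
-/

namespace Pool.Agent.H52R3.CylDef

open MeasureTheory Module
open scoped Real ENNReal

section defs

variable {V : Type*} [NormedAddCommGroup V] [InnerProductSpace ℝ V] [FiniteDimensional ℝ V]
  [MeasurableSpace V] [BorelSpace V]

variable (V) in
/-- the data of a `k`-codimensional cylinder: a `k`-dimensional subspace `H` and a Lebesgue
measurable subset `B` of its orthogonal complement -/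
structure Cylinder (k : ℕ) where
  /-- the direction space -/
  H : Submodule ℝ V
  /-- its dimension -/
  dim : finrank ℝ H = k
  /-- the base -/
  B : Set Hᗮ
  /-- the base is measurable -/
  meas : NullMeasurableSet B volume

/-- the set `H + B` -/
def Cylinder.toSet {k : ℕ} (C : Cylinder V k) : Set V :=
  {x : V | ∃ h ∈ C.H, ∃ b ∈ C.B, x = h + (b : V)}

/-- the orthogonal projection of `K` to `H⊥` -/
def shadow (H : Submodule ℝ V) (K : Set V) : Set Hᗮ :=
  (fun x => Hᗮ.orthogonalProjectionOnto x) '' K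

/-- the cross-sectional volume of a cylinder relative to `K` -/
noncomputable def Cylinder.crv {k : ℕ} (C : Cylinder V k) (K : Set V) : ℝ≥0∞ :=
  volume C.B / volume (shadow C.H K)

/-- ellipsoids: the images of the closed unit ball under invertible affine maps -/
def IsEllipsoid (K : Set V) : Prop :=
  ∃ (A : V ≃L[ℝ] V) (b : V), K = (fun x => A x + b) '' Metric.closedBall 0 1

variable (V) in
/-- the real numbers `c` such that every finite covering of an ellipsoid by `k`-codimensional
cylinders has total cross-sectional volume at least `c` -/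
def Good (k : ℕ) : Set ℝ :=
  {c : ℝ | ∀ K : Set V, IsEllipsoid K → ∀ (N : ℕ) (C : Fin N → Cylinder V k),
    K ⊆ ⋃ i, (C i).toSet → ENNReal.ofReal c ≤ ∑ i, (C i).crv K}

end defs

section lemmas

variable {V : Type*} [NormedAddCommGroup V] [InnerProductSpace ℝ V] [FiniteDimensional ℝ V]
  [MeasurableSpace V] [BorelSpace V]

theorem gamma_mem_good {k : ℕ} (hk : 2 ≤ k) (hkV : k < finrank ℝ V) :
    Real.Gamma ((k : ℝ) / 2) * Real.Gamma (((finrank ℝ V : ℝ) - k) / 2 + 1) /
      Real.Gamma ((finrank ℝ V : ℝ) / 2) ∈ Good V k := by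
  rintro K ⟨A, b, rfl⟩ N C hcov
  exact Cyl.ellipsoid_bound A b (fun i => (C i).H) (fun i => (C i).B) hk (fun i => (C i).dim)
    hkV hcov

theorem exists_submodule (k : ℕ) (hkV : k ≤ finrank ℝ V) :
    ∃ H : Submodule ℝ V, finrank ℝ H = k := by
  let b := stdOrthonormalBasis ℝ V
  let v : Fin k → V := fun i => b (Fin.castLE hkV i)
  have hv : LinearIndependent ℝ v :=
    b.orthonormal.linearIndependent.comp (Fin.castLE hkV) (Fin.castLE_injective hkV)
  refine ⟨Submodule.span ℝ (Set.range v), ?_⟩
  rw [finrank_span_eq_card hv, Fintype.card_fin]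

/-- the unit ball is an ellipsoid -/
theorem isEllipsoid_ball : IsEllipsoid (Metric.closedBall (0 : V) 1) := by
  refine ⟨ContinuousLinearEquiv.refl ℝ V, 0, ?_⟩
  simp

theorem good_le_one {k : ℕ} (hkV : k ≤ finrank ℝ V) {c : ℝ} (hc : c ∈ Good V k) : c ≤ 1 := by
  obtain ⟨H, hH⟩ := exists_submodule (V := V) k hkV
  let C : Cylinder V k := ⟨H, hH, Metric.closedBall (0 : Hᗮ) 1,
    Metric.isClosed_closedBall.measurableSet.nullMeasurableSet⟩
  have h1 := hc _ isEllipsoid_ball 1 (fun _ => C) (by
    intro x hx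
    refine Set.mem_iUnion.mpr ⟨0, ?_⟩
    change x ∈ Cyl.cyl H (Metric.closedBall (0 : Hᗮ) 1)
    rw [Cyl.mem_cyl_iff, mem_closedBall_zero_iff]
    rw [mem_closedBall_zero_iff] at hx
    exact (Submodule.norm_orthogonalProjectionOnto_apply_le _ x).trans hx)
  have h2 : C.crv (Metric.closedBall (0 : V) 1) ≤ 1 := by
    change volume (Metric.closedBall (0 : Hᗮ) 1) /
      volume (Cyl.shadow H (Metric.closedBall (0 : V) 1)) ≤ 1
    rw [Cyl.shadow_ball]
    exact ENNReal.div_self_le_one
  rw [Finset.sum_const, Finset.card_univ, Fintype.card_fin, one_smul] at h1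
  have h3 := h1.trans h2
  rwa [ENNReal.ofReal_le_one] at h3

end lemmas

end Pool.Agent.H52R3.CylDef
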