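import Pool.Agent.H52R3.Basic

open MeasureTheory Set Filter Topology
open scoped ContDiff

namespace Pool.Agent.H52R3

/-- the fundamental domain `1 ≤ |x| < lam` of the dilation by `lam`. -/
def fund (lam : ℝ) : Set E3 := {x | 1 ≤ ‖x‖ ∧ ‖x‖ < lam}

/-- the closed annulus -/
def ann (R : ℝ) : Set E3 := {x | 1 ≤ ‖x‖ ∧ ‖x‖ ≤ R}

lemma ann_eq (R : ℝ) : ann R = Metric.closedBall (0 : E3) R \ Metric.ball 0 1 := by
  ext x; simp [ann, and_comm]

lemma isCompact_ann (R : ℝ) : IsCompact (ann R) := by
  rw [ann_eq]; exact (isCompact_closedBall 0 R).diff Metric.isOpen_ball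

lemma ann_subset_X (R : ℝ) : ann R ⊆ {0}ᶜ := by
  rintro x ⟨h1, -⟩ h0
  rw [mem_singleton_iff] at h0
  rw [h0, norm_zero] at h1
  linarith

lemma fund_subset_ann (lam : ℝ) : fund lam ⊆ ann lam := fun _ hx => ⟨hx.1, hx.2.le⟩

lemma fund_subset_X (lam : ℝ) : fund lam ⊆ {0}ᶜ := (fund_subset_ann lam).trans (ann_subset_X lam)

lemma ne_zero_of_mem_fund {lam : ℝ} {x : E3} (hx : x ∈ fund lam) : x ≠ 0 := fund_subset_X lam hx

lemma ne_zero_of_mem_ann {lam : ℝ} {x : E3} (hx : x ∈ ann lam) : x ≠ 0 := ann_subset_X lam hx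

lemma measurableSet_fund (lam : ℝ) : MeasurableSet (fund lam) := by
  have : fund lam = (fun x : E3 => ‖x‖) ⁻¹' (Ico 1 lam) := rfl
  rw [this]
  exact measurable_norm measurableSet_Ico

lemma integrableOn_fund {lam : ℝ} {k : E3 → ℝ} (hk : ContinuousOn k {0}ᶜ) :
    IntegrableOn k (fund lam) :=
  (ContinuousOn.integrableOn_compact (isCompact_ann lam)
    (hk.mono (ann_subset_X lam))).mono_set (fund_subset_ann lam)

lemma SX.integrableOn {lam : ℝ} {k : E3 → ℝ} (hk : SX k) : IntegrableOn k (fund lam) :=
  integrableOn_fund hk.continuousOn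

lemma integrable_of_annulus {k : E3 → ℝ} {R : ℝ} (hk : ContinuousOn k {0}ᶜ)
    (h0 : ∀ x, ¬ (1 ≤ ‖x‖ ∧ ‖x‖ ≤ R) → k x = 0) : Integrable k := by
  have h1 : IntegrableOn k (ann R) :=
    ContinuousOn.integrableOn_compact (isCompact_ann R) (hk.mono (ann_subset_X R))
  exact h1.integrable_of_forall_notMem_eq_zero (fun x hx => h0 x hx)

/-- a smooth cut-off, `0` on the unit ball and `1` outside the ball of radius `√2`. -/
noncomputable def chi (x : E3) : ℝ := Real.smoothTransition (‖x‖ ^ 2 - 1)

lemma contDiff_chi : ContDiff ℝ ∞ chi := by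
  unfold chi
  exact Real.smoothTransition.contDiff.comp ((contDiff_norm_sq ℝ).sub contDiff_const)

lemma chi_zero {x : E3} (hx : ‖x‖ ≤ 1) : chi x = 0 := by
  apply Real.smoothTransition.zero_of_nonpos
  nlinarith [norm_nonneg x]

lemma chi_one {x : E3} (hx : 2 ≤ ‖x‖ ^ 2) : chi x = 1 := by
  apply Real.smoothTransition.one_of_one_le
  linarith

lemma pd_chi_zero {i : Fin 3} {x : E3} (hx : ¬ (1 ≤ ‖x‖ ∧ ‖x‖ ≤ 2)) : pd i chi x = 0 := by
  by_cases h : 1 ≤ ‖x‖
  · have h2 : 2 < ‖x‖ := by
      by_contra h3; exact hx ⟨h, not_lt.1 h3⟩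
    have : chi =ᶠ[𝓝 x] fun _ => 1 := by
      have ho : IsOpen {y : E3 | 2 < ‖y‖} := isOpen_lt continuous_const continuous_norm
      filter_upwards [ho.mem_nhds h2] with y hy
      apply chi_one
      have : (2:ℝ) < ‖y‖ := hy
      nlinarith
    rw [pd_congr i this]
    simp [pd]
  · have : chi =ᶠ[𝓝 x] fun _ => 0 := by
      have ho : IsOpen {y : E3 | ‖y‖ < 1} := isOpen_lt continuous_norm continuous_const
      filter_upwards [ho.mem_nhds (not_le.1 h)] with y hy
      exact chi_zero (le_of_lt hy)
    rw [pd_congr i this]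
    simp [pd]

lemma integral_scale {lam : ℝ} (hl : 0 < lam) (k : E3 → ℝ) :
    ∫ x : E3, (lam ^ 3)⁻¹ * k (lam⁻¹ • x) = ∫ x, k x := by
  rw [integral_const_mul, Measure.integral_comp_inv_smul]
  have : Module.finrank ℝ E3 = 3 := by simp
  rw [this, abs_of_pos (pow_pos hl 3), smul_eq_mul]
  have : lam ^ 3 ≠ 0 := (pow_pos hl 3).ne'
  field_simp

/-- The divergence theorem on the quotient by the dilation. -/
theorem integral_div {lam : ℝ} (hl : 1 < lam) (V : Fin 3 → E3 → ℝ) (hV : ∀ i, SX (V i))
    (hs : ∀ i, ∀ x ≠ 0, V i (lam • x) = (lam ^ 2)⁻¹ * V i x) :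
    ∫ x in fund lam, ∑ i, pd i (V i) x = 0 := by
  have hl0 : 0 < lam := by linarith
  have hlne : lam ≠ 0 := hl0.ne'
  set h : E3 → ℝ := fun x => ∑ i, pd i (V i) x with hh
  have hSh : SX h := SX.sum fun i _ => (hV i).pd i
  have hhs : ∀ x ≠ 0, h (lam • x) = (lam ^ 3)⁻¹ * h x := by
    intro x hx
    simp only [hh, Finset.mul_sum]
    refine Finset.sum_congr rfl fun i _ => ?_
    rw [pd_scale (c := (lam ^ 2)⁻¹) (d := 0) hlne (fun y hy => by rw [hs i y hy]; ring) hx (hV i) i]
    field_simp
  have hhs' : ∀ x ≠ 0, h x = (lam ^ 3)⁻¹ * h (lam⁻¹ • x) := by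
    intro x hx
    rw [← hhs _ (smul_ne_zero (inv_ne_zero hlne) hx), smul_inv_smul₀ hlne]
  have hVs' : ∀ i, ∀ x ≠ 0, V i x = (lam ^ 2)⁻¹ * V i (lam⁻¹ • x) := by
    intro i x hx
    rw [← hs i _ (smul_ne_zero (inv_ne_zero hlne) hx), smul_inv_smul₀ hlne]
  have hnorm : ∀ x : E3, ‖lam⁻¹ • x‖ = ‖x‖ / lam := by
    intro x; rw [norm_smul, Real.norm_of_nonneg (inv_nonneg.2 hl0.le)]; field_simp
  set eta : E3 → ℝ := fun x => chi x - chi (lam⁻¹ • x) with heta
  have heta_smooth : ContDiff ℝ ∞ eta :=
    contDiff_chi.sub (contDiff_chi.comp (contDiff_const_smul _))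
  have heta0 : ∀ x, ¬ (1 ≤ ‖x‖ ∧ ‖x‖ ≤ 2 * lam) → eta x = 0 := by
    intro x hx
    by_cases h1 : 1 ≤ ‖x‖
    · have h2 : 2 * lam < ‖x‖ := by
        by_contra h3; exact hx ⟨h1, not_lt.1 h3⟩
      have a1 : chi x = 1 := chi_one (by nlinarith)
      have a2 : chi (lam⁻¹ • x) = 1 := by
        apply chi_one
        rw [hnorm]
        have : 2 < ‖x‖ / lam := by rw [lt_div_iff₀ hl0]; exact h2
        nlinarith
      simp [heta, a1, a2]
    · have h1' := (not_le.1 h1).le
      have a1 : chi x = 0 := chi_zero h1'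
      have a2 : chi (lam⁻¹ • x) = 0 := by
        apply chi_zero; rw [hnorm, div_le_one hl0]; linarith
      simp [heta, a1, a2]
  have hpdeta : ∀ i x, pd i eta x = pd i chi x - lam⁻¹ * pd i chi (lam⁻¹ • x) := by
    intro i x
    have h1 : HasFDerivAt (fun y : E3 => chi (lam⁻¹ • y))
        ((fderiv ℝ chi (lam⁻¹ • x)).comp (lam⁻¹ • ContinuousLinearMap.id ℝ E3)) x := by
      have := ((contDiff_chi.differentiable (by simp)) (lam⁻¹ • x)).hasFDerivAt
      exact HasFDerivAt.comp x this ((hasFDerivAt_id x).const_smul lam⁻¹)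
    have h2 := ((contDiff_chi.differentiable (by simp)) x).hasFDerivAt
    have h3 := (h2.sub h1).fderiv
    unfold pd
    have h4 : (fun y => chi y - chi (lam⁻¹ • y)) = (chi - fun y : E3 => chi (lam⁻¹ • y)) := rfl
    rw [heta, h4, h3]
    simp
  have hpdeta0 : ∀ i x, ¬ (1 ≤ ‖x‖ ∧ ‖x‖ ≤ 2 * lam) → pd i eta x = 0 := by
    intro i x hx
    rw [hpdeta]
    have a1 : pd i chi x = 0 := pd_chi_zero (fun ⟨h1, h2⟩ => hx ⟨h1, by nlinarith⟩)
    have a2 : pd i chi (lam⁻¹ • x) = 0 := by
      apply pd_chi_zero
      rintro ⟨h1, h2⟩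
      rw [hnorm] at h1 h2
      rw [le_div_iff₀ hl0] at h1
      rw [div_le_iff₀ hl0] at h2
      exact hx ⟨by linarith, h2⟩
    rw [a1, a2]; ring
  -- Step 2: the smooth integral vanishes
  have step2 : ∫ x, eta x * h x = 0 := by
    have e1 : ∀ i, ∫ x, eta x * pd i (V i) x = 0 := by
      intro i
      have hts : tsupport eta ⊆ {0}ᶜ := by
        have : Function.support eta ⊆ ann (2 * lam) := by
          intro x hx
          by_contra hc
          exact hx (heta0 x hc)
        exact (closure_minimal this (isCompact_ann _).isClosed).trans (ann_subset_X _)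
      have hetac : ContinuousOn eta {0}ᶜ := heta_smooth.continuous.continuousOn
      have hSeta : SX eta := SX.of_contDiff heta_smooth
      have key := integral_mul_fderiv_eq_neg_fderiv_mul_of_integrable (μ := (volume : Measure E3))
        (f := eta) (g := V i) (v := EuclideanSpace.single i (1 : ℝ)) ?_ ?_ ?_ ?_ ?_
      · change ∫ x, eta x * pd i (V i) x = - ∫ x, pd i eta x * V i x at key
        rw [key]
        have hk : Integrable (fun x => pd i chi x * V i x) := by
          apply integrable_of_annulus (R := 2)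
          · exact ((SX.of_contDiff contDiff_chi).pd i).continuousOn.mul (hV i).continuousOn
          · intro x hx; rw [pd_chi_zero hx, zero_mul]
        have e2 : ∀ x, pd i eta x * V i x = pd i chi x * V i x
            - (lam ^ 3)⁻¹ * (pd i chi (lam⁻¹ • x) * V i (lam⁻¹ • x)) := by
          intro x
          by_cases hx : x = 0
          · subst hx
            have : pd i chi (0 : E3) = 0 := pd_chi_zero (by simp)
            simp [hpdeta, this]
          · rw [hpdeta]
            conv_lhs => rw [sub_mul]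
            congr 1
            rw [hVs' i x hx]
            field_simp
        have hk2 : Integrable (fun x => (lam ^ 3)⁻¹ *
            (pd i chi (lam⁻¹ • x) * V i (lam⁻¹ • x))) :=
          ((integrable_comp_smul_iff (volume : Measure E3) (fun x => pd i chi x * V i x)
            (inv_ne_zero hlne)).2 hk).const_mul _
        rw [integral_congr_ae (Eventually.of_forall e2), integral_sub hk hk2,
          integral_scale hl0 (fun x => pd i chi x * V i x)]
        ring
      · apply integrable_of_annulus (R := 2 * lam)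
        · exact (hSeta.pd i).continuousOn.mul (hV i).continuousOn
        · intro x hx
          have := hpdeta0 i x hx
          unfold pd at this
          rw [this, zero_mul]
      · apply integrable_of_annulus (R := 2 * lam)
        · exact hetac.mul ((hV i).pd i).continuousOn
        · intro x hx; rw [heta0 x hx, zero_mul]
      · apply integrable_of_annulus (R := 2 * lam)
        · exact hetac.mul (hV i).continuousOn
        · intro x hx; rw [heta0 x hx, zero_mul]
      · intro x _; exact heta_smooth.differentiable (by simp) x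
      · intro x hx; exact (hV i).differentiableAt (hts hx)
    have e3 : ∀ x, eta x * h x = ∑ i, eta x * pd i (V i) x := by
      intro x; simp only [hh, Finset.mul_sum]
    rw [integral_congr_ae (Eventually.of_forall e3), integral_finsetSum]
    · simp [e1]
    · intro i _
      apply integrable_of_annulus (R := 2 * lam)
      · exact heta_smooth.continuous.continuousOn.mul ((hV i).pd i).continuousOn
      · intro x hx; rw [heta0 x hx, zero_mul]
  -- Step 1
  set dl : E3 → ℝ := fun x => if 1 ≤ ‖x‖ then (chi x - 1) * h x else 0 with hdl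
  have hdl_int : Integrable dl := by
    have hi : IntegrableOn (fun x => (chi x - 1) * h x) (ann 2) :=
      ContinuousOn.integrableOn_compact (isCompact_ann 2)
        (((contDiff_chi.continuous.sub continuous_const).continuousOn).mul
          (hSh.continuousOn.mono (ann_subset_X 2)))
    have hi2 : IntegrableOn dl (ann 2) := by
      apply hi.congr_fun _ (isCompact_ann 2).isClosed.measurableSet
      intro x hx
      simp only [hdl]
      rw [if_pos hx.1]
    refine hi2.integrable_of_forall_notMem_eq_zero fun x hx => ?_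
    simp only [hdl]
    split_ifs with h1
    · have h2 : 2 < ‖x‖ := by
        by_contra h3; exact hx ⟨h1, not_lt.1 h3⟩
      rw [chi_one (by nlinarith)]; ring
    · rfl
  have hdl2_int : Integrable (fun x => (lam ^ 3)⁻¹ * dl (lam⁻¹ • x)) :=
    ((integrable_comp_smul_iff (volume : Measure E3) dl (inv_ne_zero hlne)).2 hdl_int).const_mul _
  have hF_int : Integrable (indicator (fund lam) h) :=
    (integrable_indicator_iff (measurableSet_fund lam)).2 hSh.integrableOn
  have e4 : ∀ x, eta x * h x = indicator (fund lam) h x + dl x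
      - (lam ^ 3)⁻¹ * dl (lam⁻¹ • x) := by
    intro x
    by_cases hx : x = 0
    · subst hx
      have a1 : eta 0 = 0 := heta0 0 (by simp)
      have a2 : (0 : E3) ∉ fund lam := by simp [fund]
      have a3 : dl 0 = 0 := by simp [hdl]
      rw [a1, indicator_of_notMem a2, smul_zero, a3]; ring
    · have hh' := hhs' x hx
      by_cases h1 : 1 ≤ ‖x‖
      · by_cases h2 : ‖x‖ < lam
        · have a1 : x ∈ fund lam := ⟨h1, h2⟩
          have a2 : ¬ (1 ≤ ‖lam⁻¹ • x‖) := by
            rw [hnorm, not_le, div_lt_one hl0]; exact h2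
          have a3 : chi (lam⁻¹ • x) = 0 := chi_zero (not_le.1 a2).le
          rw [indicator_of_mem a1]
          simp only [hdl, heta]
          rw [if_pos h1, if_neg a2, a3]; ring
        · have a1 : x ∉ fund lam := fun hc => h2 hc.2
          have a2 : 1 ≤ ‖lam⁻¹ • x‖ := by
            rw [hnorm, one_le_div hl0]; exact not_lt.1 h2
          rw [indicator_of_notMem a1]
          simp only [hdl, heta]
          rw [if_pos h1, if_pos a2]
          have : (lam ^ 3)⁻¹ * ((chi (lam⁻¹ • x) - 1) * h (lam⁻¹ • x))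
              = (chi (lam⁻¹ • x) - 1) * h x := by rw [hh']; ring
          rw [this]; ring
      · have a1 : x ∉ fund lam := fun hc => h1 hc.1
        have a2 : ¬ (1 ≤ ‖lam⁻¹ • x‖) := by
          rw [hnorm, not_le, div_lt_one hl0]; linarith [not_le.1 h1]
        have a3 : eta x = 0 := heta0 x (fun hc => h1 hc.1)
        rw [indicator_of_notMem a1, a3]
        simp only [hdl]
        rw [if_neg h1, if_neg a2]; ring
  have step1 : ∫ x, eta x * h x = ∫ x in fund lam, h x := by
    have hA : Integrable (fun x => indicator (fund lam) h x + dl x) := hF_int.add hdl_int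
    rw [integral_congr_ae (Eventually.of_forall e4), integral_sub hA hdl2_int,
      integral_add hF_int hdl_int, integral_scale hl0 dl, integral_indicator (measurableSet_fund lam)]
    ring
  rw [← step1, step2]

end Pool.Agent.H52R3
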