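import Pool.Agent.H314.Dir.React

set_option autoImplicit false
open Filter Topology Set Metric

/-! The reaction of the starting development `Pool/Agent/H314/Dir`, continued linearly beyond `1` so
that its derivative is bounded. -/

namespace Pool.Agent.H52R3.Epi

open Pool.Agent.H314.Dir

/-- the reaction -/
noncomputable def fr (t : ℝ) : ℝ :=
  lam * (t - 4 * (max 0 (t - 1 / 2)) ^ 2 + 4 * (max 0 (t - 1)) ^ 2)

theorem lam_pos : 0 < lam := by have := Re.lam_bounds.1; linarith

theorem hasDerivAt_sq1 (t : ℝ) :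
    HasDerivAt (fun t : ℝ => (max 0 (t - 1)) ^ 2) (2 * max 0 (t - 1)) t := by
  have h1 := Re.hasDerivAt_sq (t - 1 / 2)
  have h2 : HasDerivAt (fun t : ℝ => t - 1 / 2) 1 t := (hasDerivAt_id t).sub_const (1 / 2)
  have h3 := HasDerivAt.comp t h1 h2
  have e1 : ((fun t : ℝ => (max 0 (t - 1 / 2)) ^ 2) ∘ fun t : ℝ => t - 1 / 2) =
      fun t : ℝ => (max 0 (t - 1)) ^ 2 := by
    funext s
    simp only [Function.comp]
    have : s - 1 / 2 - 1 / 2 = s - 1 := by ring
    rw [this]
  rw [e1] at h3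
  have e2 : 2 * max 0 (t - 1 / 2 - 1 / 2) * 1 = 2 * max 0 (t - 1) := by
    have : t - 1 / 2 - 1 / 2 = t - 1 := by ring
    rw [this, mul_one]
  rw [e2] at h3
  exact h3

/-- the clamp of `t - 1/2` to `[0, 1/2]` -/
noncomputable def cl (t : ℝ) : ℝ := max 0 (t - 1 / 2) - max 0 (t - 1)

theorem cl_nonneg (t : ℝ) : 0 ≤ cl t := by
  unfold cl
  rcases le_total t 1 with h | h
  · rw [max_eq_left (by linarith : t - 1 ≤ 0)]
    have := le_max_left 0 (t - 1 / 2)
    linarith
  · rw [max_eq_right (by linarith : 0 ≤ t - 1), max_eq_right (by linarith : 0 ≤ t - 1 / 2)]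
    linarith

theorem cl_le (t : ℝ) : cl t ≤ 1 / 2 := by
  unfold cl
  rcases le_total t 1 with h | h
  · rw [max_eq_left (by linarith : t - 1 ≤ 0)]
    have : max 0 (t - 1 / 2) ≤ 1 / 2 := max_le (by norm_num) (by linarith)
    linarith
  · rw [max_eq_right (by linarith : 0 ≤ t - 1), max_eq_right (by linarith : 0 ≤ t - 1 / 2)]
    linarith

theorem cl_eq (t : ℝ) : cl t = min (max 0 (t - 1 / 2)) (1 / 2) := by
  unfold cl
  rcases le_total t 1 with h | h
  · rw [max_eq_left (by linarith : t - 1 ≤ 0), sub_zero, min_eq_left]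
    exact max_le (by norm_num) (by linarith)
  · rw [max_eq_right (by linarith : 0 ≤ t - 1), max_eq_right (by linarith : 0 ≤ t - 1 / 2),
      min_eq_right (by linarith)]
    ring

theorem cl_lip (x y : ℝ) : |cl x - cl y| ≤ |x - y| := by
  rw [cl_eq, cl_eq]
  refine (abs_min_sub_min_le_max _ _ _ _).trans ?_
  rw [sub_self, abs_zero, max_eq_left (abs_nonneg _)]
  refine (abs_max_sub_max_le_max _ _ _ _).trans ?_
  rw [sub_self, abs_zero, max_eq_right (abs_nonneg _)]
  apply le_of_eq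
  congr 1
  ring

theorem hasDerivAt_fr (t : ℝ) : HasDerivAt fr (lam * (1 - 8 * cl t)) t := by
  have h1 := (((hasDerivAt_id t).sub ((Re.hasDerivAt_sq t).const_mul 4)).add
    ((hasDerivAt_sq1 t).const_mul 4)).const_mul lam
  have h2 : lam * (1 - 8 * cl t) =
      lam * (1 - 4 * (2 * max 0 (t - 1 / 2)) + 4 * (2 * max 0 (t - 1))) := by
    unfold cl; ring
  rw [h2]
  exact h1

theorem deriv_fr : deriv fr = fun t => lam * (1 - 8 * cl t) := by
  funext t
  exact (hasDerivAt_fr t).deriv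

theorem contDiff_fr : ContDiff ℝ 1 fr := by
  rw [contDiff_one_iff_deriv]
  refine ⟨fun t => (hasDerivAt_fr t).differentiableAt, ?_⟩
  rw [deriv_fr]
  unfold cl
  fun_prop

theorem deriv_fr_bdd (t : ℝ) : |deriv fr t| ≤ 3 * lam := by
  rw [deriv_fr]
  simp only
  have h0 := cl_nonneg t
  have h1 := cl_le t
  have hl := lam_pos
  rw [abs_le]
  constructor <;> nlinarith

theorem deriv_fr_lip (x y : ℝ) : |deriv fr x - deriv fr y| ≤ 8 * lam * |x - y| := by
  rw [deriv_fr]
  simp only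
  have h1 : lam * (1 - 8 * cl x) - lam * (1 - 8 * cl y) = -(8 * lam * (cl x - cl y)) := by ring
  have hl := lam_pos
  rw [h1, abs_neg, abs_mul, abs_of_pos (by positivity : 0 < 8 * lam)]
  exact mul_le_mul_of_nonneg_left (cl_lip x y) (by positivity)

theorem holder_fr (γ : NNReal) (h1 : γ ≤ 1) : ∃ C : NNReal, HolderWith C γ (deriv fr) := by
  have hl := lam_pos
  refine ⟨Real.toNNReal (8 * lam), ?_⟩
  intro x y
  have h0 := abs_nonneg (x - y)
  have h8 : |deriv fr x - deriv fr y| ≤ 8 * lam * |x - y| ^ (γ : ℝ) := by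
    rcases le_total |x - y| 1 with h | h
    · refine (deriv_fr_lip x y).trans ?_
      have h3 : |x - y| ≤ |x - y| ^ (γ : ℝ) := by
        rcases h0.eq_or_lt with h4 | h4
        · rw [← h4]
          exact Real.rpow_nonneg le_rfl _
        · calc |x - y| = |x - y| ^ (1 : ℝ) := (Real.rpow_one _).symm
            _ ≤ |x - y| ^ (γ : ℝ) :=
              Real.rpow_le_rpow_of_exponent_ge h4 h (by exact_mod_cast h1)
      gcongr
    · have h3 : 1 ≤ |x - y| ^ (γ : ℝ) := Real.one_le_rpow h γ.coe_nonneg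
      have h4 : |deriv fr x - deriv fr y| ≤ |deriv fr x| + |deriv fr y| := abs_sub _ _
      have h5 := deriv_fr_bdd x
      have h6 := deriv_fr_bdd y
      nlinarith
  have e1 : edist (deriv fr x) (deriv fr y) = ENNReal.ofReal |deriv fr x - deriv fr y| := by
    rw [edist_dist, Real.dist_eq]
  have e2 : edist x y = ENNReal.ofReal |x - y| := by rw [edist_dist, Real.dist_eq]
  have e3 : ((Real.toNNReal (8 * lam) : NNReal) : ENNReal) = ENNReal.ofReal (8 * lam) := rfl
  rw [e1, e2, e3, ENNReal.ofReal_rpow_of_nonneg h0 γ.coe_nonneg,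
    ← ENNReal.ofReal_mul (by positivity)]
  exact ENNReal.ofReal_le_ofReal h8

theorem fr_eq_ff {t : ℝ} (ht : t ≤ 1) : fr t = ff t := by
  unfold fr ff
  rw [max_eq_left (by linarith : t - 1 ≤ 0)]
  ring

theorem fr_of_ge {t : ℝ} (ht : 1 ≤ t) : fr t = -(3 * lam * (t - 1)) := by
  unfold fr
  rw [max_eq_right (by linarith : 0 ≤ t - 1), max_eq_right (by linarith : 0 ≤ t - 1 / 2)]
  ring

theorem fr_zero : fr 0 = 0 := by rw [fr_eq_ff (by norm_num), Re.ff_zero]

theorem fr_one : fr 1 = 0 := by rw [fr_eq_ff le_rfl, Re.ff_one]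

theorem fr_pos {t : ℝ} (h0 : 0 < t) (h1 : t < 1) : 0 < fr t := by
  rw [fr_eq_ff h1.le]; exact Re.ff_pos t ⟨h0, h1⟩

theorem fr_neg {t : ℝ} (h1 : 1 < t) : fr t < 0 := by
  rw [fr_of_ge h1.le]
  have := lam_pos
  have : 0 < 3 * lam * (t - 1) := mul_pos (by positivity) (by linarith)
  linarith

theorem deriv_fr_zero : 0 < deriv fr 0 := by
  rw [deriv_fr]
  have h : cl 0 = 0 := by unfold cl; norm_num
  simp only [h]
  have := lam_pos
  linarith

theorem deriv_fr_one : deriv fr 1 < 0 := by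
  rw [deriv_fr]
  have h : cl 1 = 1 / 2 := by unfold cl; norm_num
  simp only [h]
  have := lam_pos
  linarith

theorem locallyLipschitz_fr : LocallyLipschitz fr := fun x => contDiff_fr.locallyLipschitz x

theorem monotone_fr : MonotoneOn (fun t => fr t + 8 * t) (Icc 0 1) := by
  intro a ha b hb hab
  have h := Re.monotone_ff ha hb hab
  simp only at h ⊢
  rw [fr_eq_ff ha.2, fr_eq_ff hb.2]
  exact h

theorem fr_nonneg (s : ℝ) (hs : s ∈ Icc (0 : ℝ) 1) : 0 ≤ fr s := by
  rw [fr_eq_ff hs.2]; exact Re.ff_nonneg s hs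

end Pool.Agent.H52R3.Epi
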