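import Pool.Agent.H314.Dir.Dirichlet
import Pool.Agent.H314.Dir.DomF
import Pool.Agent.H314.Dir.Sup
import Pool.Agent.H314.Dir.Unif
import Pool.Agent.H52R3.EpiReact

set_option autoImplicit false
open Filter Topology Set Metric

/-! Two positive bounded solutions on one epigraph: assembly of `Pool/Agent/H314/Dir`. -/

namespace Pool.Agent.H52R3.Epi

open Pool.Agent.H314.Dir
open scoped InnerProductSpace

/-- the domain of the starting development -/
def Om : Set EX := {X | FF X < 0}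

theorem lap_eq_laplacian {d : ℕ} (u : Eu d → ℝ) (x : Eu d) : lap u x = (Laplacian.laplacian u) x := by
  rw [InnerProductSpace.laplacian_eq_iteratedFDeriv_orthonormalBasis u
    (EuclideanSpace.basisFun (Fin d) ℝ)]
  unfold lap
  refine Finset.sum_congr rfl fun i _ => ?_
  congr 1
  funext j
  fin_cases j <;> simp

theorem isOpen_Om : IsOpen Om := isOpen_lt DF.contDiff_FF.continuous continuous_const

theorem ext_Om : ∀ p ∈ frontier Om, ∃ r0 > 0, ∃ c, dist p c = r0 ∧ Disjoint (ball c r0) Om := by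
  obtain ⟨c, hc, hg⟩ := DF.grad_FF
  obtain ⟨C, hC⟩ := DF.bound_FF
  intro p hp
  obtain ⟨r0, hr0, c', hd, hb⟩ := ext_ball FF DF.contDiff_FF c C hc hg hC p (DF.frontier_subset hp)
  refine ⟨r0, hr0, c', hd, ?_⟩
  rw [Set.disjoint_left]
  intro x hx hx'
  have h1 := hb x hx
  have h2 : FF x < 0 := hx'
  linarith

/-- the first pair: subsolution `Vf (1/2)`, supersolution `1` -/
theorem exists_large : ∃ u : EX → ℝ, ContDiffOn ℝ 2 u Om ∧ ContinuousOn u (closure Om) ∧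
      (∀ x ∈ frontier Om, u x = 0) ∧ (∀ x ∈ Om, 0 < u x) ∧
      (∀ x ∈ Om, Vf (1 / 2) x ≤ u x ∧ u x ≤ 1) ∧ (∀ x ∈ Om, - lap u x = fr (u x)) := by
  refine dirichlet_exists Om isOpen_Om ext_Om DF.isPreconnected_Omega fr 8 (by norm_num)
    locallyLipschitz_fr monotone_fr fr_nonneg fr_one (Vf (1 / 2)) (fun _ => 1)
    (Sb.Vf_locallyLipschitz _) (LocallyLipschitz.const 1) (Sb.Vf_nonneg (by norm_num)) ?_ ?_ ?_ ?_ ?_ ?_
  · intro x
    have := Sb.Vf_le (c := 1 / 2) (by norm_num) x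
    linarith
  · intro x
    exact le_rfl
  · intro x hx
    by_contra h
    have h1 : 0 < Vf (1 / 2) x := lt_of_le_of_ne (Sb.Vf_nonneg (by norm_num) x) (Ne.symm h)
    exact hx (Sb.FF_neg_of_Vf_pos (by norm_num) h1)
  · intro x _ h
    obtain ⟨h1, h2⟩ := Sb.Vf_sub (c := 1 / 2) (by norm_num) h
    refine ⟨h1, ?_⟩
    have h3 := Sb.Vf_le (c := 1 / 2) (by norm_num) x
    rw [fr_eq_ff (by linarith), Re.ff_eq h3]
    exact h2
  · intro x _ h
    exact absurd h (lt_irrefl _)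
  · refine ⟨0, ?_⟩
    rw [Sb.Vf_zero]
    norm_num

/-- the second pair: subsolution `Vf (1/4)`, supersolution `Sf` -/
theorem exists_small : ∃ u : EX → ℝ, ContDiffOn ℝ 2 u Om ∧ ContinuousOn u (closure Om) ∧
      (∀ x ∈ frontier Om, u x = 0) ∧ (∀ x ∈ Om, 0 < u x) ∧
      (∀ x ∈ Om, Vf (1 / 4) x ≤ u x ∧ u x ≤ Sf x) ∧ (∀ x ∈ Om, - lap u x = fr (u x)) := by
  refine dirichlet_exists Om isOpen_Om ext_Om DF.isPreconnected_Omega fr 8 (by norm_num)
    locallyLipschitz_fr monotone_fr fr_nonneg fr_one (Vf (1 / 4)) Sf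
    (Sb.Vf_locallyLipschitz _) Sp.Sf_locallyLipschitz (Sb.Vf_nonneg (by norm_num))
    Sp.Vf_le_Sf Sp.Sf_le_one ?_ ?_ ?_ ?_
  · intro x hx
    by_contra h
    have h1 : 0 < Vf (1 / 4) x := lt_of_le_of_ne (Sb.Vf_nonneg (by norm_num) x) (Ne.symm h)
    exact hx (Sb.FF_neg_of_Vf_pos (by norm_num) h1)
  · intro x _ h
    obtain ⟨h1, h2⟩ := Sb.Vf_sub (c := 1 / 4) (by norm_num) h
    refine ⟨h1, ?_⟩
    have h3 := Sb.Vf_le (c := 1 / 4) (by norm_num) x
    rw [fr_eq_ff (by linarith), Re.ff_eq (by linarith)]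
    exact h2
  · intro x hx h
    obtain ⟨h1, h2⟩ := Sp.Sf_super hx h
    refine ⟨h1, ?_⟩
    rw [fr_eq_ff h.le]
    exact (Re.ff_le _).trans h2
  · refine ⟨0, ?_⟩
    have h := Sb.Vf_zero
    unfold Vf at h ⊢
    have h2 : 0 < max 0 (Cf 0) * max 0 (1 - bf 0) := by
      have h3 : 1 / 2 * (max 0 (Cf 0) * max 0 (1 - bf 0)) = 1 / 2 * (1 - 1 / 1000000) := by
        rw [← h]; ring
      nlinarith
    nlinarith

theorem zero_mem : (0 : EX) ∈ Om :=
  Sb.FF_neg_of_Vf_pos (c := 1 / 2) (by norm_num) (by rw [Sb.Vf_zero]; norm_num)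

end Pool.Agent.H52R3.Epi
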