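import Pool.Agent.H52R3.Div

open MeasureTheory Set Filter Topology
open scoped ContDiff

namespace Pool.Agent.H52R3

/-- Euclidean Laplacian. -/
noncomputable def lap (f : E3 → ℝ) (x : E3) : ℝ :=
  pd 0 (pd 0 f) x + pd 1 (pd 1 f) x + pd 2 (pd 2 f) x

/-- Euclidean product of the gradients. -/
noncomputable def gdot (f g : E3 → ℝ) (x : E3) : ℝ :=
  pd 0 f x * pd 0 g x + pd 1 f x * pd 1 g x + pd 2 f x * pd 2 g x

/-- The matrix `D²f + df ⊗ df - |df|²/2`. -/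
noncomputable def Smat (f : E3 → ℝ) (i j : Fin 3) (x : E3) : ℝ :=
  pd i (pd j f) x + pd i f x * pd j f x - (1 / 2) * gdot f f x * (if i = j then 1 else 0)

noncomputable def s1 (f : E3 → ℝ) (x : E3) : ℝ := lap f x - (1 / 2) * gdot f f x

noncomputable def Ssq (f : E3 → ℝ) (x : E3) : ℝ :=
  Smat f 0 0 x ^ 2 + Smat f 0 1 x ^ 2 + Smat f 0 2 x ^ 2 +
  Smat f 1 0 x ^ 2 + Smat f 1 1 x ^ 2 + Smat f 1 2 x ^ 2 +
  Smat f 2 0 x ^ 2 + Smat f 2 1 x ^ 2 + Smat f 2 2 x ^ 2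

noncomputable def s2 (f : E3 → ℝ) (x : E3) : ℝ := (1 / 2) * (s1 f x ^ 2 - Ssq f x)

/-- `S_f(∇g, ∇g)` -/
noncomputable def Sq (f g : E3 → ℝ) (x : E3) : ℝ :=
  Smat f 0 0 x * (pd 0 g x * pd 0 g x) + Smat f 0 1 x * (pd 0 g x * pd 1 g x) +
  Smat f 0 2 x * (pd 0 g x * pd 2 g x) +
  Smat f 1 0 x * (pd 1 g x * pd 0 g x) + Smat f 1 1 x * (pd 1 g x * pd 1 g x) +
  Smat f 1 2 x * (pd 1 g x * pd 2 g x) +
  Smat f 2 0 x * (pd 2 g x * pd 0 g x) + Smat f 2 1 x * (pd 2 g x * pd 1 g x) +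
  Smat f 2 2 x * (pd 2 g x * pd 2 g x)

noncomputable def Tq (f g : E3 → ℝ) (x : E3) : ℝ := s1 f x * gdot g g x - Sq f g x

lemma SX.lap {f : E3 → ℝ} (hf : SX f) : SX (lap f) :=
  ((((hf.pd 0).pd 0).add ((hf.pd 1).pd 1))).add ((hf.pd 2).pd 2)

lemma SX.gdot {f g : E3 → ℝ} (hf : SX f) (hg : SX g) : SX (gdot f g) :=
  ((((hf.pd 0).mul (hg.pd 0)).add ((hf.pd 1).mul (hg.pd 1)))).add ((hf.pd 2).mul (hg.pd 2))

lemma SX.Smat {f : E3 → ℝ} (hf : SX f) (i j : Fin 3) : SX (Smat f i j) := by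
  unfold H52R3.Smat
  exact ((((hf.pd j).pd i).add ((hf.pd i).mul (hf.pd j)))).sub
    (((SX.const (1/2)).mul (hf.gdot hf)).mul (SX.const _))

lemma SX.s1 {f : E3 → ℝ} (hf : SX f) : SX (s1 f) :=
  hf.lap.sub ((SX.const _).mul (hf.gdot hf))

lemma SX.Ssq {f : E3 → ℝ} (hf : SX f) : SX (Ssq f) := by
  unfold H52R3.Ssq
  have h : ∀ i j, SX (fun x => H52R3.Smat f i j x ^ 2) := fun i j => (hf.Smat i j).pow 2
  exact ((((((((h 0 0).add (h 0 1)).add (h 0 2)).add (h 1 0)).add (h 1 1)).add (h 1 2)).add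
    (h 2 0)).add (h 2 1)).add (h 2 2)

lemma SX.s2 {f : E3 → ℝ} (hf : SX f) : SX (s2 f) :=
  (SX.const _).mul ((hf.s1.pow 2).sub hf.Ssq)

lemma SX.Sq {f g : E3 → ℝ} (hf : SX f) (hg : SX g) : SX (Sq f g) := by
  unfold H52R3.Sq
  have h : ∀ i j, SX (fun x => H52R3.Smat f i j x * (H52R3.pd i g x * H52R3.pd j g x)) :=
    fun i j => (hf.Smat i j).mul ((hg.pd i).mul (hg.pd j))
  exact ((((((((h 0 0).add (h 0 1)).add (h 0 2)).add (h 1 0)).add (h 1 1)).add (h 1 2)).add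
    (h 2 0)).add (h 2 1)).add (h 2 2)

lemma SX.Tq {f g : E3 → ℝ} (hf : SX f) (hg : SX g) : SX (Tq f g) :=
  (hf.s1.mul (hg.gdot hg)).sub (hf.Sq hg)

lemma pd_add {f g : E3 → ℝ} (hf : SX f) (hg : SX g) {x : E3} (hx : x ≠ 0) (i : Fin 3) :
    pd i (fun y => f y + g y) x = pd i f x + pd i g x :=
  ((hf.hasPd hx i).add (hg.hasPd hx i)).pd_eq ((hf.add hg).differentiableAt hx)

lemma pd_pd_add {f g : E3 → ℝ} (hf : SX f) (hg : SX g) {x : E3} (hx : x ≠ 0) (i j : Fin 3) :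
    pd i (pd j (fun y => f y + g y)) x = pd i (pd j f) x + pd i (pd j g) x := by
  rw [pd_congr_X i hx (fun y hy => pd_add hf hg hy j), pd_add (hf.pd j) (hg.pd j) hx i]

lemma lap_add {f g : E3 → ℝ} (hf : SX f) (hg : SX g) {x : E3} (hx : x ≠ 0) :
    lap (fun y => f y + g y) x = lap f x + lap g x := by
  unfold lap
  rw [pd_pd_add hf hg hx, pd_pd_add hf hg hx, pd_pd_add hf hg hx]; ring

lemma gdot_add {f g : E3 → ℝ} (hf : SX f) (hg : SX g) {x : E3} (hx : x ≠ 0) :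
    gdot (fun y => f y + g y) (fun y => f y + g y) x = gdot f f x + 2 * gdot f g x + gdot g g x := by
  unfold gdot
  rw [pd_add hf hg hx, pd_add hf hg hx, pd_add hf hg hx]; ring

/-- the vector field whose divergence relates the expressions for the total `σ₂`. -/
noncomputable def W (f g : E3 → ℝ) (i : Fin 3) (x : E3) : ℝ :=
  Real.exp (f x + g x) * (
    (-(1 / 2)) * (lap f x * pd i f x -
      (pd i (pd 0 f) x * pd 0 f x + pd i (pd 1 f) x * pd 1 f x + pd i (pd 2 f) x * pd 2 f x))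
    + (1 / 4) * (gdot f f x * pd i f x) - (1 / 4) * (gdot f f x * pd i g x)
    - (1 / 2) * (gdot f g x * pd i g x) + (1 / 4) * (gdot g g x * pd i f x))

lemma SX.W {f g : E3 → ℝ} (hf : SX f) (hg : SX g) (i : Fin 3) : SX (W f g i) := by
  unfold H52R3.W
  have c : ∀ c : ℝ, SX (fun _ => c) := SX.const
  have e := (hf.add hg).exp
  have p := hf.pd
  have r := hg.pd
  have F := fun i j => (hf.pd j).pd i
  have l := hf.lap
  exact e.mul (((((c _).mul ((l.mul (p i)).sub (((F i 0).mul (p 0)).add ((F i 1).mul (p 1)) |>.add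
    ((F i 2).mul (p 2))))).add ((c _).mul ((hf.gdot hf).mul (p i)))).sub
    ((c _).mul ((hf.gdot hf).mul (r i))) |>.sub ((c _).mul ((hf.gdot hg).mul (r i)))).add
    ((c _).mul ((hg.gdot hg).mul (p i))))

lemma hasPd_gdot {f g : E3 → ℝ} (hf : SX f) (hg : SX g) {x : E3} (hx : x ≠ 0) (i : Fin 3) :
    HasPd i (gdot f g) ((pd i (pd 0 f) x * pd 0 g x + pd 0 f x * pd i (pd 0 g) x) +
      (pd i (pd 1 f) x * pd 1 g x + pd 1 f x * pd i (pd 1 g) x) +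
      (pd i (pd 2 f) x * pd 2 g x + pd 2 f x * pd i (pd 2 g) x)) x :=
  (((((hf.pd 0).hasPd hx i).mul ((hg.pd 0).hasPd hx i)).add
    (((hf.pd 1).hasPd hx i).mul ((hg.pd 1).hasPd hx i)))).add
    (((hf.pd 2).hasPd hx i).mul ((hg.pd 2).hasPd hx i))

lemma hasPd_lap {f : E3 → ℝ} (hf : SX f) {x : E3} (hx : x ≠ 0) (i : Fin 3) :
    HasPd i (lap f) (pd i (pd 0 (pd 0 f)) x + pd i (pd 1 (pd 1 f)) x + pd i (pd 2 (pd 2 f)) x) x :=
  (((((hf.pd 0).pd 0).hasPd hx i)).add ((((hf.pd 1).pd 1).hasPd hx i))).add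
    (((hf.pd 2).pd 2).hasPd hx i)

lemma pd_W {f g : E3 → ℝ} (hf : SX f) (hg : SX g) {x : E3} (hx : x ≠ 0) (i : Fin 3) :
    pd i (W f g i) x = Real.exp (f x + g x) * (pd i f x + pd i g x) * (
    (-(1 / 2)) * (lap f x * pd i f x -
      (pd i (pd 0 f) x * pd 0 f x + pd i (pd 1 f) x * pd 1 f x + pd i (pd 2 f) x * pd 2 f x))
    + (1 / 4) * (gdot f f x * pd i f x) - (1 / 4) * (gdot f f x * pd i g x)
    - (1 / 2) * (gdot f g x * pd i g x) + (1 / 4) * (gdot g g x * pd i f x))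
    + Real.exp (f x + g x) * (
      (-(1 / 2)) * ((pd i (pd 0 (pd 0 f)) x + pd i (pd 1 (pd 1 f)) x + pd i (pd 2 (pd 2 f)) x)
          * pd i f x + lap f x * pd i (pd i f) x -
        ((pd i (pd i (pd 0 f)) x * pd 0 f x + pd i (pd 0 f) x * pd i (pd 0 f) x) +
         (pd i (pd i (pd 1 f)) x * pd 1 f x + pd i (pd 1 f) x * pd i (pd 1 f) x) +
         (pd i (pd i (pd 2 f)) x * pd 2 f x + pd i (pd 2 f) x * pd i (pd 2 f) x)))
      + (1 / 4) * ((2 * (pd i (pd 0 f) x * pd 0 f x + pd i (pd 1 f) x * pd 1 f x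
          + pd i (pd 2 f) x * pd 2 f x)) * pd i f x + gdot f f x * pd i (pd i f) x)
      - (1 / 4) * ((2 * (pd i (pd 0 f) x * pd 0 f x + pd i (pd 1 f) x * pd 1 f x
          + pd i (pd 2 f) x * pd 2 f x)) * pd i g x + gdot f f x * pd i (pd i g) x)
      - (1 / 2) * (((pd i (pd 0 f) x * pd 0 g x + pd 0 f x * pd i (pd 0 g) x) +
          (pd i (pd 1 f) x * pd 1 g x + pd 1 f x * pd i (pd 1 g) x) +
          (pd i (pd 2 f) x * pd 2 g x + pd 2 f x * pd i (pd 2 g) x)) * pd i g x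
          + gdot f g x * pd i (pd i g) x)
      + (1 / 4) * ((2 * (pd i (pd 0 g) x * pd 0 g x + pd i (pd 1 g) x * pd 1 g x
          + pd i (pd 2 g) x * pd 2 g x)) * pd i f x + gdot g g x * pd i (pd i f) x)) := by
  have c : ∀ c : ℝ, HasPd i (fun _ => c) 0 x := HasPd.const
  have e := ((hf.hasPd hx i).add (hg.hasPd hx i)).exp
  have p := fun j => (hf.pd j).hasPd hx i
  have r := fun j => (hg.pd j).hasPd hx i
  have F := fun k j => ((hf.pd j).pd k).hasPd hx i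
  have l := hasPd_lap hf hx i
  have ff := hasPd_gdot hf hf hx i
  have fg := hasPd_gdot hf hg hx i
  have gg := hasPd_gdot hg hg hx i
  have h := e.mul (((((c (-(1/2))).mul ((l.mul (p i)).sub ((((F i 0).mul (p 0)).add ((F i 1).mul (p 1))).add
    ((F i 2).mul (p 2))))).add ((c (1/4)).mul (ff.mul (p i)))).sub
    ((c (1/4)).mul (ff.mul (r i))) |>.sub ((c (1/2)).mul (fg.mul (r i)))).add
    ((c (1/4)).mul (gg.mul (p i))))
  have key : HasPd i (W f g i) _ x := h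
  rw [key.pd_eq ((hf.W hg i).differentiableAt hx)]
  ring

/-- The pointwise divergence identity. -/
theorem star_pointwise {f g : E3 → ℝ} (hf : SX f) (hg : SX g) {x : E3} (hx : x ≠ 0) :
    -(1 / 4) * Real.exp (f x + g x) * (gdot f f x + 2 * gdot f g x + gdot g g x)
        * (lap f x + lap g x)
      = Real.exp (f x + g x) * (s2 f x - (1 / 2) * Tq f g x
          - (1 / 4) * gdot g g x * (lap g x - gdot f g x))
        + ∑ i, pd i (W f g i) x := by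
  rw [Fin.sum_univ_three, pd_W hf hg hx, pd_W hf hg hx, pd_W hf hg hx]
  have t01 : pd 0 (pd 1 (pd 1 f)) x = pd 1 (pd 1 (pd 0 f)) x := by
    rw [pd_comm (hf.pd 1) hx, pd_comm3 hf hx]
  have t02 : pd 0 (pd 2 (pd 2 f)) x = pd 2 (pd 2 (pd 0 f)) x := by
    rw [pd_comm (hf.pd 2) hx, pd_comm3 hf hx]
  have t10 : pd 1 (pd 0 (pd 0 f)) x = pd 0 (pd 0 (pd 1 f)) x := by
    rw [pd_comm (hf.pd 0) hx, pd_comm3 hf hx]
  have t12 : pd 1 (pd 2 (pd 2 f)) x = pd 2 (pd 2 (pd 1 f)) x := by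
    rw [pd_comm (hf.pd 2) hx, pd_comm3 hf hx]
  have t20 : pd 2 (pd 0 (pd 0 f)) x = pd 0 (pd 0 (pd 2 f)) x := by
    rw [pd_comm (hf.pd 0) hx, pd_comm3 hf hx]
  have t21 : pd 2 (pd 1 (pd 1 f)) x = pd 1 (pd 1 (pd 2 f)) x := by
    rw [pd_comm (hf.pd 1) hx, pd_comm3 hf hx]
  have a01 : pd 1 (pd 0 f) x = pd 0 (pd 1 f) x := pd_comm hf hx _ _
  have a02 : pd 2 (pd 0 f) x = pd 0 (pd 2 f) x := pd_comm hf hx _ _
  have a12 : pd 2 (pd 1 f) x = pd 1 (pd 2 f) x := pd_comm hf hx _ _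
  have b01 : pd 1 (pd 0 g) x = pd 0 (pd 1 g) x := pd_comm hg hx _ _
  have b02 : pd 2 (pd 0 g) x = pd 0 (pd 2 g) x := pd_comm hg hx _ _
  have b12 : pd 2 (pd 1 g) x = pd 1 (pd 2 g) x := pd_comm hg hx _ _
  rw [t01, t02, t10, t12, t20, t21, a01, a02, a12, b01, b02, b12]
  simp only [s2, Tq, Sq, Ssq, s1, Smat, a01, a02, a12]
  have n1 : ((0 : Fin 3) = 1) = False := by simp
  have n2 : ((0 : Fin 3) = 2) = False := by simp
  have n3 : ((1 : Fin 3) = 2) = False := by simp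
  have n4 : ((1 : Fin 3) = 0) = False := by simp
  have n5 : ((2 : Fin 3) = 0) = False := by simp
  have n6 : ((2 : Fin 3) = 1) = False := by simp
  simp only [n1, n2, n3, n4, n5, n6, if_false, if_true, lap, gdot]
  ring

end Pool.Agent.H52R3
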