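import Pool.Agent.H52R3.Func

open MeasureTheory Set Filter Topology
open scoped ContDiff

namespace Pool.Agent.H52R3

/-- `f (lam x) = f x + log lam`: `e^{-f}` is the length scale of an invariant conformal metric. -/
def QI (lam : ℝ) (f : E3 → ℝ) : Prop := ∀ x ≠ 0, f (lam • x) = f x + Real.log lam

/-- invariance under the dilation -/
def Inv (lam : ℝ) (f : E3 → ℝ) : Prop := ∀ x ≠ 0, f (lam • x) = f x

lemma QI.add {lam : ℝ} {f g : E3 → ℝ} (hf : QI lam f) (hg : Inv lam g) :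
    QI lam (fun x => f x + g x) := fun x hx => by
  change f (lam • x) + g (lam • x) = f x + g x + Real.log lam
  rw [hf x hx, hg x hx]; ring

section
variable {lam : ℝ} {f g : E3 → ℝ} {x : E3}

lemma QI.pd_scale (hl : lam ≠ 0) (h : QI lam f) (hf : SX f) (hx : x ≠ 0) (i : Fin 3) :
    pd i f (lam • x) = lam⁻¹ * pd i f x := by
  rw [H52R3.pd_scale (c := 1) (d := Real.log lam) hl (fun y hy => by rw [h y hy]; ring) hx hf i]
  ring

lemma Inv.pd_scale (hl : lam ≠ 0) (h : Inv lam f) (hf : SX f) (hx : x ≠ 0) (i : Fin 3) :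
    pd i f (lam • x) = lam⁻¹ * pd i f x := by
  rw [H52R3.pd_scale (c := 1) (d := 0) hl (fun y hy => by rw [h y hy]; ring) hx hf i]
  ring

/-- the first derivatives scale as for (quasi-)invariant functions -/
def Sc (lam : ℝ) (f : E3 → ℝ) : Prop := ∀ i, ∀ x ≠ 0, pd i f (lam • x) = lam⁻¹ * pd i f x

lemma QI.sc (hl : lam ≠ 0) (h : QI lam f) (hf : SX f) : Sc lam f :=
  fun i _ hx => h.pd_scale hl hf hx i

lemma Inv.sc (hl : lam ≠ 0) (h : Inv lam f) (hf : SX f) : Sc lam f :=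
  fun i _ hx => h.pd_scale hl hf hx i

lemma Sc.pd2 (hl : lam ≠ 0) (h : Sc lam f) (hf : SX f) (hx : x ≠ 0) (i j : Fin 3) :
    pd i (pd j f) (lam • x) = (lam ^ 2)⁻¹ * pd i (pd j f) x := by
  rw [H52R3.pd_scale (c := lam⁻¹) (d := 0) hl (fun y hy => by rw [h j y hy]; ring) hx (hf.pd j) i]
  field_simp

lemma Sc.lap (hl : lam ≠ 0) (h : Sc lam f) (hf : SX f) (hx : x ≠ 0) :
    lap f (lam • x) = (lam ^ 2)⁻¹ * lap f x := by
  unfold H52R3.lap
  rw [h.pd2 hl hf hx, h.pd2 hl hf hx, h.pd2 hl hf hx]; ring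

lemma Sc.gdot (hl : lam ≠ 0) (h : Sc lam f) (h' : Sc lam g) (hx : x ≠ 0) :
    gdot f g (lam • x) = (lam ^ 2)⁻¹ * gdot f g x := by
  unfold H52R3.gdot
  rw [h 0 x hx, h 1 x hx, h 2 x hx, h' 0 x hx, h' 1 x hx, h' 2 x hx]; field_simp

lemma Sc.Smat (hl : lam ≠ 0) (h : Sc lam f) (hf : SX f) (hx : x ≠ 0) (i j : Fin 3) :
    Smat f i j (lam • x) = (lam ^ 2)⁻¹ * Smat f i j x := by
  unfold H52R3.Smat
  rw [h.pd2 hl hf hx, h.gdot hl h hx, h i x hx, h j x hx]; field_simp

lemma Sc.s1 (hl : lam ≠ 0) (h : Sc lam f) (hf : SX f) (hx : x ≠ 0) :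
    s1 f (lam • x) = (lam ^ 2)⁻¹ * s1 f x := by
  unfold H52R3.s1
  rw [h.lap hl hf hx, h.gdot hl h hx]; ring

lemma Sc.Sq (hl : lam ≠ 0) (h : Sc lam f) (hf : SX f) (h' : Sc lam g) (hx : x ≠ 0) :
    Sq f g (lam • x) = (lam ^ 4)⁻¹ * Sq f g x := by
  unfold H52R3.Sq
  simp only [h.Smat hl hf hx, h' _ x hx]
  field_simp

lemma Sc.Tq (hl : lam ≠ 0) (h : Sc lam f) (hf : SX f) (h' : Sc lam g) (hx : x ≠ 0) :
    Tq f g (lam • x) = (lam ^ 4)⁻¹ * Tq f g x := by
  unfold H52R3.Tq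
  rw [h.Sq hl hf h' hx, h.s1 hl hf hx, h'.gdot hl h' hx]; field_simp

lemma QI.exp (hl : 0 < lam) (h : QI lam f) (hx : x ≠ 0) :
    Real.exp (f (lam • x)) = lam * Real.exp (f x) := by
  rw [h x hx, Real.exp_add, Real.exp_log hl]; ring

end

lemma W_scale {lam : ℝ} (hl : 1 < lam) {f g : E3 → ℝ} (hf : SX f) (hg : SX g) (qf : QI lam f)
    (ig : Inv lam g) (i : Fin 3) (x : E3) (hx : x ≠ 0) :
    W f g i (lam • x) = (lam ^ 2)⁻¹ * W f g i x := by
  have hl0 : 0 < lam := by linarith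
  have hln : lam ≠ 0 := hl0.ne'
  have sf := qf.sc hln hf
  have sg := ig.sc hln hg
  have e : Real.exp (f (lam • x) + g (lam • x)) = lam * Real.exp (f x + g x) :=
    (qf.add ig).exp hl0 hx
  unfold W
  rw [e, sf.lap hln hf hx, sf.gdot hln sf hx, sf.gdot hln sg hx, sg.gdot hln sg hx]
  simp only [sf.pd2 hln hf hx, sf _ x hx, sg _ x hx]
  field_simp

/-- integrated form of the divergence identity -/
theorem integral_star {lam : ℝ} (hl : 1 < lam) {f g : E3 → ℝ} (hf : SX f) (hg : SX g)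
    (qf : QI lam f) (ig : Inv lam g) :
    ∫ x in fund lam, -(1 / 4) * Real.exp (f x + g x) * (gdot f f x + 2 * gdot f g x + gdot g g x)
        * (lap f x + lap g x)
      = ∫ x in fund lam, Real.exp (f x + g x) * (s2 f x - (1 / 2) * Tq f g x
          - (1 / 4) * gdot g g x * (lap g x - gdot f g x)) := by
  have h1 := integral_div hl (W f g) (fun i => hf.W hg i)
    (fun i x hx => W_scale hl hf hg qf ig i x hx)
  have c : ∀ c : ℝ, SX (fun _ => c) := SX.const
  have hB : SX (fun x => Real.exp (f x + g x) * (s2 f x - (1 / 2) * Tq f g x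
          - (1 / 4) * gdot g g x * (lap g x - gdot f g x))) :=
    (hf.add hg).exp.mul ((hf.s2.sub ((c _).mul (hf.Tq hg))).sub
      (((c _).mul (hg.gdot hg)).mul (hg.lap.sub (hf.gdot hg))))
  have hW : SX (fun x => ∑ i, pd i (W f g i) x) := SX.sum fun i _ => (hf.W hg i).pd i
  have h2 : ∀ x ∈ fund lam, -(1 / 4) * Real.exp (f x + g x) *
      (gdot f f x + 2 * gdot f g x + gdot g g x) * (lap f x + lap g x)
      = Real.exp (f x + g x) * (s2 f x - (1 / 2) * Tq f g x
          - (1 / 4) * gdot g g x * (lap g x - gdot f g x)) + ∑ i, pd i (W f g i) x :=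
    fun x hx => star_pointwise hf hg (ne_zero_of_mem_fund hx)
  rw [setIntegral_congr_fun (measurableSet_fund lam) h2,
    integral_add hB.integrableOn hW.integrableOn, h1, add_zero]

lemma pd_zero (i : Fin 3) (x : E3) : pd i (fun _ => (0 : ℝ)) x = 0 := by
  simp [pd]

lemma pd_const (c : ℝ) (i : Fin 3) (x : E3) : pd i (fun _ => c) x = 0 := by
  simp [pd]

lemma lap_zero (x : E3) : lap (fun _ => (0 : ℝ)) x = 0 := by
  have : ∀ i, pd i (fun _ => (0 : ℝ)) = fun _ => 0 := fun i => funext fun y => pd_zero i y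
  simp [lap, this, pd_zero]

lemma gdot_zero_right (f : E3 → ℝ) (x : E3) : gdot f (fun _ => (0 : ℝ)) x = 0 := by
  simp [gdot, pd_zero]

lemma Tq_zero_right (f : E3 → ℝ) (x : E3) : Tq f (fun _ => (0 : ℝ)) x = 0 := by
  simp [Tq, Sq, gdot, pd_zero]

noncomputable def Vf (lam : ℝ) (f : E3 → ℝ) : ℝ := ∫ x in fund lam, Real.exp (-(3 * f x))
noncomputable def S1f (lam : ℝ) (f : E3 → ℝ) : ℝ := ∫ x in fund lam, Real.exp (-(f x)) * s1 f x
noncomputable def S2f (lam : ℝ) (f : E3 → ℝ) : ℝ := ∫ x in fund lam, Real.exp (f x) * s2 f x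

theorem S2f_eq {lam : ℝ} (hl : 1 < lam) {f : E3 → ℝ} (hf : SX f) (qf : QI lam f) :
    S2f lam f = ∫ x in fund lam, -(1 / 4) * Real.exp (f x) * gdot f f x * lap f x := by
  have h := integral_star hl hf (SX.const 0) qf (fun _ _ => rfl)
  simp only [add_zero, gdot_zero_right, lap_zero, Tq_zero_right, mul_zero, sub_zero] at h
  rw [S2f, ← h]

theorem S2f_add {lam : ℝ} (hl : 1 < lam) {f g : E3 → ℝ} (hf : SX f) (hg : SX g)
    (qf : QI lam f) (ig : Inv lam g) :
    S2f lam (fun x => f x + g x) = ∫ x in fund lam, Real.exp (f x + g x) * (s2 f x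
      - (1 / 2) * Tq f g x - (1 / 4) * gdot g g x * (lap g x - gdot f g x)) := by
  rw [S2f_eq hl (hf.add hg) (qf.add ig), ← integral_star hl hf hg qf ig]
  refine setIntegral_congr_fun (measurableSet_fund lam) fun x hx => ?_
  have hx0 := ne_zero_of_mem_fund hx
  change -(1 / 4) * Real.exp (f x + g x) * gdot (fun x => f x + g x) (fun x => f x + g x) x
    * lap (fun x => f x + g x) x = _
  rw [gdot_add hf hg hx0, lap_add hf hg hx0]

theorem S1f_add {lam : ℝ} (hl : 1 < lam) {f g : E3 → ℝ} (hf : SX f) (hg : SX g)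
    (qf : QI lam f) (ig : Inv lam g) :
    S1f lam (fun x => f x + g x) = ∫ x in fund lam, Real.exp (-(f x + g x)) *
      (s1 f x + (1 / 2) * gdot g g x) := by
  have hl0 : 0 < lam := by linarith
  have hln : lam ≠ 0 := hl0.ne'
  set V : Fin 3 → E3 → ℝ := fun i x => Real.exp (-(f x + g x)) * pd i g x with hV
  have c : ∀ c : ℝ, SX (fun _ => c) := SX.const
  have hVS : ∀ i, SX (V i) := fun i => (hf.add hg).neg.exp.mul (hg.pd i)
  have hVs : ∀ i, ∀ x ≠ 0, V i (lam • x) = (lam ^ 2)⁻¹ * V i x := by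
    intro i x hx
    simp only [hV]
    have e : Real.exp (f (lam • x) + g (lam • x)) = lam * Real.exp (f x + g x) :=
      (qf.add ig).exp hl0 hx
    rw [Real.exp_neg, Real.exp_neg, e, ig.pd_scale hln hg hx i]
    field_simp
  have h1 := integral_div hl V hVS hVs
  have hd : ∀ i, ∀ x ≠ 0, pd i (V i) x = Real.exp (-(f x + g x)) *
      (pd i (pd i g) x - (pd i f x + pd i g x) * pd i g x) := by
    intro i x hx
    have h := ((((hf.hasPd hx i).add (hg.hasPd hx i)).neg).exp).mul ((hg.pd i).hasPd hx i)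
    have key : HasPd i (V i) _ x := h
    rw [key.pd_eq ((hVS i).differentiableAt hx)]
    ring
  have hS : SX (fun x => Real.exp (-(f x + g x)) * (s1 f x + (1 / 2) * gdot g g x)) :=
    (hf.add hg).neg.exp.mul (hf.s1.add ((c _).mul (hg.gdot hg)))
  have hW : SX (fun x => ∑ i, pd i (V i) x) := SX.sum fun i _ => (hVS i).pd i
  have h2 : ∀ x ∈ fund lam, Real.exp (-(f x + g x)) * s1 (fun x => f x + g x) x
      = Real.exp (-(f x + g x)) * (s1 f x + (1 / 2) * gdot g g x) + ∑ i, pd i (V i) x := by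
    intro x hx
    have hx0 := ne_zero_of_mem_fund hx
    rw [Fin.sum_univ_three, hd 0 x hx0, hd 1 x hx0, hd 2 x hx0, s1, lap_add hf hg hx0,
      gdot_add hf hg hx0]
    simp only [s1, lap, gdot]
    ring
  rw [S1f, setIntegral_congr_fun (measurableSet_fund lam) h2,
    integral_add hS.integrableOn hW.integrableOn, h1, add_zero]

end Pool.Agent.H52R3
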