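import Pool.Agent.H52R3.Pert

open MeasureTheory Set Filter Topology
open scoped ContDiff

namespace Pool.Agent.H52R3

/-- `log |x|` -/
noncomputable def L (x : E3) : ℝ := Real.log ‖x‖

lemma nsq (x : E3) : ‖x‖ ^ 2 = x 0 ^ 2 + x 1 ^ 2 + x 2 ^ 2 := by
  rw [EuclideanSpace.real_norm_sq_eq, Fin.sum_univ_three]

lemma SX_L : SX L := by
  intro x hx
  have : ContDiffAt ℝ ∞ (fun y : E3 => Real.log ‖y‖) x := by
    apply ContDiffAt.log
    · exact contDiffAt_norm ℝ hx
    · exact norm_ne_zero_iff.2 hx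
  exact this.contDiffWithinAt

lemma contDiff_coord (j : Fin 3) : ContDiff ℝ ∞ (fun x : E3 => x j) := by fun_prop

lemma SX_coord (j : Fin 3) : SX (fun x : E3 => x j) := SX.of_contDiff (contDiff_coord j)

lemma hasPd_coord (i j : Fin 3) (x : E3) :
    HasPd i (fun y : E3 => y j) (if i = j then 1 else 0) x := by
  unfold HasPd
  have : (fun t : ℝ => (x + t • EuclideanSpace.single i (1 : ℝ)) j)
      = fun t => x j + t * (if i = j then 1 else 0) := by
    funext t
    by_cases h : i = j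
    · subst h; simp
    · have h' : j ≠ i := fun hc => h hc.symm
      simp [h, h']
  rw [this]
  simpa using ((hasDerivAt_id (0 : ℝ)).mul_const (if i = j then (1 : ℝ) else 0)).const_add (x j)

lemma pd_coord (i j : Fin 3) (x : E3) (hx : x ≠ 0) :
    pd i (fun y : E3 => y j) x = if i = j then 1 else 0 :=
  (hasPd_coord i j x).pd_eq ((SX_coord j).differentiableAt hx)

lemma hasPd_nsq (i : Fin 3) (x : E3) : HasPd i (fun y : E3 => ‖y‖ ^ 2) (2 * x i) x := by
  have h : HasPd i (fun y : E3 => y 0 * y 0 + y 1 * y 1 + y 2 * y 2) _ x :=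
    (((hasPd_coord i 0 x).mul (hasPd_coord i 0 x)).add
      ((hasPd_coord i 1 x).mul (hasPd_coord i 1 x))).add
      ((hasPd_coord i 2 x).mul (hasPd_coord i 2 x))
  have e : (fun y : E3 => ‖y‖ ^ 2) = fun y : E3 => y 0 * y 0 + y 1 * y 1 + y 2 * y 2 := by
    funext y; rw [nsq]; ring
  rw [e]
  convert h using 1
  fin_cases i <;> simp <;> ring

lemma pd_L (i : Fin 3) {x : E3} (hx : x ≠ 0) : pd i L x = x i / ‖x‖ ^ 2 := by
  have hn : ‖x‖ ≠ 0 := norm_ne_zero_iff.2 hx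
  have e : L = fun y => (1 / 2) * Real.log (‖y‖ ^ 2) := by
    funext y; unfold L; rw [Real.log_pow]; push_cast; ring
  have hlog : HasDerivAt Real.log (‖x‖ ^ 2)⁻¹ (‖x‖ ^ 2) := Real.hasDerivAt_log (pow_ne_zero 2 hn)
  have h := (HasPd.const (i := i) (x := x) (1 / 2)).mul
    (HasPd.comp (f := fun y : E3 => ‖y‖ ^ 2) hlog (hasPd_nsq i x))
  rw [← e] at h
  rw [h.pd_eq (SX_L.differentiableAt hx)]
  field_simp
  ring

lemma SX_nsq : SX (fun y : E3 => ‖y‖ ^ 2) := SX.of_contDiff (contDiff_norm_sq ℝ)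

lemma SX.div {f g : E3 → ℝ} (hf : SX f) (hg : SX g) (h0 : ∀ x ≠ 0, g x ≠ 0) :
    SX (fun x => f x / g x) := ContDiffOn.div hf hg (fun x hx => h0 x hx)

lemma pd_pd_L (i j : Fin 3) {x : E3} (hx : x ≠ 0) :
    pd i (pd j L) x = (if i = j then 1 else 0) / ‖x‖ ^ 2 - 2 * x i * x j / ‖x‖ ^ 4 := by
  have hn : ‖x‖ ≠ 0 := norm_ne_zero_iff.2 hx
  have h0 : ∀ y : E3, y ≠ 0 → ‖y‖ ^ 2 ≠ 0 := fun y hy => pow_ne_zero 2 (norm_ne_zero_iff.2 hy)
  rw [pd_congr_X i hx (fun y hy => pd_L j hy)]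
  have e : (fun y : E3 => y j * (‖y‖ ^ 2)⁻¹) = fun y : E3 => y j / ‖y‖ ^ 2 := by
    funext y; rw [div_eq_mul_inv]
  have hinv : HasDerivAt (fun t : ℝ => t⁻¹) (-((‖x‖ ^ 2) ^ 2)⁻¹) (‖x‖ ^ 2) :=
    hasDerivAt_inv (h0 x hx)
  have h := (hasPd_coord i j x).mul
    (HasPd.comp (f := fun y : E3 => ‖y‖ ^ 2) hinv (hasPd_nsq i x))
  rw [e] at h
  rw [h.pd_eq (((SX_coord j).div SX_nsq h0).differentiableAt hx)]
  have hn2 : ‖x‖ ^ 2 ≠ 0 := h0 x hx
  field_simp
  ring

/-- Second derivative test: at a maximum the second derivative in direction `v` is `≤ 0`. -/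
lemma second_deriv_max {u : E3 → ℝ} (hu : SX u) {p : E3} (hp : p ≠ 0)
    (hmax : ∀ x ≠ 0, u x ≤ u p) (v : E3) :
    ∑ i, ∑ j, pd i (pd j u) p * v i * v j ≤ 0 := by
  set c : ℝ → E3 := fun t => p + t • v with hc
  have hcd : ∀ t, HasDerivAt c v t := fun t => by
    simpa [hc] using ((hasDerivAt_id t).smul_const v).const_add p
  have hcc : Continuous c := by simp only [hc]; fun_prop
  have hev : ∀ᶠ t in 𝓝 (0 : ℝ), c t ≠ 0 := by
    have : c 0 ≠ 0 := by simpa [hc] using hp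
    exact hcc.continuousAt.eventually_ne this
  have hv : v = ∑ i, v i • EuclideanSpace.single i (1 : ℝ) := by
    ext k
    simp [Pi.single_apply]
  have hfd : ∀ {w : E3 → ℝ} {x : E3}, fderiv ℝ w x v = ∑ i, v i * pd i w x := by
    intro w x
    conv_lhs => rw [hv]
    rw [map_sum]
    simp [pd]
  have h1 : ∀ t, c t ≠ 0 → HasDerivAt (fun t => u (c t)) (∑ i, v i * pd i u (c t)) t := by
    intro t ht
    rw [← hfd]
    exact ((hu.differentiableAt ht).hasFDerivAt).comp_hasDerivAt t (hcd t)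
  have hp' : c 0 ≠ 0 := by simpa [hc] using hp
  have h2 : HasDerivAt (fun t => ∑ i, v i * pd i u (c t))
      (∑ i, v i * (∑ j, v j * pd j (pd i u) (c 0))) 0 := by
    have h3 : ∀ i, HasDerivAt (fun t => v i * pd i u (c t))
        (v i * (∑ j, v j * pd j (pd i u) (c 0))) 0 := by
      intro i
      have : HasDerivAt (fun t => pd i u (c t)) (∑ j, v j * pd j (pd i u) (c 0)) 0 := by
        rw [← hfd]
        exact (((hu.pd i).differentiableAt hp').hasFDerivAt).comp_hasDerivAt 0 (hcd 0)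
      exact this.const_mul _
    have := HasDerivAt.fun_sum (u := Finset.univ) (fun i _ => h3 i)
    exact this
  set g : ℝ → ℝ := fun t => u (c t) with hg
  have hd1 : deriv g =ᶠ[𝓝 0] fun t => ∑ i, v i * pd i u (c t) := by
    filter_upwards [hev] with t ht using (h1 t ht).deriv
  have hmaxg : IsLocalMax g 0 := by
    filter_upwards [hev] with t ht
    have : c 0 = p := by simp [hc]
    simp only [hg, this]
    exact hmax _ ht
  have hd2 : deriv (deriv g) 0 = ∑ i, v i * (∑ j, v j * pd j (pd i u) (c 0)) := by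
    rw [hd1.deriv_eq]; exact h2.deriv
  have hle : deriv (deriv g) 0 ≤ 0 := by
    by_contra hcon
    push Not at hcon
    have hd0 : deriv g 0 = 0 := hmaxg.deriv_eq_zero
    have hcg : ContinuousAt g 0 := (h1 0 hp').continuousAt
    have hmin := isLocalMin_of_deriv_deriv_pos hcon hd0 hcg
    have hconst : g =ᶠ[𝓝 0] fun _ => g 0 := by
      filter_upwards [hmaxg, hmin] with t a b using le_antisymm a b
    have h4 : deriv g =ᶠ[𝓝 0] fun _ => 0 := by
      have := hconst.deriv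
      filter_upwards [this] with t ht
      rw [ht]; simp
    have h5 : deriv (deriv g) 0 = 0 := by rw [h4.deriv_eq]; simp
    linarith
  have hc0 : c 0 = p := by simp [hc]
  rw [hd2, hc0] at hle
  refine le_trans (le_of_eq ?_) hle
  simp only [Finset.mul_sum]
  rw [Finset.sum_comm]
  refine Finset.sum_congr rfl fun i _ => Finset.sum_congr rfl fun j _ => ?_
  ring

lemma first_deriv_max {u : E3 → ℝ} {p : E3} (hp : p ≠ 0)
    (hmax : ∀ x ≠ 0, u x ≤ u p) (i : Fin 3) : pd i u p = 0 := by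
  have : IsLocalMax u p := by
    filter_upwards [isOpen_X.mem_nhds hp] with x hx using hmax x hx
  unfold pd
  rw [this.fderiv_eq_zero]
  rfl

lemma exists_max {lam : ℝ} (hl : 1 < lam) {u : E3 → ℝ} (hu : SX u) (iu : Inv lam u) :
    ∃ p ∈ ann lam, ∀ x ≠ 0, u x ≤ u p := by
  obtain ⟨p, hp, hpm⟩ := (isCompact_ann lam).exists_isMaxOn ⟨_, exists_ann hl⟩
    (hu.continuousOn.mono (ann_subset_X lam))
  refine ⟨p, hp, ?_⟩
  refine forall_of_fund hl (P := fun x => u x ≤ u p) ?_ ?_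
  · intro x hx
    rw [iu x hx]
  · intro x hx
    exact hpm (fund_subset_ann lam hx)

/-- the angular functions `x_j / |x|` -/
noncomputable def ang (j : Fin 3) (x : E3) : ℝ := x j * Real.exp (-(L x))

lemma exp_L {x : E3} (hx : x ≠ 0) : Real.exp (L x) = ‖x‖ := Real.exp_log (norm_pos_iff.2 hx)

lemma SX_ang (j : Fin 3) : SX (ang j) := (SX_coord j).mul SX_L.neg.exp

lemma QI_L {lam : ℝ} (hl : 0 < lam) : QI lam L := by
  intro x hx
  unfold L
  rw [norm_smul, Real.norm_of_nonneg hl.le, Real.log_mul hl.ne' (norm_ne_zero_iff.2 hx)]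
  ring

lemma Inv_ang {lam : ℝ} (hl : 0 < lam) (j : Fin 3) : Inv lam (ang j) := by
  intro x hx
  unfold ang
  rw [QI_L hl x hx, neg_add, Real.exp_add, Real.exp_neg (Real.log lam), Real.exp_log hl]
  simp only [PiLp.smul_apply, smul_eq_mul]
  field_simp

lemma pd_ang (i j : Fin 3) {x : E3} (hx : x ≠ 0) :
    pd i (ang j) x = Real.exp (-(L x)) * ((if i = j then 1 else 0) - x i * x j / ‖x‖ ^ 2) := by
  have h : HasPd i (ang j) _ x :=
    (hasPd_coord i j x).mul ((SX_L.hasPd hx i).neg.exp)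
  rw [h.pd_eq ((SX_ang j).differentiableAt hx), pd_L i hx]
  ring

lemma exp_neg_L_sq {x : E3} (hx : x ≠ 0) : Real.exp (-(L x)) ^ 2 = (‖x‖ ^ 2)⁻¹ := by
  rw [Real.exp_neg, exp_L hx, inv_pow]

/-- sum over the three angular functions of the squared gradient. -/
lemma sum_gdot_ang {x : E3} (hx : x ≠ 0) :
    gdot (ang 0) (ang 0) x + gdot (ang 1) (ang 1) x + gdot (ang 2) (ang 2) x = 2 / ‖x‖ ^ 2 := by
  have hn : ‖x‖ ^ 2 ≠ 0 := pow_ne_zero 2 (norm_ne_zero_iff.2 hx)
  have he := exp_neg_L_sq hx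
  have hs := nsq x
  unfold gdot
  simp only [pd_ang _ _ hx]
  simp only [Fin.isValue, reduceIte, show ((0 : Fin 3) = 1) = False by simp,
    show ((0 : Fin 3) = 2) = False by simp, show ((1 : Fin 3) = 0) = False by simp,
    show ((1 : Fin 3) = 2) = False by simp, show ((2 : Fin 3) = 0) = False by simp,
    show ((2 : Fin 3) = 1) = False by simp]
  set E := Real.exp (-(L x))
  set N := ‖x‖ ^ 2 with hN
  have h1 : E ^ 2 * N = 1 := by rw [he]; field_simp
  have hx2 : x 2 ^ 2 = N - x 0 ^ 2 - x 1 ^ 2 := by linarith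
  field_simp
  have : E ^ 2 = N⁻¹ := he
  have key : ∀ (a b c M : ℝ), a ^ 2 + b ^ 2 + c ^ 2 = M →
    (M - a ^ 2) ^ 2 + (b * a) ^ 2 + (c * a) ^ 2 + ((a * b) ^ 2 + (M - b ^ 2) ^ 2 + (c * b) ^ 2)
      + ((a * c) ^ 2 + (b * c) ^ 2 + (M - c ^ 2) ^ 2) = 2 * M ^ 2 := by
    intro a b c M h; rw [← h]; ring
  have k := key (x 0) (x 1) (x 2) N hs.symm
  nlinarith [k, h1]

end Pool.Agent.H52R3
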