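import Pool.Agent.H52R3.Test

open MeasureTheory Set Filter Topology
open scoped ContDiff

namespace Pool.Agent.H52R3

section trig
variable {z s : E3 → ℝ} (k : ℝ)

noncomputable def phs (z s : E3 → ℝ) (k : ℝ) (x : E3) : ℝ := z x * Real.sin (k * s x)
noncomputable def phc (z s : E3 → ℝ) (k : ℝ) (x : E3) : ℝ := z x * Real.cos (k * s x)

lemma SX_phs (hz : SX z) (hs : SX s) : SX (phs z s k) := hz.mul (((SX.const k).mul hs).sin)
lemma SX_phc (hz : SX z) (hs : SX s) : SX (phc z s k) := hz.mul (((SX.const k).mul hs).cos)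

lemma pd_phs (hz : SX z) (hs : SX s) {x : E3} (hx : x ≠ 0) (i : Fin 3) :
    pd i (phs z s k) x = pd i z x * Real.sin (k * s x)
      + z x * (Real.cos (k * s x) * (k * pd i s x)) := by
  have h1 : HasPd i (fun y => k * s y) _ x := (HasPd.const k).mul (hs.hasPd hx i)
  have h2 := HasPd.comp (f := fun y => k * s y) (Real.hasDerivAt_sin (k * s x)) h1
  have h : HasPd i (phs z s k) _ x := (hz.hasPd hx i).mul h2
  rw [h.pd_eq ((SX_phs k hz hs).differentiableAt hx)]
  ring

lemma pd_phc (hz : SX z) (hs : SX s) {x : E3} (hx : x ≠ 0) (i : Fin 3) :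
    pd i (phc z s k) x = pd i z x * Real.cos (k * s x)
      - z x * (Real.sin (k * s x) * (k * pd i s x)) := by
  have h1 : HasPd i (fun y => k * s y) _ x := (HasPd.const k).mul (hs.hasPd hx i)
  have h2 := HasPd.comp (f := fun y => k * s y) (Real.hasDerivAt_cos (k * s x)) h1
  have h : HasPd i (phc z s k) _ x := (hz.hasPd hx i).mul h2
  rw [h.pd_eq ((SX_phc k hz hs).differentiableAt hx)]
  ring

lemma pair (hz : SX z) (hs : SX s) {x : E3} (hx : x ≠ 0) (i j : Fin 3) :
    pd i (phs z s k) x * pd j (phs z s k) x + pd i (phc z s k) x * pd j (phc z s k) x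
      = pd i z x * pd j z x + k ^ 2 * z x ^ 2 * (pd i s x * pd j s x) := by
  rw [pd_phs k hz hs hx, pd_phs k hz hs hx, pd_phc k hz hs hx, pd_phc k hz hs hx]
  have h := Real.sin_sq_add_cos_sq (k * s x)
  linear_combination (pd i z x * pd j z x + k ^ 2 * z x ^ 2 * (pd i s x * pd j s x)) * h

lemma gdot_pair (hz : SX z) (hs : SX s) {x : E3} (hx : x ≠ 0) :
    gdot (phs z s k) (phs z s k) x + gdot (phc z s k) (phc z s k) x
      = gdot z z x + k ^ 2 * z x ^ 2 * gdot s s x := by
  unfold gdot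
  linear_combination pair k hz hs hx 0 0 + pair k hz hs hx 1 1 + pair k hz hs hx 2 2

lemma Tq_pair (f : E3 → ℝ) (hz : SX z) (hs : SX s) {x : E3} (hx : x ≠ 0) :
    Tq f (phs z s k) x + Tq f (phc z s k) x = Tq f z x + k ^ 2 * z x ^ 2 * Tq f s x := by
  have hg := gdot_pair k hz hs hx
  unfold Tq Sq
  linear_combination s1 f x * hg - Smat f 0 0 x * pair k hz hs hx 0 0
    - Smat f 0 1 x * pair k hz hs hx 0 1 - Smat f 0 2 x * pair k hz hs hx 0 2
    - Smat f 1 0 x * pair k hz hs hx 1 0 - Smat f 1 1 x * pair k hz hs hx 1 1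
    - Smat f 1 2 x * pair k hz hs hx 1 2 - Smat f 2 0 x * pair k hz hs hx 2 0
    - Smat f 2 1 x * pair k hz hs hx 2 1 - Smat f 2 2 x * pair k hz hs hx 2 2

end trig

/-- No admissible invariant conformal metric maximises the functional. -/
theorem not_max {lam : ℝ} (hl : 1 < lam) {u : E3 → ℝ} (hu : SX u) (iu : Inv lam u)
    (hs : ∀ x ≠ 0, 0 < s1 (fun y => u y + L y) x) :
    ∃ v : E3 → ℝ, SX v ∧ Inv lam v ∧ (∀ x ≠ 0, 0 < s1 (fun y => v y + L y) x) ∧
      Ef lam (fun y => u y + L y) < Ef lam (fun y => v y + L y) := by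
  have hl0 : 0 < lam := by linarith
  have hln : lam ≠ 0 := hl0.ne'
  have cc : ∀ c : ℝ, SX (fun _ => c) := SX.const
  set f : E3 → ℝ := fun y => u y + L y with hfdef
  have hf : SX f := hu.add SX_L
  have qf : QI lam f := fun x hx => by
    simp only [hfdef]
    rw [iu x hx, QI_L hl0 x hx]; ring
  set B := -(S2f lam f) with hB
  set C := S1f lam f with hC
  have hB0 : 0 < B := by rw [hB]; linarith [S2f_neg hl hf qf hs]
  have hC0 : 0 < C := S1f_pos hl hf hs
  set M := ((∫ x in fund lam, Real.exp (f x) * |s2 f x|) / B) with hM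
  -- the weight
  set q : Fin 3 → E3 → ℝ := fun j x => (1 / 2) * Real.exp (f x) * Tq f (ang j) x / B
    - Real.exp (-(f x)) * gdot (ang j) (ang j) x / C with hq
  have hqS : ∀ j, SX (q j) := fun j =>
    ((((cc (1 / 2)).mul hf.exp).mul (hf.Tq (SX_ang j))).div (cc B) (fun _ _ => hB0.ne')).sub
      ((hf.neg.exp.mul ((SX_ang j).gdot (SX_ang j))).div (cc C) (fun _ _ => hC0.ne'))
  set c : E3 → ℝ := fun x => q 0 x + q 1 x + q 2 x with hc
  have hcS : SX c := ((hqS 0).add (hqS 1)).add (hqS 2)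
  have sf := qf.sc hln hf
  have sa : ∀ j, Sc lam (ang j) := fun j => (Inv_ang hl0 j).sc hln (SX_ang j)
  have hqs : ∀ j, ∀ x ≠ 0, q j (lam • x) = (lam ^ 3)⁻¹ * q j x := by
    intro j x hx
    simp only [hq]
    rw [sf.Tq hln hf (sa j) hx, (sa j).gdot hln (sa j) hx, Real.exp_neg, qf.exp hl0 hx,
      Real.exp_neg]
    have := Real.exp_ne_zero (f x)
    field_simp
  have hcs : ∀ x ≠ 0, c (lam • x) = (lam ^ 3)⁻¹ * c x := by
    intro x hx
    simp only [hc, hqs _ x hx]; ring
  set z : E3 → ℝ := fun x => Real.smoothTransition (-(Real.exp (3 * L x) * c x)) with hz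
  have hzS : SX z :=
    SX.comp_contDiff Real.smoothTransition.contDiff (((((cc 3).mul SX_L).exp).mul hcS).neg)
  have hzI : Inv lam z := by
    intro x hx
    simp only [hz]
    rw [hcs x hx, QI_L hl0 x hx, mul_add, Real.exp_add]
    have : Real.exp (3 * Real.log lam) = lam ^ 3 := by
      rw [show (3 : ℝ) * Real.log lam = Real.log (lam ^ 3) by rw [Real.log_pow]; norm_num,
        Real.exp_log (by positivity)]
    rw [this]
    congr 2
    field_simp
  have hz0 : ∀ x, 0 ≤ z x := fun x => Real.smoothTransition.nonneg _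
  have hz1 : ∀ x, z x ≤ 1 := fun x => Real.smoothTransition.le_one _
  -- sign
  have hzc : ∀ x, 0 ≤ -(z x ^ 2 * c x) := by
    intro x
    by_cases h : c x ≤ 0
    · have := sq_nonneg (z x)
      nlinarith
    · have : z x = 0 := by
        apply Real.smoothTransition.zero_of_nonpos
        have h1 := Real.exp_pos (3 * L x)
        nlinarith [not_le.1 h]
      rw [this]; simp
  obtain ⟨p, hp, hpm⟩ := exists_max hl hu iu
  have hp0 := ne_zero_of_mem_ann hp
  have hcp : c p < 0 := by
    have h1 := sum_Tq_max hu hp0 hpm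
    have h2 := sum_gdot_ang hp0
    have h3 : 0 < 2 / ‖p‖ ^ 2 := by
      have := norm_pos_iff.2 hp0
      positivity
    have e : c p = (1 / 2) * Real.exp (f p) / B * (Tq f (ang 0) p + Tq f (ang 1) p + Tq f (ang 2) p)
        - Real.exp (-(f p)) / C * (gdot (ang 0) (ang 0) p + gdot (ang 1) (ang 1) p
          + gdot (ang 2) (ang 2) p) := by
      simp only [hc, hq]; ring
    rw [e, h2]
    have h4 : (1 / 2) * Real.exp (f p) / B * (Tq f (ang 0) p + Tq f (ang 1) p + Tq f (ang 2) p) ≤ 0 :=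
      mul_nonpos_of_nonneg_of_nonpos (by positivity) h1
    have h5 : 0 < Real.exp (-(f p)) / C * (2 / ‖p‖ ^ 2) := by positivity
    linarith
  have hzp : 0 < z p := by
    apply Real.smoothTransition.pos_of_pos
    have h1 := Real.exp_pos (3 * L p)
    nlinarith
  set D := ∫ x in fund lam, z x ^ 2 * c x with hD
  have hD0 : D < 0 := by
    have h := setIntegral_pos hl ((hzS.pow 2).mul hcS).neg.continuousOn (fun x _ => hzc x) hp
      (by have := mul_neg_of_pos_of_neg (pow_pos hzp 2) hcp; linarith)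
    rw [integral_neg] at h
    linarith
  -- the frequency
  obtain ⟨k, hk⟩ : ∃ k : ℝ, 3 * qform lam f z + k ^ 2 * D < -6 * (9 + 4 * M) := by
    set R := |3 * qform lam f z + 6 * (9 + 4 * M)| + 1 with hR
    have hR1 : 0 < R := by positivity
    refine ⟨Real.sqrt (R / (-D)), ?_⟩
    rw [Real.sq_sqrt (div_nonneg hR1.le (by linarith))]
    have : R / (-D) * D = -R := by
      have : D ≠ 0 := hD0.ne
      field_simp
    rw [this, hR]
    have := le_abs_self (3 * qform lam f z + 6 * (9 + 4 * M))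
    linarith
  -- sum of the six forms
  have hqf_int : ∀ g : E3 → ℝ, SX g → IntegrableOn (fun x => (1 / 2) * Real.exp (f x) * Tq f g x / B
      - Real.exp (-(f x)) * gdot g g x / C) (fund lam) := fun g hg =>
    (((((cc (1 / 2)).mul hf.exp).mul (hf.Tq hg)).div (cc B) (fun _ _ => hB0.ne')).sub
      ((hf.neg.exp.mul (hg.gdot hg)).div (cc C) (fun _ _ => hC0.ne'))).integrableOn
  have hpair : ∀ j, qform lam f (phs z (ang j) k) + qform lam f (phc z (ang j) k)
      = qform lam f z + k ^ 2 * ∫ x in fund lam, z x ^ 2 * q j x := by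
    intro j
    have i1 := hqf_int _ (SX_phs k hzS (SX_ang j))
    have i2 := hqf_int _ (SX_phc k hzS (SX_ang j))
    have i3 := hqf_int _ hzS
    have i4 : IntegrableOn (fun x => k ^ 2 * (z x ^ 2 * q j x)) (fund lam) :=
      (((hzS.pow 2).mul (hqS j)).integrableOn).const_mul (k ^ 2)
    unfold qform
    rw [← integral_add i1 i2, ← integral_const_mul, ← integral_add i3 i4]
    refine setIntegral_congr_fun (measurableSet_fund lam) fun x hx => ?_
    have hx0 := ne_zero_of_mem_fund hx
    have t1 := Tq_pair k f hzS (SX_ang j) hx0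
    have t2 := gdot_pair k hzS (SX_ang j) hx0
    simp only [hq]
    linear_combination ((1 / 2) * Real.exp (f x) / B) * t1 - (Real.exp (-(f x)) / C) * t2
  have hsum : (∫ x in fund lam, z x ^ 2 * q 0 x) + (∫ x in fund lam, z x ^ 2 * q 1 x)
      + (∫ x in fund lam, z x ^ 2 * q 2 x) = D := by
    have i : ∀ j, IntegrableOn (fun x => z x ^ 2 * q j x) (fund lam) :=
      fun j => ((hzS.pow 2).mul (hqS j)).integrableOn
    have i01 : IntegrableOn (fun x => z x ^ 2 * q 0 x + z x ^ 2 * q 1 x) (fund lam) :=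
      (i 0).add (i 1)
    rw [← integral_add (i 0) (i 1), ← integral_add i01 (i 2), hD]
    refine setIntegral_congr_fun (measurableSet_fund lam) fun x _ => ?_
    simp only [hc]; ring
  have htot : (qform lam f (phs z (ang 0) k) + qform lam f (phc z (ang 0) k))
      + (qform lam f (phs z (ang 1) k) + qform lam f (phc z (ang 1) k))
      + (qform lam f (phs z (ang 2) k) + qform lam f (phc z (ang 2) k)) < -6 * (9 + 4 * M) := by
    rw [hpair 0, hpair 1, hpair 2]
    calc _ = 3 * qform lam f z + k ^ 2 * D := by rw [← hsum]; ring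
      _ < _ := hk
  obtain ⟨g, hgS, hgI, hg1, hgq⟩ : ∃ g : E3 → ℝ, SX g ∧ Inv lam g ∧ (∀ x ≠ 0, |g x| ≤ 1) ∧
      qform lam f g < -(9 + 4 * M) := by
    have hb1 : ∀ (j : Fin 3) (x : E3), |phs z (ang j) k x| ≤ 1 := by
      intro j x
      unfold phs
      rw [abs_mul, abs_of_nonneg (hz0 x)]
      exact mul_le_one₀ (hz1 x) (abs_nonneg _) (Real.abs_sin_le_one _)
    have hb2 : ∀ (j : Fin 3) (x : E3), |phc z (ang j) k x| ≤ 1 := by
      intro j x
      unfold phc
      rw [abs_mul, abs_of_nonneg (hz0 x)]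
      exact mul_le_one₀ (hz1 x) (abs_nonneg _) (Real.abs_cos_le_one _)
    have hi1 : ∀ j : Fin 3, Inv lam (phs z (ang j) k) := by
      intro j x hx
      unfold phs
      rw [hzI x hx, Inv_ang hl0 j x hx]
    have hi2 : ∀ j : Fin 3, Inv lam (phc z (ang j) k) := by
      intro j x hx
      unfold phc
      rw [hzI x hx, Inv_ang hl0 j x hx]
    by_contra hcon
    push Not at hcon
    have a1 := fun j => hcon _ (SX_phs k hzS (SX_ang j)) (hi1 j) (fun x _ => hb1 j x)
    have a2 := fun j => hcon _ (SX_phc k hzS (SX_ang j)) (hi2 j) (fun x _ => hb2 j x)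
    linarith [a1 0, a1 1, a1 2, a2 0, a2 1, a2 2]
  obtain ⟨e, he1, he2⟩ := pert hl hf qf hgS hgI hs hg1 hgq
  have e1 : (fun y => f y + e * g y) = fun y => (u y + e * g y) + L y := by
    funext y; simp only [hfdef]; ring
  refine ⟨fun y => u y + e * g y, hu.add ((cc e).mul hgS), ?_, ?_, ?_⟩
  · intro x hx
    change u (lam • x) + e * g (lam • x) = u x + e * g x
    rw [iu x hx, hgI x hx]
  · intro x hx
    have := he1 x hx
    rwa [e1] at this
  · rwa [e1] at he2

end Pool.Agent.H52R3
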