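import Mathlib

open Filter Topology

namespace Pool.Agent.H52R3

/-- The elementary second order comparison. -/
lemma real_lemma {a b c be ga m m' : ℝ} (ha : |a| ≤ 3) (hb : |b| ≤ m)
    (h : be - 2 * ga < -(9 + 4 * m)) {d : ℝ} (hd : 0 < d) :
    ∃ e : ℝ, |e| < d ∧ 0 < 1 + e * c + e ^ 2 * ga * (1 - |e|) ∧
      (1 + e * a + 9 * e ^ 2) * (1 + e * b + e ^ 2 * (m + be) + |e| ^ 3 * m')
        < (1 + e * c + e ^ 2 * ga * (1 - |e|)) ^ 2 := by
  -- choose the sign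
  obtain ⟨s, hs, hsl⟩ : ∃ s : ℝ, (s = 1 ∨ s = -1) ∧ s * (a + b - 2 * c) ≤ 0 := by
    rcases le_total (a + b - 2 * c) 0 with h0 | h0
    · exact ⟨1, Or.inl rfl, by linarith⟩
    · exact ⟨-1, Or.inr rfl, by linarith⟩
  have hs2 : s ^ 2 = 1 := by rcases hs with rfl | rfl <;> norm_num
  have habs : |s| = 1 := by rcases hs with rfl | rfl <;> norm_num
  have hab : a * b ≤ 3 * m := by
    calc a * b ≤ |a * b| := le_abs_self _
      _ = |a| * |b| := abs_mul a b
      _ ≤ 3 * m := mul_le_mul ha hb (abs_nonneg _) (by norm_num)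
  set kap : ℝ := 9 + m + be + a * b - c ^ 2 - 2 * ga with hkap
  have hkap0 : kap < 0 := by nlinarith [sq_nonneg c]
  set R : ℝ → ℝ := fun t => s * a * (m + be) + s * t * a * m' + 9 * s * b + 9 * t * (m + be)
    + 9 * t ^ 2 * m' + m' + 2 * ga - 2 * s * c * ga * (1 - t) - t * ga ^ 2 * (1 - t) ^ 2 with hR
  have hcont : ContinuousAt (fun t : ℝ => kap + t * R t) 0 := by
    simp only [hR]; fun_prop
  have h1 : ∀ᶠ t in 𝓝 (0 : ℝ), kap + t * R t < 0 := by
    apply hcont.eventually_lt continuousAt_const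
    simpa using hkap0
  have hcont2 : ContinuousAt (fun t : ℝ => 1 + s * t * c + t ^ 2 * ga * (1 - t)) 0 := by fun_prop
  have h2 : ∀ᶠ t in 𝓝 (0 : ℝ), 0 < 1 + s * t * c + t ^ 2 * ga * (1 - t) := by
    apply continuousAt_const.eventually_lt hcont2
    simp
  have h3 : ∀ᶠ t in 𝓝 (0 : ℝ), t < d := eventually_lt_nhds hd
  obtain ⟨t, ⟨ht1, ht2, ht3⟩, ht0⟩ :=
    (((h1.and (h2.and h3)).filter_mono nhdsWithin_le_nhds).and
      (self_mem_nhdsWithin : Set.Ioi (0 : ℝ) ∈ 𝓝[>] (0 : ℝ))).exists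
  have ht0 : 0 < t := ht0
  have habs2 : |s * t| = t := by rw [abs_mul, habs, one_mul, abs_of_pos ht0]
  refine ⟨s * t, by rw [habs2]; exact ht3, ?_, ?_⟩
  · rw [habs2, mul_pow, hs2, one_mul]; exact ht2
  · rw [habs2]
    have key : (1 + s * t * a + 9 * (s * t) ^ 2) *
        (1 + s * t * b + (s * t) ^ 2 * (m + be) + t ^ 3 * m')
        - (1 + s * t * c + (s * t) ^ 2 * ga * (1 - t)) ^ 2
        = t * (s * (a + b - 2 * c)) + t ^ 2 * (kap + t * R t) := by
      simp only [hkap, hR, mul_pow, hs2]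
      linear_combination (t ^ 2 * a * b - t ^ 2 * c ^ 2) * hs2
    have h4 : t * (s * (a + b - 2 * c)) ≤ 0 := mul_nonpos_of_nonneg_of_nonpos ht0.le hsl
    have h5 : t ^ 2 * (kap + t * R t) < 0 := mul_neg_of_pos_of_neg (by positivity) ht1
    linarith

end Pool.Agent.H52R3
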