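import Pool.Agent.H52R3.IntF
import Pool.Agent.H52R3.RealLem

open MeasureTheory Set Filter Topology
open scoped ContDiff

namespace Pool.Agent.H52R3

/-- a nonnegative continuous function which is positive somewhere on the annulus has
positive integral. -/
lemma setIntegral_pos {lam : ℝ} (hl : 1 < lam) {k : E3 → ℝ} (hk : ContinuousOn k {0}ᶜ)
    (h0 : ∀ x ∈ fund lam, 0 ≤ k x) {p : E3} (hp : p ∈ ann lam) (hkp : 0 < k p) :
    0 < ∫ x in fund lam, k x := by
  have hp0 : p ≠ 0 := ne_zero_of_mem_ann hp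
  have hpn : 0 < ‖p‖ := norm_pos_iff.2 hp0
  have hcont : ContinuousAt k p := hk.continuousAt (isOpen_X.mem_nhds hp0)
  set mu : ℝ := (1 + lam) / 2 with hmu
  set γ : ℝ → E3 := fun s => ((1 - s) + s * (mu / ‖p‖)) • p with hγ
  have hγ0 : γ 0 = p := by simp [hγ]
  have hγc : ContinuousAt γ 0 := by simp only [hγ]; fun_prop
  have hev : ∀ᶠ s in 𝓝 (0 : ℝ), 0 < k (γ s) := by
    have : Tendsto (fun s => k (γ s)) (𝓝 0) (𝓝 (k p)) := by
      have h1 : Tendsto γ (𝓝 0) (𝓝 p) := by rw [← hγ0]; exact hγc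
      exact hcont.tendsto.comp h1
    exact this.eventually (lt_mem_nhds hkp)
  have hev2 : ∀ᶠ s in 𝓝 (0 : ℝ), s < 1 := eventually_lt_nhds one_pos
  obtain ⟨s, ⟨hs1, hs2⟩, hs0⟩ := (((hev.and hev2).filter_mono nhdsWithin_le_nhds).and
      (self_mem_nhdsWithin : Ioi (0 : ℝ) ∈ 𝓝[>] (0 : ℝ))).exists
  have hs0 : 0 < s := hs0
  have hn : ‖γ s‖ = (1 - s) * ‖p‖ + s * mu := by
    simp only [hγ]
    rw [norm_smul, Real.norm_of_nonneg]
    · field_simp
    · have : 0 < mu / ‖p‖ := div_pos (by linarith) hpn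
      have h1s : 0 < 1 - s := by linarith
      positivity
  obtain ⟨hpa, hpb⟩ := hp
  have hb1 : 1 < ‖γ s‖ := by rw [hn]; nlinarith
  have hb2 : ‖γ s‖ < lam := by rw [hn]; nlinarith
  set O : Set E3 := {x | 1 < ‖x‖ ∧ ‖x‖ < lam} with hO
  have hOo : IsOpen O := by
    have : O = (fun x : E3 => ‖x‖) ⁻¹' (Ioo 1 lam) := rfl
    rw [this]; exact isOpen_Ioo.preimage continuous_norm
  have hOX : O ⊆ {0}ᶜ := by
    rintro x ⟨h1, -⟩ h2
    rw [mem_singleton_iff] at h2
    rw [h2, norm_zero] at h1; linarith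
  have hU : IsOpen (O ∩ k ⁻¹' (Ioi 0)) := (hk.mono hOX).isOpen_inter_preimage hOo isOpen_Ioi
  have hne : (O ∩ k ⁻¹' (Ioi 0)).Nonempty := ⟨γ s, ⟨hb1, hb2⟩, hs1⟩
  rw [setIntegral_pos_iff_support_of_nonneg_ae
    ((ae_restrict_iff' (measurableSet_fund lam)).2 (Eventually.of_forall h0)) (integrableOn_fund hk)]
  refine lt_of_lt_of_le (hU.measure_pos volume hne) (measure_mono ?_)
  rintro x ⟨⟨h1, h2⟩, h3⟩
  exact ⟨ne_of_gt h3, ⟨h1.le, h2⟩⟩

lemma exists_ann {lam : ℝ} (hl : 1 < lam) :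
    (EuclideanSpace.single (0 : Fin 3) (1 : ℝ) : E3) ∈ ann lam := by
  simp [ann, hl.le]

lemma pos_of_pos {lam : ℝ} (hl : 1 < lam) {k : E3 → ℝ} (hk : ContinuousOn k {0}ᶜ)
    (h0 : ∀ x ≠ 0, 0 < k x) : 0 < ∫ x in fund lam, k x :=
  setIntegral_pos hl hk (fun x hx => (h0 x (ne_zero_of_mem_fund hx)).le) (exists_ann hl)
    (h0 _ (ne_zero_of_mem_ann (exists_ann hl)))

lemma Vf_pos {lam : ℝ} (hl : 1 < lam) {f : E3 → ℝ} (hf : SX f) : 0 < Vf lam f := by
  have c : ∀ c : ℝ, SX (fun _ => c) := SX.const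
  exact pos_of_pos hl (((c 3).mul hf).neg.exp).continuousOn (fun x _ => Real.exp_pos _)

lemma S1f_pos {lam : ℝ} (hl : 1 < lam) {f : E3 → ℝ} (hf : SX f) (hs : ∀ x ≠ 0, 0 < s1 f x) :
    0 < S1f lam f :=
  pos_of_pos hl ((hf.neg.exp).mul hf.s1).continuousOn
    (fun x hx => mul_pos (Real.exp_pos _) (hs x hx))

lemma gdot_self_nonneg (f : E3 → ℝ) (x : E3) : 0 ≤ gdot f f x := by
  unfold gdot
  nlinarith [mul_self_nonneg (pd 0 f x), mul_self_nonneg (pd 1 f x), mul_self_nonneg (pd 2 f x)]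

/-- a quasi-invariant function has nonzero gradient somewhere. -/
lemma exists_grad {lam : ℝ} (hl : 1 < lam) {f : E3 → ℝ} (hf : SX f) (qf : QI lam f) :
    ∃ p ∈ ann lam, 0 < gdot f f p := by
  set e : E3 := EuclideanSpace.single (0 : Fin 3) (1 : ℝ) with he
  have hen : ‖e‖ = 1 := by simp [he]
  have he0 : e ≠ 0 := by rw [← norm_pos_iff, hen]; exact one_pos
  have hne : ∀ t ∈ Icc 1 lam, t • e ≠ 0 := fun t ht =>
    smul_ne_zero (by linarith [ht.1] : t ≠ 0) he0
  have hd : ∀ t ∈ Icc 1 lam, HasDerivAt (fun t : ℝ => f (t • e)) (pd 0 f (t • e)) t := by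
    intro t ht
    have h1 := (hf.differentiableAt (hne t ht)).hasFDerivAt
    have h2 : HasDerivAt (fun t : ℝ => t • e) e t := by
      simpa using (hasDerivAt_id t).smul_const e
    exact h1.comp_hasDerivAt t h2
  obtain ⟨t, ht, hte⟩ := exists_hasDerivAt_eq_slope (fun t : ℝ => f (t • e))
    (fun t => pd 0 f (t • e)) hl
    (fun t ht => (hd t ht).continuousAt.continuousWithinAt)
    (fun t ht => hd t (Ioo_subset_Icc_self ht))
  have h1 : f (lam • e) - f ((1 : ℝ) • e) = Real.log lam := by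
    rw [one_smul, qf e he0]; ring
  rw [h1] at hte
  have hpos : 0 < pd 0 f (t • e) := by
    rw [hte]; exact div_pos (Real.log_pos hl) (by linarith)
  refine ⟨t • e, ⟨?_, ?_⟩, ?_⟩
  · rw [norm_smul, hen, mul_one, Real.norm_of_nonneg (by linarith [ht.1])]; exact ht.1.le
  · rw [norm_smul, hen, mul_one, Real.norm_of_nonneg (by linarith [ht.1])]; exact ht.2.le
  · unfold gdot
    nlinarith [mul_pos hpos hpos, mul_self_nonneg (pd 1 f (t • e)),
      mul_self_nonneg (pd 2 f (t • e))]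

/-- The total `σ₂`-curvature is negative. -/
theorem S2f_neg {lam : ℝ} (hl : 1 < lam) {f : E3 → ℝ} (hf : SX f) (qf : QI lam f)
    (hs : ∀ x ≠ 0, 0 < s1 f x) : S2f lam f < 0 := by
  have c : ∀ c : ℝ, SX (fun _ => c) := SX.const
  have hlap : ∀ x ≠ 0, 0 < lap f x := by
    intro x hx
    have h1 := hs x hx
    unfold s1 at h1
    linarith [gdot_self_nonneg f x]
  obtain ⟨p, hp, hpg⟩ := exists_grad hl hf qf
  have hk : SX (fun x => (1 / 4) * Real.exp (f x) * gdot f f x * lap f x) :=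
    (((c _).mul hf.exp).mul (hf.gdot hf)).mul hf.lap
  have h := setIntegral_pos hl hk.continuousOn (fun x hx => by
    have h1 := (hlap x (ne_zero_of_mem_fund hx)).le
    have h2 := gdot_self_nonneg f x
    have h3 := Real.exp_pos (f x)
    positivity) hp (by
    have h1 := hlap p (ne_zero_of_mem_ann hp)
    have h3 := Real.exp_pos (f p)
    positivity)
  rw [S2f_eq hl hf qf]
  have e : ∀ x, -(1 / 4) * Real.exp (f x) * gdot f f x * lap f x
      = -((1 / 4) * Real.exp (f x) * gdot f f x * lap f x) := fun x => by ring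
  simp only [e, integral_neg]
  linarith

lemma forall_of_fund {lam : ℝ} (hl : 1 < lam) {P : E3 → Prop}
    (hP : ∀ x ≠ 0, (P (lam • x) ↔ P x)) (hF : ∀ x ∈ fund lam, P x) : ∀ x ≠ 0, P x := by
  intro x hx
  have hl0 : 0 < lam := by linarith
  obtain ⟨n, hn1, hn2⟩ := exists_mem_Ico_zpow (norm_pos_iff.2 hx) hl
  have hz : 0 < lam ^ n := zpow_pos hl0 n
  have hmem : (lam ^ n)⁻¹ • x ∈ fund lam := by
    refine ⟨?_, ?_⟩
    · rw [norm_smul, Real.norm_of_nonneg (inv_nonneg.2 hz.le), ← div_eq_inv_mul, one_le_div hz]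
      exact hn1
    · rw [norm_smul, Real.norm_of_nonneg (inv_nonneg.2 hz.le), ← div_eq_inv_mul, div_lt_iff₀ hz]
      rw [zpow_add_one₀ hl0.ne'] at hn2
      linarith
  have key : ∀ m : ℤ, ∀ y : E3, y ≠ 0 → (P ((lam ^ m) • y) ↔ P y) := by
    intro m
    induction m using Int.induction_on with
    | zero => intro y _; simp
    | succ i ih =>
      intro y hy
      rw [zpow_add_one₀ hl0.ne', mul_comm, mul_smul]
      rw [hP _ (smul_ne_zero (zpow_pos hl0 _).ne' hy)]
      exact ih y hy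
    | pred i ih =>
      intro y hy
      rw [← ih y hy]
      have : lam ^ (-(i : ℤ)) = lam * lam ^ (-(i : ℤ) - 1) := by
        rw [← zpow_one_add₀ hl0.ne']; congr 1; ring
      rw [this, mul_smul]
      rw [hP _ (smul_ne_zero (zpow_pos hl0 _).ne' hy)]
  have := (key n _ (ne_zero_of_mem_fund hmem)).2 (hF _ hmem)
  rwa [smul_inv_smul₀ hz.ne'] at this

section
variable {g : E3 → ℝ} {x : E3}

lemma pd_cmul (hg : SX g) (hx : x ≠ 0) (e : ℝ) (i : Fin 3) :
    pd i (fun y => e * g y) x = e * pd i g x := by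
  have h := (HasPd.const e).mul (hg.hasPd hx i)
  rw [h.pd_eq (((SX.const e).mul hg).differentiableAt hx)]; ring

lemma lap_cmul (hg : SX g) (hx : x ≠ 0) (e : ℝ) : lap (fun y => e * g y) x = e * lap g x := by
  unfold lap
  rw [pd_congr_X 0 hx (fun y hy => pd_cmul hg hy e 0), pd_congr_X 1 hx (fun y hy => pd_cmul hg hy e 1),
    pd_congr_X 2 hx (fun y hy => pd_cmul hg hy e 2), pd_cmul (hg.pd 0) hx, pd_cmul (hg.pd 1) hx,
    pd_cmul (hg.pd 2) hx]
  ring

lemma gdot_cmul (hg : SX g) (hx : x ≠ 0) (e : ℝ) :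
    gdot (fun y => e * g y) (fun y => e * g y) x = e ^ 2 * gdot g g x := by
  unfold gdot
  rw [pd_cmul hg hx, pd_cmul hg hx, pd_cmul hg hx]; ring

lemma gdot_cmul_right (f : E3 → ℝ) (hg : SX g) (hx : x ≠ 0) (e : ℝ) :
    gdot f (fun y => e * g y) x = e * gdot f g x := by
  unfold gdot
  rw [pd_cmul hg hx, pd_cmul hg hx, pd_cmul hg hx]; ring

lemma Tq_cmul (f : E3 → ℝ) (hg : SX g) (hx : x ≠ 0) (e : ℝ) :
    Tq f (fun y => e * g y) x = e ^ 2 * Tq f g x := by
  unfold Tq Sq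
  rw [gdot_cmul hg hx, pd_cmul hg hx, pd_cmul hg hx, pd_cmul hg hx]; ring

end

/-- Small perturbations stay admissible. -/
lemma admissible {lam : ℝ} (hl : 1 < lam) {f g : E3 → ℝ} (hf : SX f) (qf : QI lam f)
    (hg : SX g) (ig : Inv lam g) (hs : ∀ x ≠ 0, 0 < s1 f x) :
    ∃ d > 0, ∀ e : ℝ, |e| < d → ∀ x ≠ 0, 0 < s1 (fun y => f y + e * g y) x := by
  have hl0 : 0 < lam := by linarith
  have hln : lam ≠ 0 := hl0.ne'
  have hne : (ann lam).Nonempty := ⟨_, exists_ann hl⟩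
  obtain ⟨p, hp, hpm⟩ := (isCompact_ann lam).exists_isMinOn hne
    (hf.s1.continuousOn.mono (ann_subset_X lam))
  have hS : SX (fun x => lap g x - gdot f g x) := hg.lap.sub (hf.gdot hg)
  obtain ⟨K1, hK1⟩ := (isCompact_ann lam).exists_bound_of_continuousOn
    (hS.continuousOn.mono (ann_subset_X lam))
  obtain ⟨K2, hK2⟩ := (isCompact_ann lam).exists_bound_of_continuousOn
    ((hg.gdot hg).continuousOn.mono (ann_subset_X lam))
  have hp0 : 0 < s1 f p := hs p (ne_zero_of_mem_ann hp)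
  have hK1' : 0 ≤ K1 := le_trans (norm_nonneg _) (hK1 p hp)
  have hK2' : 0 ≤ K2 := le_trans (norm_nonneg _) (hK2 p hp)
  refine ⟨min 1 (s1 f p / (K1 + K2 + 1)), lt_min one_pos (by positivity), ?_⟩
  intro e he
  have he1 : |e| < 1 := lt_of_lt_of_le he (min_le_left _ _)
  have he2 : |e| < s1 f p / (K1 + K2 + 1) := lt_of_lt_of_le he (min_le_right _ _)
  rw [lt_div_iff₀ (by positivity)] at he2
  have hgi : Inv lam (fun y => e * g y) := fun x hx => by
    change e * g (lam • x) = e * g x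
    rw [ig x hx]
  have hSg : SX (fun y => e * g y) := (SX.const e).mul hg
  have hSfg : SX (fun y => f y + e * g y) := hf.add hSg
  have hqi : QI lam (fun y => f y + e * g y) := qf.add hgi
  refine forall_of_fund hl (P := fun x => 0 < s1 (fun y => f y + e * g y) x) ?_ ?_
  · intro x hx
    rw [(hqi.sc hln hSfg).s1 hln hSfg hx]
    have : 0 < (lam ^ 2)⁻¹ := by positivity
    exact mul_pos_iff_of_pos_left this
  · intro x hx
    have hx0 := ne_zero_of_mem_fund hx
    have hxa := fund_subset_ann lam hx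
    have e1 : s1 (fun y => f y + e * g y) x = s1 f x + e * (lap g x - gdot f g x)
        - (1 / 2) * (e ^ 2 * gdot g g x) := by
      unfold s1
      rw [lap_add hf hSg hx0, gdot_add hf hSg hx0, lap_cmul hg hx0, gdot_cmul hg hx0,
        gdot_cmul_right f hg hx0]
      ring
    rw [e1]
    have a1 : s1 f p ≤ s1 f x := hpm hxa
    have a2 : |lap g x - gdot f g x| ≤ K1 := hK1 x hxa
    have a3 : gdot g g x ≤ K2 := le_trans (le_abs_self _) (hK2 x hxa)
    have a4 : -(|e| * K1) ≤ e * (lap g x - gdot f g x) := by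
      have : |e * (lap g x - gdot f g x)| ≤ |e| * K1 := by
        rw [abs_mul]; exact mul_le_mul_of_nonneg_left a2 (abs_nonneg _)
      linarith [neg_abs_le (e * (lap g x - gdot f g x))]
    have a5 : e ^ 2 * gdot g g x ≤ |e| * K2 := by
      have h1 : e ^ 2 ≤ |e| := by
        rw [← sq_abs]; nlinarith [abs_nonneg e]
      have h2 := gdot_self_nonneg g x
      calc e ^ 2 * gdot g g x ≤ |e| * gdot g g x := mul_le_mul_of_nonneg_right h1 h2
        _ ≤ |e| * K2 := mul_le_mul_of_nonneg_left a3 (abs_nonneg _)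
    nlinarith [abs_nonneg e]

end Pool.Agent.H52R3
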