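import Pool.Agent.H52R3.Pert

open MeasureTheory Set Filter Topology
open scoped ContDiff

namespace Pool.Agent.H52R3

lemma int_lin5 {s : Set E3} {u1 u2 u3 u4 u5 : E3 → ℝ} (h1 : IntegrableOn u1 s)
    (h2 : IntegrableOn u2 s) (h3 : IntegrableOn u3 s) (h4 : IntegrableOn u4 s)
    (h5 : IntegrableOn u5 s) (c2 c3 c4 c5 : ℝ) :
    IntegrableOn (fun x => u1 x + c2 * u2 x + c3 * u3 x + c4 * u4 x + c5 * u5 x) s ∧
    ∫ x in s, (u1 x + c2 * u2 x + c3 * u3 x + c4 * u4 x + c5 * u5 x)
      = (∫ x in s, u1 x) + c2 * (∫ x in s, u2 x) + c3 * (∫ x in s, u3 x) + c4 * (∫ x in s, u4 x)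
        + c5 * (∫ x in s, u5 x) := by
  have g2 : IntegrableOn (fun x => c2 * u2 x) s := h2.const_mul c2
  have g3 : IntegrableOn (fun x => c3 * u3 x) s := h3.const_mul c3
  have g4 : IntegrableOn (fun x => c4 * u4 x) s := h4.const_mul c4
  have g5 : IntegrableOn (fun x => c5 * u5 x) s := h5.const_mul c5
  have k2 : IntegrableOn (fun x => u1 x + c2 * u2 x) s := h1.add g2
  have k3 : IntegrableOn (fun x => u1 x + c2 * u2 x + c3 * u3 x) s := k2.add g3
  have k4 : IntegrableOn (fun x => u1 x + c2 * u2 x + c3 * u3 x + c4 * u4 x) s := k3.add g4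
  refine ⟨k4.add g5, ?_⟩
  rw [integral_add k4 g5, integral_add k3 g4, integral_add k2 g3, integral_add h1 g2,
    integral_const_mul, integral_const_mul, integral_const_mul, integral_const_mul]

/-- the leading part of the second variation -/
noncomputable def qform (lam : ℝ) (f g : E3 → ℝ) : ℝ :=
  ∫ x in fund lam, ((1 / 2) * Real.exp (f x) * Tq f g x / (-(S2f lam f))
    - Real.exp (-(f x)) * gdot g g x / S1f lam f)

noncomputable def Ef (lam : ℝ) (f : E3 → ℝ) : ℝ := Vf lam f * S2f lam f / (S1f lam f) ^ 2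

theorem pert {lam : ℝ} (hl : 1 < lam) {f g : E3 → ℝ} (hf : SX f) (qf : QI lam f)
    (hg : SX g) (ig : Inv lam g) (hs : ∀ x ≠ 0, 0 < s1 f x) (hg1 : ∀ x ≠ 0, |g x| ≤ 1)
    (hq : qform lam f g
      < -(9 + 4 * ((∫ x in fund lam, Real.exp (f x) * |s2 f x|) / (-(S2f lam f))))) :
    ∃ e : ℝ, (∀ x ≠ 0, 0 < s1 (fun y => f y + e * g y) x) ∧
      Ef lam f < Ef lam (fun y => f y + e * g y) := by
  have cc : ∀ c : ℝ, SX (fun _ => c) := SX.const
  set A := Vf lam f with hA
  set B := -(S2f lam f) with hB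
  set C := S1f lam f with hC
  have hA0 : 0 < A := Vf_pos hl hf
  have hB0 : 0 < B := by rw [hB]; linarith [S2f_neg hl hf qf hs]
  have hC0 : 0 < C := S1f_pos hl hf hs
  have hms := measurableSet_fund lam
  -- the functions
  set K : E3 → ℝ := fun x => gdot g g x * (lap g x - gdot f g x) with hK
  have hKS : SX K := (hg.gdot hg).mul (hg.lap.sub (hf.gdot hg))
  have iE3 : IntegrableOn (fun x => Real.exp (-(3 * f x))) (fund lam) :=
    (((cc 3).mul hf).neg.exp).integrableOn
  have iE3g : IntegrableOn (fun x => Real.exp (-(3 * f x)) * g x) (fund lam) :=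
    ((((cc 3).mul hf).neg.exp).mul hg).integrableOn
  have i0 : IntegrableOn (fun _ : E3 => (0 : ℝ)) (fund lam) := (cc 0).integrableOn
  have iS1 : IntegrableOn (fun x => Real.exp (-(f x)) * s1 f x) (fund lam) :=
    ((hf.neg.exp).mul hf.s1).integrableOn
  have iS1g : IntegrableOn (fun x => Real.exp (-(f x)) * s1 f x * g x) (fund lam) :=
    (((hf.neg.exp).mul hf.s1).mul hg).integrableOn
  have iG : IntegrableOn (fun x => Real.exp (-(f x)) * gdot g g x) (fund lam) :=
    ((hf.neg.exp).mul (hg.gdot hg)).integrableOn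
  have iS2 : IntegrableOn (fun x => Real.exp (f x) * s2 f x) (fund lam) :=
    ((hf.exp).mul hf.s2).integrableOn
  have iS2n : IntegrableOn (fun x => -(Real.exp (f x) * s2 f x)) (fund lam) := iS2.neg
  have iS2g : IntegrableOn (fun x => Real.exp (f x) * s2 f x * g x) (fund lam) :=
    (((hf.exp).mul hf.s2).mul hg).integrableOn
  have iS2a : IntegrableOn (fun x => Real.exp (f x) * |s2 f x|) (fund lam) :=
    integrableOn_fund (hf.exp.continuousOn.mul hf.s2.continuousOn.abs)
  have iT : IntegrableOn (fun x => Real.exp (f x) * Tq f g x) (fund lam) :=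
    ((hf.exp).mul (hf.Tq hg)).integrableOn
  have iTK : IntegrableOn (fun x => Real.exp (f x) * (|Tq f g x| + |K x|)) (fund lam) :=
    integrableOn_fund (hf.exp.continuousOn.mul
      ((hf.Tq hg).continuousOn.abs.add hKS.continuousOn.abs))
  set M0 := ∫ x in fund lam, Real.exp (f x) * |s2 f x| with hM0
  set a := (-3 * ∫ x in fund lam, Real.exp (-(3 * f x)) * g x) / A with ha
  set b := (-∫ x in fund lam, Real.exp (f x) * s2 f x * g x) / B with hb
  set c := (-∫ x in fund lam, Real.exp (-(f x)) * s1 f x * g x) / C with hc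
  set m := M0 / B with hm
  set be := ((1 / 2) * ∫ x in fund lam, Real.exp (f x) * Tq f g x) / B with hbe
  set ga := ((1 / 2) * ∫ x in fund lam, Real.exp (-(f x)) * gdot g g x) / C with hga
  set m' := (∫ x in fund lam, Real.exp (f x) * (|Tq f g x| + |K x|)) / B with hm'
  have hga0 : 0 ≤ ga := by
    have : 0 ≤ ∫ x in fund lam, Real.exp (-(f x)) * gdot g g x :=
      setIntegral_nonneg hms (fun x _ => mul_nonneg (Real.exp_pos _).le (gdot_self_nonneg g x))
    rw [hga]; positivity
  have ha3 : |a| ≤ 3 := by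
    have h1 : |∫ x in fund lam, Real.exp (-(3 * f x)) * g x| ≤ A := by
      rw [hA, Vf, ← Real.norm_eq_abs]
      apply norm_integral_le_of_norm_le iE3
      refine (ae_restrict_iff' hms).2 (Eventually.of_forall fun x hx => ?_)
      rw [norm_mul, Real.norm_of_nonneg (Real.exp_pos _).le, Real.norm_eq_abs]
      exact mul_le_of_le_one_right (Real.exp_pos _).le (hg1 x (ne_zero_of_mem_fund hx))
    rw [ha, abs_div, abs_mul, abs_of_pos hA0, div_le_iff₀ hA0]
    norm_num; linarith
  have hbm : |b| ≤ m := by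
    have h1 : |∫ x in fund lam, Real.exp (f x) * s2 f x * g x| ≤ M0 := by
      rw [hM0, ← Real.norm_eq_abs]
      apply norm_integral_le_of_norm_le iS2a
      refine (ae_restrict_iff' hms).2 (Eventually.of_forall fun x hx => ?_)
      rw [norm_mul, norm_mul, Real.norm_of_nonneg (Real.exp_pos _).le, Real.norm_eq_abs,
        Real.norm_eq_abs]
      exact mul_le_of_le_one_right (mul_nonneg (Real.exp_pos _).le (abs_nonneg _))
        (hg1 x (ne_zero_of_mem_fund hx))
    rw [hb, hm, abs_div, abs_neg, abs_of_pos hB0]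
    gcongr
  have hqeq : qform lam f g = be - 2 * ga := by
    have h := int_lin5 iT iG i0 i0 i0 0 0 0 0
    have h1 : IntegrableOn (fun x => (1 / 2) * Real.exp (f x) * Tq f g x / B) (fund lam) :=
      (((cc (1 / 2)).mul hf.exp).mul (hf.Tq hg)).integrableOn.div_const B
    have h2 : IntegrableOn (fun x => Real.exp (-(f x)) * gdot g g x / C) (fund lam) :=
      iG.div_const C
    rw [qform, integral_sub h1 h2, MeasureTheory.integral_div C, hbe, hga]
    have e1 : ∀ x, (1 / 2) * Real.exp (f x) * Tq f g x / B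
        = ((1 / 2) / B) * (Real.exp (f x) * Tq f g x) := fun x => by ring
    simp only [e1, integral_const_mul]
    ring
  rw [hqeq] at hq
  obtain ⟨d0, hd0, hadm⟩ := admissible hl hf qf hg ig hs
  obtain ⟨e, he, hP3, hlt⟩ := real_lemma (c := c) (m' := m') ha3 hbm hq
    (lt_min (by norm_num : (0 : ℝ) < 1 / 3) hd0)
  have he1 : |e| < 1 / 3 := lt_of_lt_of_le he (min_le_left _ _)
  have he2 : |e| < d0 := lt_of_lt_of_le he (min_le_right _ _)
  have hs' := hadm e he2
  refine ⟨e, hs', ?_⟩
  have hSg : SX (fun y => e * g y) := (cc e).mul hg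
  have hSfg : SX (fun y => f y + e * g y) := hf.add hSg
  have hgi : Inv lam (fun y => e * g y) := fun x hx => by
    change e * g (lam • x) = e * g x
    rw [ig x hx]
  have hqi : QI lam (fun y => f y + e * g y) := qf.add hgi
  have hA' : 0 < Vf lam (fun y => f y + e * g y) := Vf_pos hl hSfg
  have hB' : S2f lam (fun y => f y + e * g y) < 0 := S2f_neg hl hSfg hqi hs'
  have hC' : 0 < S1f lam (fun y => f y + e * g y) := S1f_pos hl hSfg hs'
  have hge : ∀ x ≠ 0, |e * g x| ≤ |e| := fun x hx => by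
    rw [abs_mul]; exact mul_le_of_le_one_right (abs_nonneg _) (hg1 x hx)
  have hgsq : ∀ x ≠ 0, (e * g x) ^ 2 ≤ e ^ 2 := fun x hx => by
    rw [← sq_abs (e * g x), ← sq_abs e]
    exact pow_le_pow_left₀ (abs_nonneg _) (hge x hx) 2
  -- (1)
  have I1 : Vf lam (fun y => f y + e * g y) ≤ A * (1 + e * a + 9 * e ^ 2) := by
    have h := int_lin5 iE3 iE3g iE3 i0 i0 (-3 * e) (9 * e ^ 2) 0 0
    have h1 : Vf lam (fun y => f y + e * g y) ≤ ∫ x in fund lam, (Real.exp (-(3 * f x))
        + (-3 * e) * (Real.exp (-(3 * f x)) * g x) + (9 * e ^ 2) * Real.exp (-(3 * f x))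
        + 0 * 0 + 0 * 0) := by
      rw [Vf]
      refine setIntegral_mono_on (((cc 3).mul hSfg).neg.exp).integrableOn h.1 hms
        (fun x hx => ?_)
      have hx0 := ne_zero_of_mem_fund hx
      have e1 : Real.exp (-(3 * (f x + e * g x)))
          = Real.exp (-(3 * f x)) * Real.exp (-(3 * (e * g x))) := by
        rw [← Real.exp_add]; congr 1; ring
      rw [e1]
      have h2 : |-(3 * (e * g x))| ≤ 1 := by
        rw [abs_neg, abs_mul, abs_of_pos (by norm_num : (0 : ℝ) < 3)]
        have := hge x hx0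
        linarith
      have h3 := Real.abs_exp_sub_one_sub_id_le h2
      have h4 := (abs_le.1 h3).2
      have h5 := hgsq x hx0
      have h6 : Real.exp (-(3 * (e * g x))) ≤ 1 - 3 * e * g x + 9 * e ^ 2 := by nlinarith
      have h7 := mul_le_mul_of_nonneg_left h6 (Real.exp_pos (-(3 * f x))).le
      linarith
    refine h1.trans (le_of_eq ?_)
    rw [h.2]
    have : a * A = -3 * ∫ x in fund lam, Real.exp (-(3 * f x)) * g x := by
      rw [ha]; field_simp
    have hAA : (∫ x in fund lam, Real.exp (-(3 * f x))) = A := rfl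
    rw [hAA]
    linear_combination (-e) * this
  -- (2)
  have I2 : C * (1 + e * c + e ^ 2 * ga * (1 - |e|)) ≤ S1f lam (fun y => f y + e * g y) := by
    have h := int_lin5 iS1 iS1g iG i0 i0 (-e) ((1 / 2) * e ^ 2 * (1 - |e|)) 0 0
    have h1 : ∫ x in fund lam, (Real.exp (-(f x)) * s1 f x
        + (-e) * (Real.exp (-(f x)) * s1 f x * g x)
        + ((1 / 2) * e ^ 2 * (1 - |e|)) * (Real.exp (-(f x)) * gdot g g x)
        + 0 * 0 + 0 * 0) ≤ S1f lam (fun y => f y + e * g y) := by
      rw [S1f_add hl hf hSg qf hgi]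
      refine setIntegral_mono_on h.1
        (hSfg.neg.exp.mul (hf.s1.add ((cc (1 / 2)).mul (hSg.gdot hSg)))).integrableOn hms
        (fun x hx => ?_)
      have hx0 := ne_zero_of_mem_fund hx
      have e1 : Real.exp (-(f x + e * g x)) = Real.exp (-(f x)) * Real.exp (-(e * g x)) := by
        rw [← Real.exp_add]; congr 1; ring
      rw [e1, gdot_cmul hg hx0, mul_assoc (Real.exp (-(f x)))]
      have h2 : 1 - e * g x ≤ Real.exp (-(e * g x)) := by
        have := Real.add_one_le_exp (-(e * g x)); linarith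
      have h3 : 0 ≤ s1 f x + (1 / 2) * (e ^ 2 * gdot g g x) := by
        have := hs x hx0
        have := gdot_self_nonneg g x
        positivity
      have h4 : (1 - e * g x) * (s1 f x + (1 / 2) * (e ^ 2 * gdot g g x))
          ≤ Real.exp (-(e * g x)) * (s1 f x + (1 / 2) * (e ^ 2 * gdot g g x)) :=
        mul_le_mul_of_nonneg_right h2 h3
      have h5 : s1 f x - e * g x * s1 f x + (1 / 2) * e ^ 2 * (1 - |e|) * gdot g g x
          ≤ (1 - e * g x) * (s1 f x + (1 / 2) * (e ^ 2 * gdot g g x)) := by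
        have h6 : 1 - |e| ≤ 1 - e * g x := by
          have := le_abs_self (e * g x)
          linarith [hge x hx0]
        have h7 : 0 ≤ (1 / 2) * (e ^ 2 * gdot g g x) := by
          have := gdot_self_nonneg g x
          positivity
        nlinarith [mul_le_mul_of_nonneg_right h6 h7]
      have h8 := mul_le_mul_of_nonneg_left (h5.trans h4) (Real.exp_pos (-(f x))).le
      linarith
    refine le_trans (le_of_eq ?_) h1
    rw [h.2]
    have t1 : c * C = -∫ x in fund lam, Real.exp (-(f x)) * s1 f x * g x := by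
      rw [hc]; field_simp
    have t2 : ga * C = (1 / 2) * ∫ x in fund lam, Real.exp (-(f x)) * gdot g g x := by
      rw [hga]; field_simp
    have hCC : (∫ x in fund lam, Real.exp (-(f x)) * s1 f x) = C := rfl
    rw [hCC]
    linear_combination e * t1 + (e ^ 2 * (1 - |e|)) * t2
  -- (3)
  have I3 : -(S2f lam (fun y => f y + e * g y)) ≤ B * (1 + e * b + e ^ 2 * (m + be)
      + |e| ^ 3 * m') := by
    have h := int_lin5 iS2n iS2g iS2a iT iTK (-e) (e ^ 2) ((1 / 2) * e ^ 2) (|e| ^ 3)
    have h1 : -(S2f lam (fun y => f y + e * g y)) ≤ ∫ x in fund lam,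
        (-(Real.exp (f x) * s2 f x)
        + (-e) * (Real.exp (f x) * s2 f x * g x)
        + (e ^ 2) * (Real.exp (f x) * |s2 f x|)
        + ((1 / 2) * e ^ 2) * (Real.exp (f x) * Tq f g x)
        + (|e| ^ 3) * (Real.exp (f x) * (|Tq f g x| + |K x|))) := by
      rw [S2f_add hl hf hSg qf hgi, ← integral_neg]
      refine setIntegral_mono_on ?_ h.1 hms (fun x hx => ?_)
      · exact (hSfg.exp.mul ((hf.s2.sub ((cc (1 / 2)).mul (hf.Tq hSg))).sub
          (((cc (1 / 4)).mul (hSg.gdot hSg)).mul (hSg.lap.sub (hf.gdot hSg))))).integrableOn.neg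
      have hx0 := ne_zero_of_mem_fund hx
      have e1 : Real.exp (f x + e * g x) = Real.exp (f x) * Real.exp (e * g x) := by
        rw [← Real.exp_add]
      rw [e1, gdot_cmul hg hx0, Tq_cmul f hg hx0, lap_cmul hg hx0, gdot_cmul_right f hg hx0]
      set E := Real.exp (e * g x) with hE
      have hu : |e * g x| ≤ 1 := (hge x hx0).trans (by linarith)
      have h2 : |E - 1 - e * g x| ≤ e ^ 2 :=
        (Real.abs_exp_sub_one_sub_id_le hu).trans (hgsq x hx0)
      have h3 : |E - 1| ≤ 2 * |e| := by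
        have := Real.abs_exp_sub_one_le hu
        linarith [hge x hx0]
      have hE0 : 0 < E := Real.exp_pos _
      have hE2 : E ≤ 2 := by
        have := (abs_le.1 h3).2
        linarith
      have k1 : E * (-(s2 f x)) ≤ -(s2 f x) - e * g x * s2 f x + e ^ 2 * |s2 f x| := by
        have : (E - 1 - e * g x) * (-(s2 f x)) ≤ e ^ 2 * |s2 f x| := by
          calc (E - 1 - e * g x) * (-(s2 f x)) ≤ |(E - 1 - e * g x) * (-(s2 f x))| := le_abs_self _
            _ = |E - 1 - e * g x| * |s2 f x| := by rw [abs_mul, abs_neg]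
            _ ≤ e ^ 2 * |s2 f x| := mul_le_mul_of_nonneg_right h2 (abs_nonneg _)
        linarith
      have k2 : E * ((1 / 2) * (e ^ 2 * Tq f g x)) ≤ (1 / 2) * e ^ 2 * Tq f g x
          + |e| ^ 3 * |Tq f g x| := by
        have : (E - 1) * ((1 / 2) * (e ^ 2 * Tq f g x)) ≤ |e| ^ 3 * |Tq f g x| := by
          calc (E - 1) * ((1 / 2) * (e ^ 2 * Tq f g x))
              ≤ |(E - 1) * ((1 / 2) * (e ^ 2 * Tq f g x))| := le_abs_self _
            _ = |E - 1| * ((1 / 2) * (|e| ^ 2 * |Tq f g x|)) := by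
                rw [abs_mul, abs_mul, abs_mul, abs_of_pos (by norm_num : (0 : ℝ) < 1 / 2),
                  abs_pow]
            _ ≤ (2 * |e|) * ((1 / 2) * (|e| ^ 2 * |Tq f g x|)) :=
                mul_le_mul_of_nonneg_right h3 (by positivity)
            _ = |e| ^ 3 * |Tq f g x| := by ring
        linarith
      have k3 : E * ((1 / 4) * (e ^ 3 * K x)) ≤ |e| ^ 3 * |K x| := by
        calc E * ((1 / 4) * (e ^ 3 * K x)) ≤ |E * ((1 / 4) * (e ^ 3 * K x))| := le_abs_self _
          _ = E * ((1 / 4) * (|e| ^ 3 * |K x|)) := by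
              rw [abs_mul, abs_mul, abs_mul, abs_of_pos (by norm_num : (0 : ℝ) < 1 / 4),
                abs_pow, abs_of_pos hE0]
          _ ≤ 2 * ((1 / 4) * (|e| ^ 3 * |K x|)) := mul_le_mul_of_nonneg_right hE2 (by positivity)
          _ ≤ |e| ^ 3 * |K x| := by
              have : 0 ≤ |e| ^ 3 * |K x| := by positivity
              linarith
      have k4 := mul_le_mul_of_nonneg_left (add_le_add (add_le_add k1 k2) k3)
        (Real.exp_pos (f x)).le
      have k5 : -(Real.exp (f x) * E * (s2 f x - 1 / 2 * (e ^ 2 * Tq f g x)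
          - 1 / 4 * (e ^ 2 * gdot g g x) * (e * lap g x - e * gdot f g x)))
          = Real.exp (f x) * (E * (-(s2 f x)) + E * ((1 / 2) * (e ^ 2 * Tq f g x))
            + E * ((1 / 4) * (e ^ 3 * K x))) := by
        simp only [hK]; ring
      rw [k5]
      linarith
    refine h1.trans (le_of_eq ?_)
    rw [h.2, integral_neg]
    have t1 : b * B = -∫ x in fund lam, Real.exp (f x) * s2 f x * g x := by
      rw [hb]; field_simp
    have t2 : m * B = M0 := by rw [hm]; field_simp
    have t3 : be * B = (1 / 2) * ∫ x in fund lam, Real.exp (f x) * Tq f g x := by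
      rw [hbe]; field_simp
    have t4 : m' * B = ∫ x in fund lam, Real.exp (f x) * (|Tq f g x| + |K x|) := by
      rw [hm']; field_simp
    have hBB : (∫ x in fund lam, Real.exp (f x) * s2 f x) = -B := by rw [hB, S2f]; ring
    rw [hBB, ← hM0]
    linear_combination (-e) * t1 - e ^ 2 * t2 - e ^ 2 * t3 - |e| ^ 3 * t4
  -- conclusion
  set A' := Vf lam (fun y => f y + e * g y) with hA'd
  set B' := -(S2f lam (fun y => f y + e * g y)) with hB'd
  set C' := S1f lam (fun y => f y + e * g y) with hC'd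
  have hB'0 : 0 < B' := by rw [hB'd]; linarith
  set P1 := 1 + e * a + 9 * e ^ 2
  set P2 := 1 + e * b + e ^ 2 * (m + be) + |e| ^ 3 * m'
  set P3 := 1 + e * c + e ^ 2 * ga * (1 - |e|)
  have q1 : A' * B' ≤ A * B * (P1 * P2) := by
    have hAP : 0 ≤ A * P1 := hA'.le.trans I1
    calc A' * B' ≤ (A * P1) * (B * P2) := mul_le_mul I1 I3 hB'0.le hAP
      _ = A * B * (P1 * P2) := by ring
  have q2 : A * B * (P1 * P2) < A * B * P3 ^ 2 := mul_lt_mul_of_pos_left hlt (by positivity)
  have q3 : (C * P3) ^ 2 ≤ C' ^ 2 := pow_le_pow_left₀ (by positivity) I2 2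
  have q4 : A' * B' * C ^ 2 < A * B * C' ^ 2 := by
    calc A' * B' * C ^ 2 < A * B * P3 ^ 2 * C ^ 2 :=
          mul_lt_mul_of_pos_right (lt_of_le_of_lt q1 q2) (by positivity)
      _ = A * B * (C * P3) ^ 2 := by ring
      _ ≤ A * B * C' ^ 2 := mul_le_mul_of_nonneg_left q3 (by positivity)
  have r1 : Ef lam f = -(A * B / C ^ 2) := by rw [Ef, hB]; ring
  have r2 : Ef lam (fun y => f y + e * g y) = -(A' * B' / C' ^ 2) := by rw [Ef, hB'd]; ring
  rw [r1, r2, neg_lt_neg_iff, div_lt_div_iff₀ (by positivity) (by positivity)]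
  exact q4

end Pool.Agent.H52R3
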