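import Pool.Agent.H52R3.MaxP
import Pool.Agent.H52R3.Pert2

open MeasureTheory Set Filter Topology
open scoped ContDiff

namespace Pool.Agent.H52R3

lemma fin_ne : ((0 : Fin 3) = 1) = False ∧ ((0 : Fin 3) = 2) = False ∧ ((1 : Fin 3) = 0) = False
    ∧ ((1 : Fin 3) = 2) = False ∧ ((2 : Fin 3) = 0) = False ∧ ((2 : Fin 3) = 1) = False := by
  simp

lemma trace_Smat (f : E3 → ℝ) (x : E3) : Smat f 0 0 x + Smat f 1 1 x + Smat f 2 2 x = s1 f x := by
  simp only [Smat, s1, lap, gdot, if_true]; ring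

lemma sum_Tq_ang (f : E3 → ℝ) {x : E3} (hx : x ≠ 0) :
    Tq f (ang 0) x + Tq f (ang 1) x + Tq f (ang 2) x = (1 / ‖x‖ ^ 2) * (s1 f x
      + (Smat f 0 0 x * (x 0 * x 0) + Smat f 0 1 x * (x 0 * x 1) + Smat f 0 2 x * (x 0 * x 2)
      + Smat f 1 0 x * (x 1 * x 0) + Smat f 1 1 x * (x 1 * x 1) + Smat f 1 2 x * (x 1 * x 2)
      + Smat f 2 0 x * (x 2 * x 0) + Smat f 2 1 x * (x 2 * x 1) + Smat f 2 2 x * (x 2 * x 2))
        / ‖x‖ ^ 2) := by
  have hn : ‖x‖ ^ 2 ≠ 0 := pow_ne_zero 2 (norm_ne_zero_iff.2 hx)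
  have h1 := sum_gdot_ang hx
  have h2 := trace_Smat f x
  have e1 : Tq f (ang 0) x + Tq f (ang 1) x + Tq f (ang 2) x
      = s1 f x * (gdot (ang 0) (ang 0) x + gdot (ang 1) (ang 1) x + gdot (ang 2) (ang 2) x)
        - (Sq f (ang 0) x + Sq f (ang 1) x + Sq f (ang 2) x) := by
    unfold Tq; ring
  have he := exp_neg_L_sq hx
  have hs := nsq x
  obtain ⟨n1, n2, n3, n4, n5, n6⟩ := fin_ne
  have e2 : Sq f (ang 0) x + Sq f (ang 1) x + Sq f (ang 2) x
      = (1 / ‖x‖ ^ 2) * (Smat f 0 0 x + Smat f 1 1 x + Smat f 2 2 x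
      - (Smat f 0 0 x * (x 0 * x 0) + Smat f 0 1 x * (x 0 * x 1) + Smat f 0 2 x * (x 0 * x 2)
      + Smat f 1 0 x * (x 1 * x 0) + Smat f 1 1 x * (x 1 * x 1) + Smat f 1 2 x * (x 1 * x 2)
      + Smat f 2 0 x * (x 2 * x 0) + Smat f 2 1 x * (x 2 * x 1) + Smat f 2 2 x * (x 2 * x 2))
        / ‖x‖ ^ 2) := by
    unfold Sq
    simp only [pd_ang _ _ hx, n1, n2, n3, n4, n5, n6, if_true, if_false]
    set E := Real.exp (-(L x))
    set a := x 0
    set b := x 1
    set c := x 2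
    generalize Smat f 0 0 x = S00
    generalize Smat f 0 1 x = S01
    generalize Smat f 0 2 x = S02
    generalize Smat f 1 0 x = S10
    generalize Smat f 1 1 x = S11
    generalize Smat f 1 2 x = S12
    generalize Smat f 2 0 x = S20
    generalize Smat f 2 1 x = S21
    generalize Smat f 2 2 x = S22
    have key : ∀ N : ℝ, N ≠ 0 → N = a ^ 2 + b ^ 2 + c ^ 2 → E ^ 2 = N⁻¹ →
      S00 * (E * (1 - a * a / N) * (E * (1 - a * a / N))) +
      S01 * (E * (1 - a * a / N) * (E * (0 - b * a / N))) +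
      S02 * (E * (1 - a * a / N) * (E * (0 - c * a / N))) +
      S10 * (E * (0 - b * a / N) * (E * (1 - a * a / N))) +
      S11 * (E * (0 - b * a / N) * (E * (0 - b * a / N))) +
      S12 * (E * (0 - b * a / N) * (E * (0 - c * a / N))) +
      S20 * (E * (0 - c * a / N) * (E * (1 - a * a / N))) +
      S21 * (E * (0 - c * a / N) * (E * (0 - b * a / N))) +
      S22 * (E * (0 - c * a / N) * (E * (0 - c * a / N))) +
      (S00 * (E * (0 - a * b / N) * (E * (0 - a * b / N))) +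
      S01 * (E * (0 - a * b / N) * (E * (1 - b * b / N))) +
      S02 * (E * (0 - a * b / N) * (E * (0 - c * b / N))) +
      S10 * (E * (1 - b * b / N) * (E * (0 - a * b / N))) +
      S11 * (E * (1 - b * b / N) * (E * (1 - b * b / N))) +
      S12 * (E * (1 - b * b / N) * (E * (0 - c * b / N))) +
      S20 * (E * (0 - c * b / N) * (E * (0 - a * b / N))) +
      S21 * (E * (0 - c * b / N) * (E * (1 - b * b / N))) +
      S22 * (E * (0 - c * b / N) * (E * (0 - c * b / N)))) +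
      (S00 * (E * (0 - a * c / N) * (E * (0 - a * c / N))) +
      S01 * (E * (0 - a * c / N) * (E * (0 - b * c / N))) +
      S02 * (E * (0 - a * c / N) * (E * (1 - c * c / N))) +
      S10 * (E * (0 - b * c / N) * (E * (0 - a * c / N))) +
      S11 * (E * (0 - b * c / N) * (E * (0 - b * c / N))) +
      S12 * (E * (0 - b * c / N) * (E * (1 - c * c / N))) +
      S20 * (E * (1 - c * c / N) * (E * (0 - a * c / N))) +
      S21 * (E * (1 - c * c / N) * (E * (0 - b * c / N))) +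
      S22 * (E * (1 - c * c / N) * (E * (1 - c * c / N))))
      = 1 / N * (S00 + S11 + S22 - (S00 * (a * a) + S01 * (a * b) + S02 * (a * c)
        + S10 * (b * a) + S11 * (b * b) + S12 * (b * c) + S20 * (c * a) + S21 * (c * b)
        + S22 * (c * c)) / N) := by
      intro N hN hNs hE
      have hEE : ∀ s t : ℝ, E * s * (E * t) = N⁻¹ * (s * t) := fun s t => by rw [← hE]; ring
      simp only [hEE]
      field_simp
      rw [hNs]; ring
    exact key _ hn hs he
  rw [e1, h1, e2, h2]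
  ring

/-- At the maximum of `u` the sum of `T_f` over the angular directions is `≤ 0`. -/
lemma sum_Tq_max {u : E3 → ℝ} (hu : SX u) {p : E3} (hp : p ≠ 0) (hmax : ∀ x ≠ 0, u x ≤ u p) :
    Tq (fun x => u x + L x) (ang 0) p + Tq (fun x => u x + L x) (ang 1) p
      + Tq (fun x => u x + L x) (ang 2) p ≤ 0 := by
  have hN : 0 < ‖p‖ ^ 2 := pow_pos (norm_pos_iff.2 hp) 2
  have hs := nsq p
  obtain ⟨n1, n2, n3, n4, n5, n6⟩ := fin_ne
  have hH := second_deriv_max hu hp hmax p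
  have hD : ∀ i : Fin 3, pd i (pd i u) p ≤ 0 := by
    intro i
    have := second_deriv_max hu hp hmax (EuclideanSpace.single i 1)
    fin_cases i <;> simpa [Fin.sum_univ_three] using this
  have hlapu : lap u p ≤ 0 := by
    unfold lap; linarith [hD 0, hD 1, hD 2]
  have hf1 : ∀ i, pd i (fun x => u x + L x) p = p i / ‖p‖ ^ 2 := by
    intro i; rw [pd_add hu SX_L hp, first_deriv_max hp hmax, pd_L i hp, zero_add]
  have hf2 : ∀ i j, pd i (pd j (fun x => u x + L x)) p = pd i (pd j u) p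
      + ((if i = j then 1 else 0) / ‖p‖ ^ 2 - 2 * p i * p j / ‖p‖ ^ 4) := by
    intro i j; rw [pd_pd_add hu SX_L hp, pd_pd_L i j hp]
  rw [sum_Tq_ang _ hp]
  have key : s1 (fun x => u x + L x) p
      + (Smat (fun x => u x + L x) 0 0 p * (p 0 * p 0) + Smat (fun x => u x + L x) 0 1 p * (p 0 * p 1)
      + Smat (fun x => u x + L x) 0 2 p * (p 0 * p 2)
      + Smat (fun x => u x + L x) 1 0 p * (p 1 * p 0) + Smat (fun x => u x + L x) 1 1 p * (p 1 * p 1)
      + Smat (fun x => u x + L x) 1 2 p * (p 1 * p 2)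
      + Smat (fun x => u x + L x) 2 0 p * (p 2 * p 0) + Smat (fun x => u x + L x) 2 1 p * (p 2 * p 1)
      + Smat (fun x => u x + L x) 2 2 p * (p 2 * p 2)) / ‖p‖ ^ 2
      = lap u p + (∑ i, ∑ j, pd i (pd j u) p * p i * p j) / ‖p‖ ^ 2 := by
    simp only [Fin.sum_univ_three, s1, Smat, lap, gdot, hf1, hf2, n1, n2, n3, n4, n5, n6,
      if_true, if_false]
    have h4 : ‖p‖ ^ 4 = (‖p‖ ^ 2) ^ 2 := by ring
    rw [h4]
    generalize ‖p‖ ^ 2 = N at *
    have hNne : N ≠ 0 := hN.ne'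
    field_simp
    rw [hs]
    ring
  rw [key]
  have h3 : (∑ i, ∑ j, pd i (pd j u) p * p i * p j) / ‖p‖ ^ 2 ≤ 0 :=
    div_nonpos_of_nonpos_of_nonneg hH hN.le
  have h4 : lap u p + (∑ i, ∑ j, pd i (pd j u) p * p i * p j) / ‖p‖ ^ 2 ≤ 0 := by linarith
  exact mul_nonpos_of_nonneg_of_nonpos (by positivity) h4

end Pool.Agent.H52R3
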